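import Mathlib

/-! Small integer solutions of systems of linear inequalities. -/

namespace Pool.Agent.Lib.MP_7285af_lc

open Finset Matrix

theorem exists_vertex {m n : Type} [Fintype m] [Fintype n] (A : m → n → ℝ) (b : m → ℝ)
    (hker : ∀ d : n → ℝ, (∀ i, ∑ j, A i j * d j = 0) → d = 0)
    (x : n → ℝ) (hx : ∀ i, b i ≤ ∑ j, A i j * x j) :
    ∃ y : n → ℝ, (∀ i, b i ≤ ∑ j, A i j * y j) ∧
      ∀ d : n → ℝ, (∀ i, b i = ∑ j, A i j * y j → ∑ j, A i j * d j = 0) → d = 0 := by
  classical
  let S : (n → ℝ) → Finset m := fun y => univ.filter fun i => b i = ∑ j, A i j * y j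
  have hex : ∃ k, ∃ y : n → ℝ, (∀ i, b i ≤ ∑ j, A i j * y j) ∧ Fintype.card m - (S y).card = k :=
    ⟨_, x, hx, rfl⟩
  obtain ⟨y, hy, hk⟩ := Nat.find_spec hex
  have hmin : ∀ y' : n → ℝ, (∀ i, b i ≤ ∑ j, A i j * y' j) →
      Nat.find hex ≤ Fintype.card m - (S y').card := fun y' h => Nat.find_min' hex ⟨y', h, rfl⟩
  refine ⟨y, hy, ?_⟩
  have key : ∀ d : n → ℝ, (∀ i, b i = ∑ j, A i j * y j → ∑ j, A i j * d j = 0) →
      ∀ i, 0 ≤ ∑ j, A i j * d j := by
    intro d hd
    by_contra hn
    push Not at hn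
    have hne : (univ.filter fun i => ∑ j, A i j * d j < 0).Nonempty := by
      obtain ⟨i, hi⟩ := hn
      exact ⟨i, by simpa using hi⟩
    obtain ⟨i0, hi0, hmin0⟩ := exists_min_image _
      (fun i => (∑ j, A i j * y j - b i) / (-∑ j, A i j * d j)) hne
    simp only [mem_filter, mem_univ, true_and] at hi0 hmin0
    set t := (∑ j, A i0 j * y j - b i0) / (-∑ j, A i0 j * d j) with ht
    have ht0 : 0 ≤ t := div_nonneg (by linarith [hy i0]) (by linarith)
    have hlin : ∀ i, ∑ j, A i j * (y j + t * d j) = ∑ j, A i j * y j + t * ∑ j, A i j * d j := by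
      intro i
      rw [mul_sum, ← sum_add_distrib]
      exact sum_congr rfl fun j _ => by ring
    have hfeas : ∀ i, b i ≤ ∑ j, A i j * (y j + t * d j) := by
      intro i
      rw [hlin]
      by_cases h : ∑ j, A i j * d j < 0
      · have := hmin0 i h
        rw [le_div_iff₀ (by linarith)] at this
        linarith
      · have := mul_nonneg ht0 (not_lt.1 h)
        linarith [hy i]
    have hsub : S y ⊂ S (fun j => y j + t * d j) := by
      rw [ssubset_iff_of_subset]
      · refine ⟨i0, ?_, ?_⟩
        · simp only [S, mem_filter, mem_univ, true_and]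
          rw [hlin, ht]
          have : ∑ j, A i0 j * d j ≠ 0 := hi0.ne
          field_simp
          ring
        · simp only [S, mem_filter, mem_univ, true_and]
          intro h
          exact hi0.ne (hd i0 h)
      · intro i hi
        simp only [S, mem_filter, mem_univ, true_and] at hi ⊢
        rw [hlin, hd i hi, ← hi]
        ring
    have h1 := card_lt_card hsub
    have h2 := hmin _ hfeas
    have h3 : (S (fun j => y j + t * d j)).card ≤ Fintype.card m := card_le_univ _
    omega
  intro d hd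
  refine hker d fun i => le_antisymm ?_ (key d hd i)
  have := key (-d) (fun i hi => by
    have := hd i hi
    simp only [Pi.neg_apply, mul_neg, sum_neg_distrib, this, neg_zero]) i
  simp only [Pi.neg_apply, mul_neg, sum_neg_distrib] at this
  linarith

theorem small_solution {m n : Type} [Fintype m] [Fintype n] (A : m → n → ℤ) (b : m → ℤ) (K : ℤ)
    (hA : ∀ i j, |A i j| ≤ K) (hb : ∀ i, |b i| ≤ K)
    (hker : ∀ d : n → ℝ, (∀ i, ∑ j, (A i j : ℝ) * d j = 0) → d = 0)
    (x : n → ℝ) (hx : ∀ i, (b i : ℝ) ≤ ∑ j, (A i j : ℝ) * x j) :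
    ∃ (z : n → ℤ) (D : ℤ), 1 ≤ D ∧ (∀ i, D * b i ≤ ∑ j, A i j * z j) ∧
      ∀ j, |z j| ≤ (Fintype.card n).factorial * (Fintype.card m * K ^ 2) ^ Fintype.card n := by
  classical
  obtain ⟨y, hy, hd⟩ := exists_vertex (fun i j => (A i j : ℝ)) (fun i => (b i : ℝ)) hker x hx
  let S : Finset m := univ.filter fun i => (b i : ℝ) = ∑ j, (A i j : ℝ) * y j
  let M : Matrix n n ℤ := fun j k => ∑ i ∈ S, A i j * A i k
  let v : n → ℤ := fun j => ∑ i ∈ S, A i j * b i
  have hbound : ∀ (f g : m → ℤ), (∀ i, |f i| ≤ K) → (∀ i, |g i| ≤ K) →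
      |∑ i ∈ S, f i * g i| ≤ Fintype.card m * K ^ 2 := by
    intro f g hf hg
    calc |∑ i ∈ S, f i * g i| ≤ ∑ i ∈ S, |f i * g i| := abs_sum_le_sum_abs _ _
      _ ≤ ∑ i : m, |f i * g i| :=
        sum_le_sum_of_subset_of_nonneg (subset_univ _) fun _ _ _ => abs_nonneg _
      _ ≤ ∑ _i : m, K ^ 2 := sum_le_sum fun i _ => by
        rw [abs_mul, sq]
        exact mul_le_mul (hf i) (hg i) (abs_nonneg _) ((abs_nonneg _).trans (hf i))
      _ = _ := by simp
  let M' : Matrix n n ℝ := M.map (Int.castRingHom ℝ)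
  have hM' : ∀ d : n → ℝ, ∀ j, (M' *ᵥ d) j = ∑ i ∈ S, (A i j : ℝ) * ∑ k, (A i k : ℝ) * d k := by
    intro d j
    simp only [M', M, mulVec, dotProduct, map_apply, map_sum, map_mul, eq_intCast, sum_mul, mul_sum]
    rw [sum_comm]
    exact sum_congr rfl fun i _ => sum_congr rfl fun k _ => by ring
  have hdet : M.det ≠ 0 := by
    intro h0
    have h1 : M'.det = 0 := by
      have := (Int.castRingHom ℝ).map_det M
      rw [h0, map_zero] at this
      exact this.symm
    obtain ⟨d, hd0, hd1⟩ := exists_mulVec_eq_zero_iff.2 h1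
    refine hd0 (hd d fun i hi => ?_)
    have h2 : ∑ i ∈ S, (∑ k, (A i k : ℝ) * d k) ^ 2 = 0 := by
      have : ∑ j, d j * (M' *ᵥ d) j = 0 := by simp [hd1]
      rw [← this]
      simp only [hM', mul_sum]
      rw [sum_comm]
      refine sum_congr rfl fun i _ => ?_
      rw [sq, sum_mul]
      refine sum_congr rfl fun j _ => ?_
      rw [mul_sum]
      exact sum_congr rfl fun k _ => by ring
    have := (sum_eq_zero_iff_of_nonneg fun i _ => sq_nonneg _).1 h2 i (by simpa [S] using hi)
    exact pow_eq_zero_iff two_ne_zero |>.1 this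
  have hMy : M' *ᵥ y = fun j => (v j : ℝ) := by
    funext j
    rw [hM']
    simp only [v, Int.cast_sum, Int.cast_mul]
    refine sum_congr rfl fun i hi => ?_
    simp only [S, mem_filter, mem_univ, true_and] at hi
    rw [hi]
  have hcr : ∀ j, ((M.cramer v j : ℤ) : ℝ) = (M.det : ℝ) * y j := by
    have h1 : M' *ᵥ (fun j => ((M.cramer v j : ℤ) : ℝ)) = M' *ᵥ (fun j => (M.det : ℝ) * y j) := by
      have h2 := mulVec_cramer M v
      funext j
      have h3 := congrFun h2 j
      have h4 := congrFun hMy j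
      simp only [mulVec, dotProduct, M', map_apply, eq_intCast, Pi.smul_apply, smul_eq_mul] at h3 h4 ⊢
      have h5 : ∑ k, (M j k : ℝ) * ((M.det : ℝ) * y k) = (M.det : ℝ) * (v j : ℝ) := by
        rw [← h4, mul_sum]
        exact sum_congr rfl fun k _ => by ring
      rw [h5]
      exact_mod_cast h3
    have hdet' : M'.det ≠ 0 := by
      have := (Int.castRingHom ℝ).map_det M
      change _ = M'.det at this
      rw [← this]
      simpa using hdet
    have hinj : Function.Injective M'.mulVec := mulVec_injective_iff_isUnit.2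
      ((isUnit_iff_isUnit_det _).2 (Ne.isUnit hdet'))
    exact fun j => congrFun (hinj h1) j
  refine ⟨fun j => M.det.sign * M.cramer v j, |M.det|, Int.one_le_abs hdet, fun i => ?_, fun j => ?_⟩
  · have h1 : ∑ j, ((A i j * (M.det.sign * M.cramer v j) : ℤ) : ℝ)
        = ((|M.det| : ℤ) : ℝ) * ∑ j, (A i j : ℝ) * y j := by
      rw [mul_sum]
      refine sum_congr rfl fun j _ => ?_
      rw [← Int.sign_mul_self_eq_abs, Int.cast_mul, Int.cast_mul, Int.cast_mul, hcr]
      ring
    have h2 : ((|M.det| * b i : ℤ) : ℝ) ≤ ((∑ j, A i j * (M.det.sign * M.cramer v j) : ℤ) : ℝ) := by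
      rw [Int.cast_sum, h1, Int.cast_mul]
      exact mul_le_mul_of_nonneg_left (hy i) (by exact_mod_cast abs_nonneg _)
    exact_mod_cast h2
  · rw [abs_mul, Int.abs_sign_of_ne_zero hdet, one_mul, cramer_apply]
    have := det_le (A := M.updateCol j v) (abv := AbsoluteValue.abs)
      (x := Fintype.card m * K ^ 2) (fun a c => by
        rw [updateCol_apply]
        split_ifs
        · exact hbound _ _ (fun i => hA i a) hb
        · exact hbound _ _ (fun i => hA i a) (fun i => hA i c))
    simpa using this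

theorem pair_small {ι : Type} [Fintype ι] (x : ι → ℝ) :
    ∃ z : ι → ℤ, (∀ a b c d, z a + z b ≤ z c + z d ↔ x a + x b ≤ x c + x d) ∧
      ∀ a, |z a| ≤ (Fintype.card ι).factorial *
        ((Fintype.card ι ^ 4 + Fintype.card ι) * 2 ^ 2) ^ Fintype.card ι := by
  classical
  let f : ι × ι × ι × ι → ℝ := fun q => x q.1 + x q.2.1 - x q.2.2.1 - x q.2.2.2
  let t : ℝ := ∑ q, |1 / f q|
  have ht0 : 0 ≤ t := sum_nonneg fun _ _ => abs_nonneg _
  have ht : ∀ q, 0 < f q → 1 ≤ t * f q := by
    intro q hq
    have h1 : |1 / f q| ≤ t := single_le_sum (f := fun q => |1 / f q|)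
      (fun _ _ => abs_nonneg _) (mem_univ q)
    rw [abs_of_pos (by positivity), div_le_iff₀ hq] at h1
    exact h1
  let s : ℝ := ∑ a, |x a|
  have hs : ∀ a, 0 ≤ x a + s := fun a => by
    have h1 : |x a| ≤ s := single_le_sum (f := fun a => |x a|) (fun _ _ => abs_nonneg _) (mem_univ a)
    linarith [neg_abs_le (x a)]
  let e : ι → ι → ℤ := fun a j => if a = j then 1 else 0
  let A : (ι × ι × ι × ι) ⊕ ι → ι → ℤ := Sum.elim (fun q j => if 0 ≤ f q then
    e q.1 j + e q.2.1 j - e q.2.2.1 j - e q.2.2.2 j else 0) e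
  let b : (ι × ι × ι × ι) ⊕ ι → ℤ := Sum.elim (fun q => if 0 < f q then 1 else 0) (fun _ => 0)
  have he : ∀ a (y : ι → ℝ), ∑ j, (e a j : ℝ) * y j = y a := by
    intro a y
    simp [e]
  have heZ : ∀ a (y : ι → ℤ), ∑ j, e a j * y j = y a := by
    intro a y
    simp [e]
  obtain ⟨z, D, hD, hz, hb⟩ := small_solution A b 2 (by
      rintro (q | a) j
      · simp only [A, Sum.elim_inl, e]
        split_ifs <;> norm_num
      · simp only [A, Sum.elim_inr, e]
        split_ifs <;> norm_num) (by
      rintro (q | a)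
      · simp only [b, Sum.elim_inl]
        split_ifs <;> norm_num
      · simp [b]) (fun d hd => funext fun a => by
      have := hd (Sum.inr a)
      simp only [A, Sum.elim_inr] at this
      rwa [he] at this) (fun a => t * (x a + s)) (by
      rintro (q | a)
      · simp only [A, b, Sum.elim_inl]
        by_cases h : 0 ≤ f q
        · simp only [h, if_true]
          push_cast
          simp only [sub_mul, add_mul, sum_sub_distrib, sum_add_distrib, he]
          have h2 : t * (x q.1 + s) + t * (x q.2.1 + s) - t * (x q.2.2.1 + s) - t * (x q.2.2.2 + s)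
              = t * f q := by simp only [f]; ring
          rw [h2]
          split_ifs with h3
          · exact ht q h3
          · exact mul_nonneg ht0 h
        · have h3 : ¬ 0 < f q := fun h3 => h h3.le
          simp [h, h3]
      · simp only [A, b, Sum.elim_inr]
        rw [he]
        simpa using mul_nonneg ht0 (hs a))
  have key : ∀ q, 0 ≤ f q → (if 0 < f q then D else 0) ≤
      z q.1 + z q.2.1 - z q.2.2.1 - z q.2.2.2 := by
    intro q h
    have := hz (Sum.inl q)
    simp only [A, b, Sum.elim_inl, h, if_true, sub_mul, add_mul, sum_sub_distrib, sum_add_distrib,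
      heZ] at this
    split_ifs at this ⊢ <;> linarith
  refine ⟨z, fun a b c d => ⟨fun h => ?_, fun h => ?_⟩, fun a => ?_⟩
  · by_contra hn
    have h1 : 0 < f (a, b, c, d) := by simp only [f]; linarith
    have := key _ h1.le
    simp only [h1, if_true] at this
    linarith
  · have h1 : 0 ≤ f (c, d, a, b) := by simp only [f]; linarith
    have := key _ h1
    split_ifs at this <;> simp only at this <;> linarith
  · have := hb a
    simp only [Fintype.card_sum, Fintype.card_prod] at this
    refine this.trans (le_of_eq ?_)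
    push_cast
    ring

end Pool.Agent.Lib.MP_7285af_lc
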