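import Pool.Agent.Lib.MP_7285af_lc.Hard
import Pool.Agent.Lib.MP_7285af_lc.Small

/-! All classes are in NP. -/

namespace Pool.Agent.Lib.MP_7285af_lc

open Pool.Agent.Lib.Complexity N487b59b3 N68a2faeb N793a5b8e

abbrev Q4 := ℤ × ℤ × ℤ × ℤ

/-- the conditions on a pair of vertices with integer data -/
def Good (a b t : ℕ) (e : Bool) (u v : Q4) : Prop :=
  (u.1 ≤ u.2.2.1 ∧ u.2.2.1 ≤ u.2.1 ∧ u.1 ≤ u.2.2.2 ∧ u.2.2.2 ≤ u.2.1) ∧
  (e = decide (u.1 ≤ v.2.2.2 ∧ v.2.2.1 ≤ u.2.1)) ∧
  (a ≠ 1 ∨ u.2.1 + v.1 = v.2.1 + u.1) ∧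
  (a ≠ 2 ∨ ¬ (v.1 ≤ u.1 ∧ u.2.1 ≤ v.2.1) ∨ (u.1 ≤ v.1 ∧ v.2.1 ≤ u.2.1)) ∧
  (b ≠ 1 ∨ u.2.2.1 = u.2.2.2) ∧ (b ≠ 2 ∨ u.2.2.1 ≤ u.2.2.2) ∧
  (t ≠ 1 ∨ u.2.2.1 + u.2.2.2 = u.2.1 + u.1)

instance (a b t : ℕ) (e : Bool) (u v : Q4) : Decidable (Good a b t e u v) := by
  unfold Good; infer_instance

theorem pt_good (a b t : ℕ) : PT fun x : Bool × Q4 × Q4 => decide (Good a b t x.1 x.2.1 x.2.2) := by
  unfold Good
  fun_prop

theorem inClass_of_good {a b t n : ℕ} {A : Fin n → Fin n → Bool} {w : Fin n → Q4}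
    (h : ∀ x y, Good a b t (A x y) (w x) (w y)) : InClass a b t A := by
  refine ⟨fun x => (w x).1, fun x => (w x).2.1, fun x => (w x).2.2.1, fun x => (w x).2.2.2,
    fun x => ?_, fun x y => ?_, fun e x y => ?_, fun e x y hxy => ?_, fun e x => ?_, fun e x => ?_,
    fun e x => ?_⟩ <;> beta_reduce
  · have := (h x x).1
    simp only [Set.mem_Icc, Int.cast_le]
    omega
  · rw [(h x y).2.1]
    simp
  · have := (h x y).2.2.1.resolve_left (by simp [e])
    have h2 : (w x).2.1 - (w x).1 = (w y).2.1 - (w y).1 := by omega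
    exact_mod_cast h2
  · have h0 := (h x x).1
    have h1 := (h x y).2.2.2.1.resolve_left (by simp [e])
    have h2 := (Set.Icc_subset_Icc_iff (by simp only [Int.cast_le]; omega)).1 hxy.1
    refine hxy.2 (Set.Icc_subset_Icc ?_ ?_) <;> simp only [Int.cast_le] at h2 ⊢ <;> omega
  · have := (h x x).2.2.2.2.1.resolve_left (by simp [e])
    exact_mod_cast this
  · have := (h x x).2.2.2.2.2.1.resolve_left (by simp [e])
    exact_mod_cast this
  · have := (h x x).2.2.2.2.2.2.resolve_left (by simp [e])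
    have h2 : (w x).2.2.1 - (w x).1 = (w x).2.1 - (w x).2.2.2 := by omega
    exact_mod_cast h2

theorem bound_pow (N : ℕ) : ((N.factorial * ((N ^ 4 + N) * 2 ^ 2) ^ N : ℕ)) <
    2 ^ (N * N + (N ^ 4 + N) * 4 * N + 1) := by
  have h1 : N.factorial ≤ 2 ^ (N * N) := (Nat.factorial_le_pow N).trans (by
    rw [pow_mul]; exact Nat.pow_le_pow_left Nat.lt_two_pow_self.le _)
  have h2 : ((N ^ 4 + N) * 2 ^ 2) ^ N ≤ 2 ^ ((N ^ 4 + N) * 4 * N) := by
    rw [pow_mul]; exact Nat.pow_le_pow_left Nat.lt_two_pow_self.le _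
  calc _ ≤ 2 ^ (N * N) * 2 ^ ((N ^ 4 + N) * 4 * N) := Nat.mul_le_mul h1 h2
    _ < _ := by rw [← pow_add]; exact Nat.pow_lt_pow_right (by norm_num) (by omega)

theorem good_of_inClass {a b t n : ℕ} {A : Fin n → Fin n → Bool} (h : InClass a b t A) :
    ∃ w : Fin n → Q4, (∀ x y, Good a b t (A x y) (w x) (w y)) ∧ ∀ x, sz (w x) ≤
      16 * (n * 4 * (n * 4) + ((n * 4) ^ 4 + n * 4) * 4 * (n * 4) + 1) + 7 := by
  obtain ⟨L, R, p, q, h1, h2, h3, h4, h5, h6, h7⟩ := h
  obtain ⟨z, hz, hb⟩ := pair_small (ι := Fin n × Fin 4) fun i => ![L i.1, R i.1, p i.1, q i.1] i.2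
  have le : ∀ i j, z i ≤ z j ↔ ![L i.1, R i.1, p i.1, q i.1] i.2 ≤
      ![L j.1, R j.1, p j.1, q j.1] j.2 := by
    intro i j
    have := hz i i j j
    constructor
    · intro h
      have := this.1 (by omega)
      linarith
    · intro h
      have := this.2 (by linarith)
      omega
  have eq : ∀ i j k l, ![L i.1, R i.1, p i.1, q i.1] i.2 + ![L j.1, R j.1, p j.1, q j.1] j.2 =
      ![L k.1, R k.1, p k.1, q k.1] k.2 + ![L l.1, R l.1, p l.1, q l.1] l.2 →
      z i + z j = z k + z l := fun i j k l h =>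
    le_antisymm ((hz i j k l).2 h.le) ((hz k l i j).2 h.ge)
  refine ⟨fun x => (z (x, 0), z (x, 1), z (x, 2), z (x, 3)), fun x y => ⟨?_, ?_, ?_, ?_, ?_, ?_, ?_⟩,
    fun x => ?_⟩
  · simp only [le]
    exact ⟨(h1 x).1.1, (h1 x).1.2, (h1 x).2.1, (h1 x).2.2⟩
  · rw [Bool.eq_iff_iff, h2, decide_eq_true_eq]
    simp only [le]
    rfl
  · refine or_iff_not_imp_left.2 fun e => eq _ _ _ _ ?_
    have := h3 (not_not.1 e) x y
    change R x + L y = R y + L x
    linarith
  · refine or_iff_not_imp_left.2 fun e => or_iff_not_imp_left.2 fun k => ?_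
    simp only [le, not_not] at k ⊢
    have k1 : Set.Icc (L x) (R x) ⊆ Set.Icc (L y) (R y) := Set.Icc_subset_Icc k.1 k.2
    have k2 : Set.Icc (L y) (R y) ⊆ Set.Icc (L x) (R x) := by
      by_contra hn
      exact h4 (not_not.1 e) x y ⟨k1, hn⟩
    exact (Set.Icc_subset_Icc_iff ((h1 y).1.1.trans (h1 y).1.2)).1 k2
  · refine or_iff_not_imp_left.2 fun e => le_antisymm ((le _ _).2 ?_) ((le _ _).2 ?_)
    · exact (h5 (not_not.1 e) x).le
    · exact (h5 (not_not.1 e) x).ge
  · exact or_iff_not_imp_left.2 fun e => (le _ _).2 (h6 (not_not.1 e) x)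
  · refine or_iff_not_imp_left.2 fun e => eq _ _ _ _ ?_
    have := h7 (not_not.1 e) x
    change p x + q x = R x + L x
    linarith
  · have k : ∀ i, sz (z i) ≤
        4 * (n * 4 * (n * 4) + ((n * 4) ^ 4 + n * 4) * 4 * (n * 4) + 1) + 1 := by
      intro i
      refine sz_int_le (lt_of_le_of_lt ?_ (bound_pow (n * 4)))
      have := hb i
      simp only [Fintype.card_prod, Fintype.card_fin] at this
      rw [Int.abs_eq_natAbs] at this
      exact_mod_cast this
    have k0 := k (x, 0)
    have k1 := k (x, 1)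
    have k2 := k (x, 2)
    have k3 := k (x, 3)
    simp only [sz_pair]
    omega

def check (a b t : ℕ) (M : List (List Bool)) (w : List Q4) : Bool :=
  M.all (fun r => decide (r.length = M.length)) && (List.range M.length).all fun x =>
    (List.range M.length).all fun y =>
      decide (Good a b t ((M.getD x []).getD y false) (w.getD x (0, 0, 0, 0)) (w.getD y (0, 0, 0, 0)))

theorem pt_check (a b t : ℕ) : PT fun x : List (List Bool) × List Q4 => check a b t x.1 x.2 := by
  unfold check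
  refine PT.and (by fun_prop) (PT.all (by fun_prop) (PT.all (by fun_prop) ?_))
  exact (pt_good a b t).comp (f := fun x : ((List (List Bool) × List Q4) × ℕ) × ℕ =>
    ((x.1.1.1.getD x.1.2 []).getD x.2 false, x.1.1.2.getD x.1.2 (0, 0, 0, 0),
      x.1.1.2.getD x.2 (0, 0, 0, 0))) (by fun_prop)

theorem length_le_enc (M : List (List Bool)) : M.length ≤ (bitEncode M).length := by
  have := length_le_length_flatten_delimit (M.map bitEncode)
  rw [List.length_map] at this
  exact this

theorem lang_mem_NP (a b t : ℕ) : lang a b t ∈ NP := by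
  refine mem_NP_of_rd (W := List (List Bool) × List Q4)
    (R := fun x => decide (x.1 = bitEncode x.2.1) && check a b t x.2.1 x.2.2) ?_
    (Polynomial.X * (2 * Polynomial.X + 1) + Polynomial.X * (16 * (Polynomial.X * 4 *
      (Polynomial.X * 4) + ((Polynomial.X * 4) ^ 4 + Polynomial.X * 4) * 4 * (Polynomial.X * 4) + 1)
      + 7 + 1) + 1) ?_ ?_
  · refine PT.and (PT.dec_eq (by fun_prop) ?_) ((pt_check a b t).comp (by fun_prop))
    exact (PT.encode (List (List Bool)) (f := fun x : Str × List (List Bool) × List Q4 => x.2.1)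
      (by fun_prop)).of_eq fun x => by rw [down_mat]
  · rintro s ⟨M, w⟩ h
    simp only [check, Bool.and_eq_true, decide_eq_true_eq, List.all_eq_true, List.mem_range] at h
    obtain ⟨rfl, h1, h2⟩ := h
    have e : M = mat fun x y : Fin M.length => (M.getD x []).getD y false := by
      apply List.ext_getElem (by simp [mat])
      intro i k1 k2
      have := h1 _ (List.getElem_mem k1)
      apply List.ext_getElem (by simp [mat, this])
      intro j k3 k4
      simp [mat, k3]
    rw [e, lang_mat]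
    exact inClass_of_good (w := fun x => w.getD x (0, 0, 0, 0)) fun x y => h2 x x.2 y y.2
  · intro s hs
    simp only [lang, decide_eq_true_eq] at hs
    obtain ⟨n, A, rfl, h⟩ := hs
    change ∃ w, sz w ≤ Polynomial.eval (bitEncode (mat A)).length _ ∧
      (decide (bitEncode (mat A) = _) && _) = true
    obtain ⟨w, hw, hb⟩ := good_of_inClass h
    have hn : n ≤ (bitEncode (mat A)).length := by
      have := length_le_enc (mat A)
      simpa [mat] using this
    refine ⟨(mat A, List.ofFn w), ?_, ?_⟩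
    · have h1 : sz (mat A) ≤ n * (2 * n + 1) := by
        have := sz_list_le (l := mat A) (B := 2 * n) (by
          intro r hr
          simp only [mat, List.mem_ofFn] at hr
          obtain ⟨x, rfl⟩ := hr
          have := PT.sz_str_le (List.ofFn fun y => A x y)
          simpa using this)
        simpa [mat] using this
      have h2 := sz_list_le (l := List.ofFn w) (fun u hu => by
        obtain ⟨x, rfl⟩ := List.mem_ofFn.1 hu
        exact hb x)
      rw [List.length_ofFn] at h2
      refine le_trans ?_ (peval_mono _ hn)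
      simp only [sz_pair, Polynomial.eval_add, Polynomial.eval_mul, Polynomial.eval_X,
        Polynomial.eval_pow, Polynomial.eval_ofNat, Polynomial.eval_one]
      omega
    · simp only [check, Bool.and_eq_true, decide_eq_true_eq, List.all_eq_true, List.mem_range,
        true_and]
      refine ⟨fun r hr => ?_, fun x hx y hy => ?_⟩
      · simp only [mat, List.mem_ofFn] at hr
        obtain ⟨x, rfl⟩ := hr
        simp [mat]
      · simp only [mat, List.length_ofFn] at hx hy
        have := hw ⟨x, hx⟩ ⟨y, hy⟩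
        simpa [mat, hx, hy] using this

end Pool.Agent.Lib.MP_7285af_lc
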