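import Pool.Agent.Lib.MP_7285af_lc.Unit
import Pool.Agent.Lib.MP_7285af_lc.InNP

/-! Proper totally bounded tolerance digraphs: the modules are oriented greedily. -/

noncomputable section

namespace Pool.Agent.Lib.MP_7285af_lc

open Relation Classical

variable {V : Type} {A : V → V → Prop} {χ χ' χ0 : V → V → Bool} {z : V} {μ μ' : ℝ}

/-- a module together with the vertices to its left -/
def Uu (A : V → V → Prop) (χ0 : V → V → Bool) (z v : V) : Prop := A z v ∨ χ0 z v = false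

def Pre (A : V → V → Prop) (χ0 : V → V → Bool) (z : V) (χ : V → V → Bool) (μ : ℝ) : Prop :=
  ∃ (σ : Rp V) (α γ : ℝ), ((σ.comap Subtype.val).Ok 2 2 1 (fun x y : {v // Uu A χ0 z v} => A x y)
      (fun x y => χ x y) ∧ (σ.comap Subtype.val).St 2 2 (fun x y : {v // Uu A χ0 z v} => A x y)
      fun x y => χ x y) ∧ α < γ ∧ (∀ v, Nn A z v → σ.q v < α) ∧ (∀ v, Uu A χ0 z v → σ.R v < γ) ∧
    ∀ w y m, ¬Uu A χ0 z w → A z y → A z m → ¬A y m → χ y m = false → α + μ * (γ - α) < σ.R y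

theorem Pre.mono (h : Pre A χ0 z χ μ) (e : μ' ≤ μ) : Pre A χ0 z χ μ' :=
  let ⟨σ, α, γ, h1, h2, h3, h4, h5⟩ := h
  ⟨σ, α, γ, h1, h2, h3, h4, fun w y m a b c d f => by nlinarith [h5 w y m a b c d f]⟩

theorem Pre.congr (h : Pre A χ0 z χ μ)
    (e : ∀ x y, Uu A χ0 z x → Uu A χ0 z y → ¬A x y → χ' x y = χ x y) : Pre A χ0 z χ' μ :=
  let ⟨σ, α, γ, ⟨h1, s⟩, h2, h3, h4, h5⟩ := h
  ⟨σ, α, γ, ⟨h1.congr fun x y => e _ _ x.2 y.2, { s with
      pl := fun k x y m n c => s.pl k x y m n (e _ _ x.2 m.2 n ▸ c)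
      pr := fun k x y m n c => s.pr k x y m n (e _ _ x.2 m.2 n ▸ c) }⟩, h2, h3, h4,
    fun w y m a b c d f => h5 w y m a b c d (e y m (.inl b) (.inl c) d ▸ f)⟩

variable [Finite V]

theorem glue {ρ σ : Rp V} {U : V → Prop} {α γ τ : ℝ} (hm : Md A z) (h : ρ.Ok 2 2 1 A χ)
    (hU : ∀ v, U v ↔ Uu A χ z v)
    (g : (σ.comap Subtype.val).Ok 2 2 1 (fun x y : {v // U v} => A x y) fun x y => χ' x y)
    (hl : ∀ s, U s → ¬A z s → χ' z s = false) (t1 : α < γ) (t2 : α ≤ τ)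
    (g1 : ∀ v, Nn A z v → σ.q v < α) (g2 : ∀ v, U v → σ.R v < γ)
    (g3 : ∀ y m, A z y → A z m → ¬A y m → χ' y m = false → τ < σ.R y)
    (h1 : ∀ w, ¬U w → α ≤ ρ.L w ∧ γ ≤ ρ.p w) (h2 : ∀ m, A z m → ρ.R m < γ)
    (h3 : ∀ w m, ¬U w → A z m → A w m → ρ.L w ≤ τ) :
    Rep 2 2 1 A fun x y => if U x ∧ U y then χ' x y else χ x y := by
  have mu : ∀ {v}, A z v → U v := fun e => (hU _).2 (.inl e)
  have lp : ∀ {v}, U v → σ.L v ≤ σ.p v := fun e => g.lp ⟨_, e⟩
  have pq : ∀ {v}, U v → σ.p v ≤ σ.q v := fun e => g.pq ⟨_, e⟩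
  have qr : ∀ {v}, U v → σ.q v ≤ σ.R v := fun e => g.qr ⟨_, e⟩
  have ar : ∀ {x y}, U x → U y → A x y → σ.L x ≤ σ.q y ∧ σ.p y ≤ σ.R x := fun e e' =>
    g.arc ⟨_, e⟩ ⟨_, e'⟩
  have lf : ∀ {s m}, U s → ¬A z s → A z m → σ.q s < σ.L m ∧ (¬A s m → σ.R s < σ.p m) :=
    fun e n e' => id (g.lf (z := ⟨z, mu (h.refl z)⟩) (m := ⟨_, mu e'⟩) (s := ⟨_, e⟩) e' n
      (hm.out e' n) (hl _ e n) :)
  have sp : ∀ {u w}, U u → ¬U w → ρ.R u < ρ.p w ∧ (A w u → A z u ∧ ¬Nn A z u) := fun {u w} e n => by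
    obtain ⟨n1, n2⟩ := not_or.1 (mt (hU w).2 n)
    by_cases k : A z u
    · exact ⟨(h.rt k n1 (hm.out k n1) (by simpa using n2)).1, fun j => ⟨k, fun i => i.2 w n1 j⟩⟩
    · have := h.sep hm k (((hU u).1 e).resolve_left k) n1 (by simpa using n2)
      exact ⟨this.1, fun j => absurd j (h.of_gt this.2).1⟩
  obtain ⟨x0, y0, d1, d2, d3⟩ := hm.1
  obtain ⟨u1, a1, P1⟩ := ex_min σ.p (hm.nn d1 d2 d3).1
  obtain ⟨u2, a2, Q1⟩ := ex_max σ.q a1
  have k1 : σ.p u1 ≤ σ.q u2 := (pq (mu a1.1)).trans (Q1 _ a1)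
  have k2 := g1 _ a2
  have k3 : ∀ {s}, U s → ¬A z s → σ.R s < σ.p u1 := fun e n => (lf e n a1.1).2 (a1.2 _ n)
  obtain ⟨π, o1, o2, o3⟩ : ∃ π : Rp V,
      (∀ v, ¬U v → π.L v = ρ.L v ∧ π.R v = ρ.R v ∧ π.p v = ρ.p v ∧ π.q v = ρ.q v) ∧
      (∀ v, U v → (A z v → Nn A z v) →
        π.L v = σ.L v ∧ π.R v = σ.R v ∧ π.p v = σ.p v ∧ π.q v = σ.q v) ∧
      ∀ v, A z v → ¬Nn A z v → π.L v = min (σ.p v) (max (σ.L v) (σ.p u1)) ∧
        π.R v = max (σ.q u2) (min (ρ.q v) τ) ∧ π.p v = π.L v ∧ π.q v = π.R v := by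
    let f := fun (a b c : V → ℝ) v => if U v then if A z v → Nn A z v then b v else c v else a v
    refine ⟨⟨f ρ.L σ.L fun v => min (σ.p v) (max (σ.L v) (σ.p u1)),
      f ρ.R σ.R fun v => max (σ.q u2) (min (ρ.q v) τ),
      f ρ.p σ.p fun v => min (σ.p v) (max (σ.L v) (σ.p u1)),
      f ρ.q σ.q fun v => max (σ.q u2) (min (ρ.q v) τ)⟩, fun v e => by simp [f, e],
      fun v e e' => by simp only [f, if_pos e, if_pos e', and_self], fun v e e' => by
        simp [f, mu e, e, e']⟩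
  have oz : ∀ v, A z v → ¬Nn A z v → σ.L v ≤ π.L v ∧ π.L v ≤ σ.p v ∧ σ.q u2 ≤ π.R v ∧ π.R v < γ ∧
      ∀ u, Nn A z u → π.L v ≤ σ.q u := fun v e n => by
    obtain ⟨i1, i2, -⟩ := o3 v e n
    rw [i1, i2]
    exact ⟨le_min (lp (mu e)) (le_max_left _ _), min_le_left _ _, le_max_left _ _,
      max_lt (k2.trans t1) ((min_le_left _ _).trans_lt ((h.qr v).trans_lt (h2 v e))),
      fun u k => (min_le_right _ _).trans (max_le (ar (mu e) (mu k.1) (hm.uni e k.1 n).1).1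
        ((P1 u k).trans (pq (mu k.1))))⟩
  have cs : ∀ {v}, U v → (A z v → Nn A z v) ∨ (A z v ∧ ¬Nn A z v) := fun _ => by tauto
  have k4 : ∀ {v}, U v → (A z v → Nn A z v) → σ.q v ≤ σ.q u2 := fun {v} e k => by
    by_cases j : A z v
    exacts [Q1 v (k j), by linarith [k3 e j, qr e]]
  have ou : ∀ {v}, U v → σ.L v ≤ π.L v ∧ π.L v ≤ σ.q u2 ∧ π.R v < γ := fun {v} e => by
    rcases cs e with k | ⟨k, k'⟩
    · obtain ⟨i1, i2, -⟩ := o2 v e k
      exact ⟨i1.ge, by linarith [k4 e k, lp e, pq e], i2 ▸ g2 v e⟩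
    · obtain ⟨i1, -, -, i2, i3⟩ := oz v k k'
      exact ⟨i1, i3 _ a2, i2⟩
  have nz : ∀ {x y}, U x → U y → σ.R x < σ.p y → A z x → Nn A z x := fun {x y} ex ey k e =>
    by_contra fun n => by
      by_cases j : A z y
      · exact k.not_ge (ar ex ey (hm.uni e j n).1).2
      · linarith [(lf ey j e).1, pq ey, lp ex, pq ex, qr ex]
  have nm : ∀ {x y}, U x → U y → σ.q y < σ.L x → A z y → A z x := fun {x y} ex ey k e =>
    by_contra fun n => by linarith [(lf ex n e).1, lp ex, pq ex, lp ey, pq ey]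
  refine ⟨π, fun v => ?_, fun v => ?_, fun v => ?_, fun x y e => ?_, fun x y n c => ?_,
    fun x y n c => ?_, fun _ x y m n c e => ?_, fun _ x y m n c e => ?_, by omega, by omega,
    fun _ v => ?_⟩
  · by_cases e : U v
    · rcases cs e with k | ⟨k, k'⟩
      exacts [by linarith [o2 v e k, lp e], (o3 v k k').2.2.1.ge]
    · linarith [o1 v e, h.lp v]
  · by_cases e : U v
    · rcases cs e with k | ⟨k, k'⟩
      exacts [by linarith [o2 v e k, pq e], by linarith [o3 v k k', (oz v k k').2.2.1, (ou e).2.1]]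
    · linarith [o1 v e, h.pq v]
  · by_cases e : U v
    · rcases cs e with k | ⟨k, k'⟩
      exacts [by linarith [o2 v e k, qr e], (o3 v k k').2.2.2.le]
    · linarith [o1 v e, h.qr v]
  · by_cases ex : U x <;> by_cases ey : U y
    · obtain ⟨i1, i2⟩ := ar ex ey e
      rcases cs ey with k | ⟨k, k'⟩ <;> rcases cs ex with j | ⟨j, j'⟩
      · constructor <;> linarith [o2 x ex j, o2 y ey k]
      · have := k (hm.2.1 x y j e)
        constructor <;> linarith [o2 y ey k, (oz x j j').2.2.2.2 y this, (oz x j j').2.2.1,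
          Q1 y this, pq ey]
      · constructor <;> linarith [o2 x ex j, o3 y k k', (oz y k k').2.1, (oz y k k').2.2.1, ou ex]
      · constructor <;> linarith [o3 y k k', (oz y k k').2.2.1, (oz x j j').2.2.1, ou ex, ou ey]
    · exact absurd e (h.of_lt (sp ex ey).1).1
    · obtain ⟨k, k'⟩ := (sp ey ex).2 e
      have := le_max_of_le_right (b := σ.q u2) (le_min (h.arc x y e).1 (h3 x y ex k e))
      constructor <;> linarith [o1 x ex, o3 y k k', ou ey, h1 x ex, h.lr x]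
    · constructor <;> linarith [o1 x ex, o1 y ey, h.arc x y e]
  · by_cases ex : U x <;> by_cases ey : U y <;> simp only [ex, ey, and_self, and_false, false_and,
      if_true, if_false] at c
    · have i : σ.R x < σ.p y := g.zl ⟨x, ex⟩ ⟨y, ey⟩ n c
      rw [(o2 x ex (nz ex ey i)).2.1]
      rcases cs ey with k | ⟨k, k'⟩
      · linarith [o2 y ey k]
      · rw [(o3 y k k').2.2.1, (o3 y k k').1]
        exact lt_min i (lt_max_of_lt_right (k3 ex fun j => n (hm.uni k j k').2))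
    · linarith [ou ex, o1 y ey, h1 y ey]
    · linarith [h.zl x y n c, (sp ey ex).1, h.pq x, h.qr x, h.pq y, h.qr y]
    · linarith [h.zl x y n c, o1 x ex, o1 y ey]
  · by_cases ex : U x <;> by_cases ey : U y <;> simp only [ex, ey, and_self, and_false, false_and,
      if_true, if_false] at c
    · have i : σ.q y < σ.L x := g.zr ⟨x, ex⟩ ⟨y, ey⟩ n c
      rcases cs ey with k | ⟨k, k'⟩
      · linarith [o2 y ey k, ou ex]
      · exact absurd (hm.uni k (nm ex ey i k) k').2 n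
    · linarith [h.zr x y n c, (sp ex ey).1, h.lr x, h.pq y]
    · rw [(o1 x ex).1]
      rcases cs ey with k | ⟨k, k'⟩
      · linarith [o2 y ey k, k4 ey k, h1 x ex]
      · rw [(o3 y k k').2.2.2, (o3 y k k').2.1]
        exact max_lt (k2.trans_le (h1 x ex).1) ((min_le_left _ _).trans_lt (h.zr x y n c))
    · linarith [h.zr x y n c, o1 x ex, o1 y ey]
  · by_cases ex : U x <;> by_cases ey : U y
    · have em : U m := by_contra fun j => (h.of_lt (sp ey j).1).1 e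
      rw [if_pos ⟨ex, em⟩] at c
      have i : σ.L x ≤ σ.L y := g.pl (by omega) ⟨x, ex⟩ ⟨y, ey⟩ ⟨m, em⟩ n c e
      linarith [o2 x ex (nz ex em (g.zl ⟨x, ex⟩ ⟨m, em⟩ n c)), ou ey]
    · linarith [ou ex, o1 y ey, h1 y ey]
    all_goals rw [if_neg fun j => ex j.1] at c
    · have em : U m := by_contra fun j => (h.of_lt (sp ey j).1).1 e
      linarith [h.zl x m n c, (sp em ex).1, h.pq x, h.qr x, h.pq m, h.qr m]
    · linarith [h.pl (by omega) x y m n c e, o1 x ex, o1 y ey]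
  · by_cases ex : U x
    · have em : U m := by_contra fun j => by
        rw [if_neg fun i => j i.2] at c
        linarith [h.zr x m n c, (sp ex j).1, h.lr x, h.pq m]
      rw [if_pos ⟨ex, em⟩] at c
      have i : σ.q m < σ.L x := g.zr ⟨x, ex⟩ ⟨m, em⟩ n c
      have ey : U y := by_contra fun j =>
        have k := (sp em j).2 e
        n (hm.uni k.1 (nm ex em i k.1) k.2).2
      have i' : σ.R y ≤ σ.R x := g.pr (by omega) ⟨x, ex⟩ ⟨y, ey⟩ ⟨m, em⟩ n c e
      rcases cs ey with k | ⟨k, k'⟩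
      · rcases cs ex with j | ⟨j, j'⟩
        · linarith [o2 x ex j, o2 y ey k]
        · have := k3 ey fun l => n (hm.uni j (hm.2.1 y m l e) j').1
          linarith [o2 y ey k, (oz x j j').2.2.1]
      · have l := hm.2.1 y m k e
        have l' := nm ex em i l
        have := g3 x m l' l n c
        rw [(o2 x ex fun _ => (hm.nn l' l n).1).2.1, (o3 y k k').2.1]
        exact max_le (by linarith) ((min_le_right _ _).trans this.le)
    · rw [if_neg fun j => ex j.1] at c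
      by_cases ey : U y
      · linarith [ou ey, o1 x ex, h1 x ex, h.pq x, h.qr x]
      · linarith [h.pr (by omega) x y m n c e, o1 x ex, o1 y ey]
  · by_cases e : U v
    · rcases cs e with k | ⟨k, k'⟩
      · have : σ.p v - σ.L v = σ.R v - σ.q v := g.tol rfl ⟨v, e⟩
        linarith [o2 v e k]
      · linarith [o3 v k k']
    · linarith [o1 v e, h.tol rfl v]

def KK (n : ℕ) : ℕ := n * 4 * (n * 4) + ((n * 4) ^ 4 + n * 4) * 4 * (n * 4) + 1 + 1

theorem ex_int {n : ℕ} (hn : Nat.card V ≤ n) (h : Rep 2 2 1 A χ) : ∃ ρ : Rp V, ρ.Ok 2 2 1 A χ ∧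
    ρ.St 2 2 A χ ∧ (∀ x y, ρ.L x < ρ.R y → ρ.L x + 1 ≤ ρ.R y) ∧
    ∀ x y, ρ.p x - ρ.L y ≤ 2 ^ KK n := by
  obtain ⟨ρ, h⟩ := h
  obtain ⟨ρ, h, s, -⟩ := h.strict
  have := Fintype.ofFinite V
  obtain ⟨X, hX⟩ : ∃ X : V × Fin 4 → ℝ, ∀ v,
      ρ.L v = X (v, 0) ∧ ρ.R v = X (v, 1) ∧ ρ.p v = X (v, 2) ∧ ρ.q v = X (v, 3) :=
    ⟨fun i => ![ρ.L i.1, ρ.R i.1, ρ.p i.1, ρ.q i.1] i.2, fun _ => ⟨rfl, rfl, rfl, rfl⟩⟩
  obtain ⟨z, hz, hb⟩ := pair_small X
  have lt : ∀ {i j}, X i < X j → (z i : ℝ) < z j := fun {i j} e => Int.cast_lt.2 (not_le.1 fun k => by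
    linarith [(hz j j i i).1 (by omega)])
  have st : Rp.St ⟨fun v => z (v, 0), fun v => z (v, 1), fun v => z (v, 2), fun v => z (v, 3)⟩
      2 2 A χ := ⟨fun v => lt (by linarith [s.lp v, hX v]), fun k v => lt (by linarith [s.pq k v, hX v]),
    fun v => lt (by linarith [s.qr v, hX v]), fun x y e =>
      ⟨lt (by linarith [s.arc x y e, hX x, hX y]), lt (by linarith [s.arc x y e, hX x, hX y])⟩,
    fun k x y m n c e => lt (by linarith [s.pl k x y m n c e, hX x, hX y]),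
    fun k x y m n c e => lt (by linarith [s.pr k x y m n c e, hX x, hX y])⟩
  refine ⟨_, ⟨fun v => (st.lp v).le, fun v => (st.pq (by omega) v).le, fun v => (st.qr v).le,
    fun x y e => (st.arc x y e).imp le_of_lt le_of_lt,
    fun x y n c => lt (by linarith [h.zl x y n c, hX x, hX y]),
    fun x y n c => lt (by linarith [h.zr x y n c, hX x, hX y]),
    fun k x y m n c e => (st.pl k x y m n c e).le, fun k x y m n c e => (st.pr k x y m n c e).le,
    by omega, by omega, fun k v => ?_⟩, st, fun x y e => ?_, fun x y => ?_⟩ <;> simp only at *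
  · have e1 := (hz (v, 2) (v, 3) (v, 0) (v, 1)).2 (by linarith [h.tol rfl v, hX v])
    have e2 := (hz (v, 0) (v, 1) (v, 2) (v, 3)).2 (by linarith [h.tol rfl v, hX v])
    exact_mod_cast (by omega : z (v, 2) - z (v, 0) = z (v, 1) - z (v, 3))
  · exact_mod_cast e
  · have b : ∀ i, |z i| < 2 ^ (KK n - 1) := fun i => by
      refine (hb i).trans_lt ?_
      rw [Fintype.card_prod, Fintype.card_fin, ← Nat.card_eq_fintype_card]
      exact_mod_cast (bound_pow _).trans_le (Nat.pow_le_pow_right two_pos (by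
        unfold KK; rw [add_tsub_cancel_right]; gcongr))
    have e : (2 : ℤ) ^ KK n = 2 ^ (KK n - 1) * 2 := pow_succ _ _
    have := abs_lt.1 (b (x, 2))
    have := abs_lt.1 (b (y, 0))
    exact_mod_cast (by omega : z (x, 2) - z (y, 0) ≤ 2 ^ KK n)

theorem exch {n : ℕ} (hn : Nat.card V ≤ n) (hc : Conn A) (hm : Md A z) (h : Rep 2 2 1 A χ)
    (ag : Ag A χ χ0) : ∃ j : ℕ, j ≤ 2 ^ KK n ∧ Pre A χ0 z χ (j / 2 ^ KK n) ∧ ∀ χ', Ag A χ' χ0 →
      Pre A χ0 z χ' (j / 2 ^ KK n) →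
      Rep 2 2 1 A fun x y => if Uu A χ0 z x ∧ Uu A χ0 z y then χ' x y else χ x y := by
  obtain ⟨ρ, h, s, i1, i2⟩ := ex_int hn h
  have c := h.comap (Subtype.val : {v // Uu A χ0 z v} → V)
  have c' : (ρ.comap Subtype.val).St 2 2 (fun x y : {v // Uu A χ0 z v} => A x y) fun x y => χ x y :=
    ⟨fun _ => s.lp _, fun k _ => s.pq k _, fun _ => s.qr _, fun _ _ => s.arc _ _,
      fun k _ _ _ => s.pl k _ _ _, fun k _ _ _ => s.pr k _ _ _⟩
  by_cases e : ∀ v, Uu A χ0 z v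
  · obtain ⟨K, -, hK⟩ := ex_bound ρ.R
    refine ⟨0, Nat.zero_le _, ⟨ρ, K, K + 1, ⟨c, c'⟩, by simp, fun v _ => (h.qr v).trans_lt (hK v),
      fun v _ => by linarith [hK v], fun w _ _ k => absurd (e w) k⟩, ?_⟩
    rintro χ' - ⟨σ, -, -, ⟨g, -⟩, -⟩
    exact ⟨_, (g.comap fun v => ⟨v, e v⟩).congr fun x y _ => if_pos ⟨e x, e y⟩⟩
  obtain ⟨w, e⟩ := not_forall.1 e
  have hU : ∀ v, Uu A χ0 z v ↔ Uu A χ z v := fun v => or_congr_right' fun k => by
    rw [(ag.out hm (h.refl z) k).1]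
  have rt : ∀ w m, ¬Uu A χ0 z w → A z m → ρ.R m < ρ.p w ∧ (¬A w m → ρ.q m < ρ.L w) := fun w m e k =>
    have j := not_or.1 (mt (hU w).2 e)
    h.rt k j.1 (hm.out k j.1) (by simpa using j.2)
  obtain ⟨w1, a1, l1⟩ := ex_min ρ.L (B := fun v => ¬Uu A χ0 z v) e
  obtain ⟨w2, a2, l2⟩ := ex_min ρ.p (B := fun v => ¬Uu A χ0 z v) e
  have d : 0 < ρ.p w2 - ρ.L w1 := sub_pos.2 ((l1 _ a2).trans_lt (s.lp _))
  have D : (0 : ℝ) < 2 ^ KK n := by positivity
  have T : ∀ w m, ¬Uu A χ0 z w → A z m → A w m →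
      ρ.L w ≤ ρ.L w1 + (2 ^ KK n : ℕ) / 2 ^ KK n * (ρ.p w2 - ρ.L w1) := fun w m e k k' => by
    rw [Nat.cast_pow, Nat.cast_two, div_self D.ne']
    linarith [(h.arc w m k').1, h.qr m, (rt _ m a2 k).1]
  have T' : ∃ j : ℕ, ∀ w m, ¬Uu A χ0 z w → A z m → A w m →
      ρ.L w ≤ ρ.L w1 + j / 2 ^ KK n * (ρ.p w2 - ρ.L w1) := ⟨_, T⟩
  refine ⟨Nat.find T', Nat.find_min' T' T, ⟨ρ, ρ.L w1, ρ.p w2, ⟨c, c'⟩, sub_pos.1 d,
    fun v k => (rt _ v a1 k.1).2 (k.2 _ fun j => a1 (.inl j)), fun v k => ?_,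
    fun _ y m _ k k' n' c => ?_⟩, ?_⟩
  · by_cases j : A z v
    · exact (rt _ v a2 j).1
    · have := not_or.1 (mt (hU _).2 a2)
      exact (h.sep hm j (((hU v).1 k).resolve_left j) this.1 (by simpa using this.2)).1
  · have Y : ∀ w u, ¬Uu A χ0 z w → A z u → A w u → ρ.L w < ρ.R y := fun w u e j j' =>
      (s.arc w u j').1.trans_le ((h.qr u).trans (h.pr (by omega) y u m n' c
        (hm.2.2 w u (fun i => e (.inl i)) j' j m k').1))
    rcases Nat.eq_zero_or_eq_succ_pred (Nat.find T') with j | j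
    · obtain ⟨x, u, b1, b2, b3, b4⟩ := h.cross hc hm (fun j => e (.inl j))
      have b5 : ¬Uu A χ0 z x := fun i => e ((hU w).2 (.inr (b2 ▸ ((hU x).1 i).resolve_left b1)))
      simpa [j] using (l1 x b5).trans_lt (Y x u b5 b3 b4)
    · have := Nat.find_min T' (m := (Nat.find T').pred) (by omega)
      push Not at this
      obtain ⟨w, u, b1, b2, b3, b4⟩ := this
      have b5 := (div_le_one D).2 (i2 w2 w1)
      rw [j, Nat.cast_succ, add_div, add_mul, one_div_mul_eq_div]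
      linarith [i1 _ _ (Y w u b1 b2 b3)]
  · rintro χ' ag' ⟨σ, α, γ, ⟨g, -⟩, t, g1, g2, g3⟩
    obtain ⟨θ, θ0, hθ⟩ : ∃ θ > 0, θ * (ρ.p w2 - ρ.L w1) = γ - α :=
      ⟨(γ - α) / (ρ.p w2 - ρ.L w1), div_pos (sub_pos.2 t) d, div_mul_cancel₀ _ d.ne'⟩
    refine glue hm (h.aff θ0 (α - θ * ρ.L w1)) hU g (fun s k k' => (ag'.out hm (h.refl z) k').1.trans
      (k.resolve_left k')) t (le_add_of_nonneg_right (mul_nonneg (by positivity) (sub_pos.2 t).le))
      g1 g2 (fun y m => g3 w y m e) (fun w k => ⟨?_, ?_⟩) (fun m k => ?_) fun w m k k' k'' => ?_ <;>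
      simp only
    · nlinarith [l1 w k]
    · nlinarith [l2 w k]
    · nlinarith [(rt _ m a2 k).1]
    · have := mul_le_mul_of_nonneg_left (Nat.find_spec T' w m k k' k'') θ0.le
      rw [← hθ]
      linarith

theorem dp {n : ℕ} (hn : Nat.card V ≤ n) (hc : Conn A) (r0 : Resp 2 A χ0) (h : Cls 2 2 1 A)
    {key : V → ℕ} (hk : ∀ z z', (∀ s, ¬A z' s ∧ χ0 z' s = false → ¬A z s ∧ χ0 z s = false) →
      ¬A z z' ∧ χ0 z z' = false → key z' < key z) {F : ℕ → V → Prop} (F0 : ∀ z, ¬F 0 z)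
    (hs : ∀ i z, F (i + 1) z → (Md A z ∧ key z = i) ∨ F i z)
    (hp : ∀ i, ((∀ z, Md A z → key z ≠ i) ∧ F (i + 1) = F i) ∨ ∃ z, (Md A z ∧ key z = i) ∧
      ∀ j : ℕ, j ≤ 2 ^ KK n → Pre A χ0 z (fl A (F i) χ0) (j / 2 ^ KK n) ∨
        Pre A χ0 z (fl A (fun z => (Md A z ∧ key z = i) ∨ F i z) χ0) (j / 2 ^ KK n) →
        Pre A χ0 z (fl A (F (i + 1)) χ0) (j / 2 ^ KK n)) {N : ℕ} (hN : ∀ z, key z < N) :
    Rep 2 2 1 A (fl A (F N) χ0) := by
  have hF : ∀ i z, F i z → Md A z ∧ key z < i := fun i => by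
    induction i with
    | zero => exact fun z e => absurd e (F0 z)
    | succ i ih =>
      exact fun z e => (hs i z e).elim (And.imp_right (by omega)) fun e => (ih z e).imp_right (by omega)
  have a0 : ∀ {F}, (∀ z, F z → Md A z) → Ag A (fl A F χ0) χ0 := Ag.fl fun _ _ _ _ => rfl
  obtain ⟨χ1, ⟨ρ, h1⟩, ag1⟩ := ex_ag hc (by omega) r0 h
  have r := h1.refl
  have e5 : ∀ {z z' x}, ¬A z x → ¬A z z' → A z' x → χ0 z z' = χ0 z x := fun n n' e =>
    r0.cn (.single ⟨n, n', .inr (.inr (.inl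
      ⟨le_rfl, rfl, ⟨_, e, r _⟩, rfl⟩))⟩ : Cn 2 A (_, _, _) (_, _, _)) rfl
  have ord : ∀ {z z' x}, Md A z → Md A z' → ¬A z x → χ0 z x = false → A z' x → key z' < key z :=
    fun {z z' x} m m' n c e => by
      have n' : ¬A z z' := fun j => m.out j n e
      have c' := (e5 n n' e).trans c
      refine hk z z' (fun s k => ?_) ⟨n', c'⟩
      have := h1.of_gt (x := z) (y := s) (by
        linarith [h1.zr _ _ k.1 ((ag1.out m' (r _) k.1).1.trans k.2), h1.lp z', h1.pq z',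
          h1.zr _ _ n' ((ag1.out m (r _) n').1.trans c')])
      exact ⟨this.1, (ag1.out m (r _) this.1).1.symm.trans this.2⟩
  have tri : ∀ {z z' x}, Md A z → Md A z' → key z' ≤ key z → A z' x → Uu A χ0 z x :=
    fun {z z' x} m m' k e => by_contra fun j => by
      obtain ⟨n, c⟩ := not_or.1 j
      have n' : ¬A z z' := fun j => m.out j n e
      have n2 : ¬A z' z := fun j => n (m.sub m' (r _) j e)
      exact (ord m' m n2 (r0.cn (opp (s := true) r (not_or.2 ⟨n', n2⟩))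
        ((e5 n n' e).trans (by simpa using c))) (r _)).not_ge k
  have I : ∀ i, ∃ χ, Rep 2 2 1 A χ ∧ Ag A χ χ0 ∧ ∀ z, Md A z → key z < i →
      ∀ x y, A z x → A z y → ¬A x y → fl A (F i) χ0 x y = χ x y := fun i => by
    induction i with
    | zero => exact ⟨χ1, ⟨ρ, h1⟩, ag1, by simp⟩
    | succ i ih =>
      obtain ⟨χ, h2, ag, ih⟩ := ih
      obtain ⟨c, e⟩ | ⟨z, ⟨m, rfl⟩, c⟩ := hp i
      · exact ⟨χ, h2, ag, fun z m k => e ▸ ih z m ((Nat.le_of_lt_succ k).lt_of_ne (c z m))⟩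
      obtain ⟨j, j1, j2, j3⟩ := exch hn hc m h2 ag
      refine ⟨_, j3 _ (a0 fun z e => (hF _ z e).1) (c j j1 ?_), fun x y n k => ?_,
        fun z' m' k x y e e' _ => (if_pos ⟨tri m m' (by omega) e, tri m m' (by omega) e'⟩).symm⟩
      swap
      · beta_reduce
        split_ifs
        exacts [a0 (fun z e => (hF _ z e).1) x y n k, ag x y n k]
      have o1 : ∀ x y, Uu A χ0 z x → Uu A χ0 z y → ¬A x y → ¬(A z x ∧ A z y) →
          fl A (F (key z)) χ0 x y = χ x y := fun x y ux uy n k => by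
        by_cases c : ∃ z, Md A z ∧ A z x ∧ A z y
        · obtain ⟨z', c1, c2, c3⟩ := c
          exact ih z' c1 ((not_and_or.1 k).elim (fun k => ord m c1 k (ux.resolve_left k) c2)
            fun k => ord m c1 k (uy.resolve_left k) c3) x y c2 c3 n
        · exact (a0 (fun z e => (hF _ z e).1) x y n c).trans (ag x y n c).symm
      by_cases d : ∀ x y, A z x → A z y → ¬A x y → fl A (F (key z)) χ0 x y = χ x y
      · exact .inl (j2.congr fun x y ux uy n => Classical.by_cases (fun k : _ ∧ _ => d x y k.1 k.2 n)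
          (o1 x y ux uy n))
      refine .inr (j2.congr fun x y ux uy n => Classical.by_cases (fun k : A z x ∧ A z y => ?_) fun k => ?_)
      · push Not at d
        obtain ⟨u, v, d1, d2, d3, d4⟩ := d
        obtain ⟨σ, h3⟩ := h2
        rw [Dis.all ⟨m, u, v, d1, d2, d3, fun e => d4 ((if_neg fun ⟨z', f, f1, f2⟩ =>
          d4 (ih z' (hF _ _ f).1 (hF _ _ f).2 u v f1 f2 d3)).trans e.symm)⟩ r
          (h3.resp (by omega) (by omega)) r0 k.1 k.2 n]
        exact if_pos ⟨z, .inl ⟨m, rfl⟩, k⟩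
      · refine Eq.trans (if_congr (exists_congr fun z' => ?_) rfl rfl) (o1 x y ux uy n k)
        refine ⟨fun ⟨f, f'⟩ => ⟨f.resolve_left fun f => k ?_, f'⟩, And.imp_left .inr⟩
        have : A z z' := by_contra fun i => (ord m f.1 i
          ((tri m f.1 f.2.le (r _)).resolve_left i) (r _)).ne f.2
        exact ⟨m.2.1 _ _ this f'.1, m.2.1 _ _ this f'.2⟩
  obtain ⟨χ, h2, ag, h3⟩ := I N
  refine h2.congr fun x y n => ?_
  by_cases c : ∃ z, Md A z ∧ A z x ∧ A z y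
  · obtain ⟨z, c1, c2, c3⟩ := c
    exact h3 z c1 (hN z) x y c2 c3 n
  · exact (a0 (fun z e => (hF N z e).1) x y n c).trans (ag x y n c).symm

end Pool.Agent.Lib.MP_7285af_lc
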