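import Pool.Agent.Lib.MP_7285af_lc.LPB
import Pool.Agent.Lib.MP_7285af_lc.Glue

/-! Closure, binary search, and the linear system of a coloured digraph. -/

namespace Pool.Agent.Lib.MP_7285af_lc

open Pool.Agent.Lib.Complexity Relation LP Function

section cl
variable {β W : Type} [DecidableEq β]

def clS (ns : List β) (r : β → β → Bool) (S : List β) : List β :=
  ns.filter fun m => S.any fun s => decide (s = m) || r s m

/-- the elements of `ns` which can be reached from `a` -/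
def cl (ns : List β) (r : β → β → Bool) (a : β) : List β := (clS ns r)^[ns.length] [a]

theorem mem_clS {ns S : List β} {r : β → β → Bool} {m : β} :
    m ∈ clS ns r S ↔ m ∈ ns ∧ ∃ s ∈ S, s = m ∨ r s m = true := by simp [clS]

theorem mem_cl {ns : List β} {r : β → β → Bool} {a m : β} (ha : a ∈ ns) :
    m ∈ cl ns r a ↔ ReflTransGen (fun s m => m ∈ ns ∧ r s m = true) a m := by
  have k : ∀ i, let S := (clS ns r)^[i] [a]
      (∀ m ∈ S, m ∈ ns ∧ ReflTransGen (fun s m => m ∈ ns ∧ r s m = true) a m) ∧ a ∈ S ∧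
      (i < S.toFinset.card ∨ ∀ s ∈ S, ∀ m ∈ ns, r s m = true → m ∈ S) := fun i => by
    induction i with
    | zero => simpa [ha] using ReflTransGen.refl
    | succ i ih =>
      rw [iterate_succ_apply']
      generalize (clS ns r)^[i] [a] = S at ih
      obtain ⟨h1, h2, h3⟩ := ih
      have s : ∀ m ∈ S, m ∈ clS ns r S := fun m e => mem_clS.2 ⟨(h1 m e).1, m, e, .inl rfl⟩
      refine ⟨fun m e => ?_, s a h2, ?_⟩
      · obtain ⟨e, s, e1, rfl | e2⟩ := mem_clS.1 e
        exacts [h1 _ e1, ⟨e, (h1 _ e1).2.tail ⟨e, e2⟩⟩]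
      by_cases c : ∀ s ∈ S, ∀ m ∈ ns, r s m = true → m ∈ S
      · refine .inr fun x e m e' j => s m (c x ?_ m e' j)
        obtain ⟨e, s, e1, rfl | e2⟩ := mem_clS.1 e
        exacts [e1, c s e1 x e e2]
      · refine .inl ((Nat.succ_le_of_lt (h3.resolve_right c)).trans_lt (Finset.card_lt_card
          ⟨by simpa [Finset.subset_iff] using s, fun e => c fun x e1 m e2 j => ?_⟩))
        simpa using e (List.mem_toFinset.2 (mem_clS.2 ⟨e2, x, e1, .inr j⟩))
  obtain ⟨h1, h2, h3⟩ := k ns.length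
  refine ⟨fun e => (h1 m e).2, fun e => ?_⟩
  induction e with
  | refl => exact h2
  | tail _ e ih =>
    exact h3.resolve_left (not_lt.2 ((Finset.card_le_card fun x e => List.mem_toFinset.2
      (h1 x (List.mem_toFinset.1 e)).1).trans ns.toFinset_card_le)) _ ih _ e.1 e.2

theorem mem_cl' {ns : List β} {r : β → β → Bool} {F : W → β} {R : W → W → Prop}
    (h1 : ∀ m, m ∈ ns ↔ ∃ w, F w = m) (h2 : ∀ x y, r (F x) (F y) = true ↔ R x y) (a : W) (m : β) :
    m ∈ cl ns r (F a) ↔ ∃ w : {w // ReflTransGen R a w}, F w = m := by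
  rw [mem_cl ((h1 _).2 ⟨a, rfl⟩)]
  refine ⟨fun e => ?_, fun ⟨⟨w, e⟩, e'⟩ => e' ▸ e.lift F fun x y j => ⟨(h1 _).2 ⟨y, rfl⟩, (h2 x y).2 j⟩⟩
  induction e with
  | refl => exact ⟨⟨a, .refl⟩, rfl⟩
  | tail _ e ih =>
    obtain ⟨w, rfl⟩ := ih
    obtain ⟨w', rfl⟩ := (h1 _).1 e.1
    exact ⟨⟨w', w.2.tail ((h2 _ _).1 e.2)⟩, rfl⟩

@[fun_prop] theorem pt_cl {α : Type} [Enc α] [Enc β] {ns : α → List β} {r : α → β → β → Bool}
    {a : α → β} (h1 : PT ns) (h2 : PT fun p : α × β × β => r p.1 p.2.1 p.2.2) (h3 : PT a) :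
    PT fun x => cl (ns x) (r x) (a x) := by
  refine PT.iterate (step := fun x => clS (ns x) (r x)) (by fun_prop) (by fun_prop) ?_
    (B := fun x => sz (ns x) + sz [a x]) (PT.pb_nat (by fun_prop)) fun x i _ => ?_
  · exact PT.filter (by fun_prop) (PT.any (by fun_prop) (PT.or (by fun_prop) (h2.comp
      (f := fun p : ((α × List β) × β) × β => (p.1.1.1, p.2, p.1.2)) (by fun_prop))))
  · cases i with
    | zero => simp
    | succ i =>
      rw [iterate_succ_apply']
      exact (sz_le_of_sublist List.filter_sublist).trans (Nat.le_add_right _ _)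

end cl

def bsS (P : ℤ → Bool) (c : ℤ) (k : ℕ) : ℤ := if P (c + 2 ^ k - 1) = true then c + 2 ^ k else c

/-- binary search -/
def bs (P : ℤ → Bool) (K : ℕ) : ℤ := (List.range K).reverse.foldl (bsS P) 0

theorem bs_spec {P : ℤ → Bool} (h : ∀ i j, i ≤ j → P j = true → P i = true) (K : ℕ) (c : ℤ) :
    let r := (List.range K).reverse.foldl (bsS P) c
    (r = c ∨ P (r - 1) = true) ∧ ∀ j, P j = true → j + 1 < c + 2 ^ K → j < r := by
  induction K generalizing c with
  | zero => exact ⟨.inl rfl, fun j _ e => by simpa using e⟩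
  | succ K ih =>
    rw [List.range_succ, List.reverse_append, List.reverse_singleton, List.singleton_append,
      List.foldl_cons]
    obtain ⟨h1, h2⟩ := ih (bsS P c K)
    unfold bsS at *
    split_ifs at * with e
    · exact ⟨.inr (h1.elim (fun k => by rwa [k]) id), fun j k k' => h2 j k (by omega)⟩
    · exact ⟨h1, fun j k _ => h2 j k (not_le.1 fun i => e (h _ j (by omega) k))⟩

theorem bs_le {P Q : ℤ → Bool} (hP : ∀ i j, i ≤ j → P j = true → P i = true)
    (hQ : ∀ i j, i ≤ j → Q j = true → Q i = true) {K : ℕ} {j : ℤ} (j0 : 0 ≤ j) (j1 : j + 1 < 2 ^ K)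
    (h : P j = true) (e : bs P K ≤ bs Q K) : Q j = true := by
  have := (bs_spec hP K 0).2 j h (by omega)
  unfold bs at e
  exact hQ j _ (by omega) ((bs_spec hQ K 0).1.resolve_left (by omega))

@[fun_prop] theorem pt_bs {α : Type} [Enc α] {P : α → ℤ → Bool} {K : α → ℕ}
    (h1 : PT fun p : α × ℤ => P p.1 p.2) (h2 : PT K) : PT fun x => bs (P x) (K x) := by
  have k : ∀ (P : ℤ → Bool) (K : ℕ) (l : List ℕ) (c : ℤ), (∀ k ∈ l, k < K) →
      (l.foldl (bsS P) c).natAbs ≤ c.natAbs + l.length * 2 ^ K := fun P K l => by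
    induction l with
    | nil => simp
    | cons k l ih =>
      intro c h
      refine (ih _ fun j e => h j (List.mem_cons_of_mem _ e)).trans ?_
      have : (2 : ℤ) ^ k ≤ (2 ^ K : ℕ) := by
        exact_mod_cast Nat.pow_le_pow_right two_pos (h k List.mem_cons_self).le
      have : (0 : ℤ) < 2 ^ k := by positivity
      rw [List.length_cons, Nat.succ_mul, bsS]
      split_ifs <;> omega
  refine PT.foldl (by fun_prop) (by fun_prop) ?_ (B := fun x => 4 * (K x + K x) + 1)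
    (PT.pb_nat (by fun_prop)) fun x i => sz_int_le ((k _ (K x) _ _ fun j e => by
      simpa using List.mem_of_mem_take e).trans_lt ?_)
  · exact PT.ite (PT.dec_true (h1.comp (f := fun p : α × ℤ × ℕ => (p.1, p.2.1 + 2 ^ p.2.2 - 1))
      (by fun_prop))) (by fun_prop) (by fun_prop)
  · rw [pow_add, Int.natAbs_zero, zero_add]
    exact Nat.mul_lt_mul_of_pos_right ((by simp : _ ≤ K x).trans_lt Nat.lt_two_pow_self) (by positivity)

abbrev Gr := List (List Bool) × List ℕ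

abbrev Fm := List (ℤ × ℕ)

def adj (G : Gr) (x y : ℕ) : Bool := (G.1.getD x []).getD y false

/-- `f` enumerates the vertices -/
structure Em {W : Type} (G : Gr) (f : W → ℕ) : Prop where
  inj : Injective f
  rng : ∀ n, n ∈ G.2 ↔ ∃ w, f w = n

abbrev gA {W : Type} (G : Gr) (f : W → ℕ) (x y : W) : Prop := adj G (f x) (f y) = true

def fL (a v : ℕ) : Fm := [(1, 4 * v + 4), (-1, if a = 1 then 0 else 4 * v + 5)]
def fR (a v : ℕ) : Fm := [(1, 4 * v + 4), (1, if a = 1 then 0 else 4 * v + 5)]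
def fp (b t v : ℕ) : Fm := [(1, if t = 1 then 4 * v + 4 else 4 * v + 6), (if b = 1 then 0 else -1, 4 * v + 7)]
def fq (b t v : ℕ) : Fm := [(1, if t = 1 then 4 * v + 4 else 4 * v + 6), (if b = 1 then 0 else 1, 4 * v + 7)]

def rp (a b t : ℕ) (X : ℕ → ℝ) : Rp ℕ :=
  ⟨fun v => val X (fL a v), fun v => val X (fR a v), fun v => val X (fp b t v), fun v => val X (fq b t v)⟩

def sc (c : ℤ) (e : Fm) : Fm := e.map fun p => (c * p.1, p.2)

/-- the conditional constraint `e < e'` -/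
def cr (c : Bool) (e e' : Fm) : List Fm := bif c then [e' ++ sc (-1) e] else []

def sys (a b t : ℕ) (G : Gr) (χ : ℕ → ℕ → Bool) : List Fm :=
  G.2.flatMap fun x => G.2.flatMap fun y => G.2.flatMap fun m =>
    cr true (fL a x) (fp b t x) ++ cr (decide (b ≠ 1)) (fp b t x) (fq b t x) ++
    cr true (fq b t x) (fR a x) ++ cr (adj G x y) (fL a x) (fq b t y) ++
    cr (adj G x y) (fp b t y) (fR a x) ++ cr (!adj G x y && χ x y) (fR a x) (fp b t y) ++
    cr (!adj G x y && !χ x y) (fq b t y) (fL a x) ++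
    cr (decide (a ≠ 3) && !adj G x m && χ x m && adj G y m) (fL a x) (fL a y) ++
    cr (decide (a ≠ 3) && !adj G x m && !χ x m && adj G y m) (fR a y) (fR a x)

theorem val_append (X : ℕ → ℝ) (e e' : Fm) : val X (e ++ e') = val X e + val X e' := by simp [val]

theorem val_sc (X : ℕ → ℝ) (c : ℤ) (e : Fm) : val X (sc c e) = c * val X e := by
  simp [val, sc, ← List.sum_map_mul_left, Function.comp_def, mul_assoc]

theorem cr_iff {X : ℕ → ℝ} {c : Bool} {e e' : Fm} :
    (∀ r ∈ cr c e e', 0 < val X r) ↔ (c = true → val X e < val X e') := by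
  cases c <;> simp [cr, val_append, val_sc]

section
variable {W : Type} {G : Gr} {f : W → ℕ} {a b t : ℕ}

theorem Em.all (E : Em G f) {P : ℕ → Prop} : (∀ n ∈ G.2, P n) ↔ ∀ w, P (f w) := by simp [E.rng]

theorem Em.ex (E : Em G f) {P : ℕ → Prop} : (∃ n ∈ G.2, P n) ↔ ∃ w, P (f w) := by simp [E.rng]

theorem sys_iff (E : Em G f) {χ : ℕ → ℕ → Bool} {χ' : W → W → Bool}
    (hχ : ∀ x y, χ (f x) (f y) = χ' x y) (X : ℕ → ℝ) : (∀ r ∈ sys a b t G χ, 0 < val X r) ↔
    ((rp a b t X).comap f).Ok a b t (gA G f) χ' ∧ ((rp a b t X).comap f).St a b (gA G f) χ' := by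
  simp only [sys, List.forall_mem_flatMap, List.forall_mem_append, cr_iff, E.all, hχ,
    Bool.and_eq_true, Bool.not_eq_true', decide_eq_true_eq, forall_const, and_imp, and_assoc,
    ← Bool.not_eq_true]
  constructor
  · intro h
    have s : ((rp a b t X).comap f).St a b (gA G f) χ' := ⟨fun v => (h v v v).1,
      fun k v => (h v v v).2.1 k, fun v => (h v v v).2.2.1,
      fun x y e => ⟨(h x y x).2.2.2.1 e, (h x y x).2.2.2.2.1 e⟩,
      fun k x y m => (h x y m).2.2.2.2.2.2.2.1 k,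
      fun k x y m n c => (h x y m).2.2.2.2.2.2.2.2 k n (by simp [c])⟩
    have pt : b = 1 → ∀ v, ((rp a b t X).comap f).p v = ((rp a b t X).comap f).q v := fun k v => by
      simp [rp, Rp.comap, fp, fq, k]
    exact ⟨⟨fun v => (s.lp v).le, fun v => (em (b = 1)).elim (fun k => (pt k v).le)
      fun k => (s.pq k v).le, fun v => (s.qr v).le, fun x y e => (s.arc x y e).imp le_of_lt le_of_lt,
      fun x y => (h x y x).2.2.2.2.2.1, fun x y n c => (h x y x).2.2.2.2.2.2.1 n (by simp [c]),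
      fun k x y m n c e => (s.pl k x y m n c e).le, fun k x y m n c e => (s.pr k x y m n c e).le,
      fun k x y => by simp [rp, Rp.comap, fL, fR, val, k], pt,
      fun k v => by by_cases b = 1 <;> simp [rp, Rp.comap, fL, fR, fp, fq, val, *] <;> ring⟩, s⟩
  · exact fun ⟨h, s⟩ x y m => ⟨s.lp x, fun k => s.pq k x, s.qr x, fun e => (s.arc x y e).1,
      fun e => (s.arc x y e).2, h.zl x y, fun n c => h.zr x y n (by simpa using c), fun k => s.pl k x y m,
      fun k n c => s.pr k x y m n (by simpa using c)⟩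

theorem rp_surj (hf : Injective f) {A : W → W → Prop} {χ : W → W → Bool} {ρ : Rp W}
    (h : ρ.Ok a b t A χ) (α γ : ℝ) : ∃ X, (rp a b t X).comap f = ρ ∧ X 1 = α ∧ X 2 = γ := by
  obtain ⟨r, hr⟩ : ∃ r, a = 1 → ∀ w, r = (ρ.R w - ρ.L w) / 2 := by
    rcases isEmpty_or_nonempty W with e | ⟨⟨w⟩⟩
    exacts [⟨0, fun _ w => e.elim w⟩, ⟨_, fun k v => congrArg (· / 2) (h.un k w v)⟩]
  let g : W × Fin 4 → ℕ := fun i => 4 * f i.1 + 4 + i.2
  have hg : Injective g := fun i j e => by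
    have := i.2.2
    have := j.2.2
    simp only [g] at e
    exact Prod.ext (hf (by omega)) (Fin.ext (by omega))
  obtain ⟨X, h1, h2⟩ : ∃ X : ℕ → ℝ, (∀ i, X (g i) = ![ρ.L i.1 + ρ.R i.1, ρ.R i.1 - ρ.L i.1,
      ρ.p i.1 + ρ.q i.1, ρ.q i.1 - ρ.p i.1] i.2 / 2) ∧ ∀ i : Fin 3, X i = ![r, α, γ] i :=
    ⟨extend g _ fun n => if h : n < 3 then ![r, α, γ] ⟨n, h⟩ else 0, hg.extend_apply _ _, fun i => by
      rw [extend_apply' _ _ _ fun ⟨j, e⟩ => by simp only [g] at e; omega, dif_pos i.2]⟩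
  have e0 : ∀ w, X (4 * f w + 4) = (ρ.L w + ρ.R w) / 2 := fun w => h1 (w, 0)
  have e1 : ∀ w, X (if a = 1 then 0 else 4 * f w + 5) = (ρ.R w - ρ.L w) / 2 := fun w => by
    split_ifs with k
    exacts [(h2 0).trans (hr k w), h1 (w, 1)]
  have e2 : ∀ w, X (if t = 1 then 4 * f w + 4 else 4 * f w + 6) = (ρ.p w + ρ.q w) / 2 := fun w => by
    split_ifs with k
    exacts [by linarith [e0 w, h.tol k w], h1 (w, 2)]
  have e3 : ∀ w, X (4 * f w + 7) = (ρ.q w - ρ.p w) / 2 := fun w => h1 (w, 3)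
  refine ⟨X, ?_, h2 1, h2 2⟩
  obtain ⟨L, R, p, q⟩ := ρ
  simp only [rp, Rp.comap, Rp.mk.injEq, funext_iff, comp, fL, fR, fp, fq, val, List.map, List.sum_cons,
    e0, e1, e2, e3]
  have := h.pt
  refine ⟨fun w => ?_, fun w => ?_, fun w => ?_, fun w => ?_⟩ <;> by_cases k : b = 1 <;>
    simp_all <;> ring

theorem lp_sys [Finite W] (E : Em G f) {χ : ℕ → ℕ → Bool} {χ' : W → W → Bool}
    (hχ : ∀ x y, χ (f x) (f y) = χ' x y) : lp (sys a b t G χ) = true ↔ Rep a b t (gA G f) χ' := by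
  rw [lp_iff]
  refine ⟨fun ⟨X, h⟩ => ⟨_, ((sys_iff E hχ X).1 h).1⟩, fun ⟨ρ, h⟩ => ?_⟩
  obtain ⟨ρ, h, s, -⟩ := h.strict
  obtain ⟨X, rfl, -⟩ := rp_surj E.inj h 0 0
  exact ⟨X, (sys_iff E hχ X).2 ⟨h, s⟩⟩

end

section
variable {α : Type} [Enc α] {G : α → Gr} {x y : α → ℕ} {e e' : α → Fm}

@[fun_prop] theorem pt_adj (h : PT G) (hx : PT x) (hy : PT y) : PT fun i => adj (G i) (x i) (y i) := by
  unfold adj; fun_prop

@[fun_prop] theorem pt_fL (a : ℕ) (hx : PT x) : PT fun i => fL a (x i) := by unfold fL; fun_prop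
@[fun_prop] theorem pt_fR (a : ℕ) (hx : PT x) : PT fun i => fR a (x i) := by unfold fR; fun_prop
@[fun_prop] theorem pt_fp (b t : ℕ) (hx : PT x) : PT fun i => fp b t (x i) := by unfold fp; fun_prop
@[fun_prop] theorem pt_fq (b t : ℕ) (hx : PT x) : PT fun i => fq b t (x i) := by unfold fq; fun_prop

@[fun_prop] theorem pt_sc {c : α → ℤ} (hc : PT c) (h : PT e) : PT fun i => sc (c i) (e i) := by
  unfold sc; fun_prop

@[fun_prop] theorem pt_cr {c : α → Bool} (hc : PT c) (h : PT e) (h' : PT e') :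
    PT fun i => cr (c i) (e i) (e' i) := by
  unfold cr; fun_prop

@[fun_prop] theorem pt_sys (a b t : ℕ) {χ : α → ℕ → ℕ → Bool} (h : PT G)
    (h' : PT fun p : α × ℕ × ℕ => χ p.1 p.2.1 p.2.2) : PT fun i => sys a b t (G i) (χ i) := by
  have h1 : PT fun p : ((α × ℕ) × ℕ) × ℕ => χ p.1.1.1 p.1.1.2 p.1.2 :=
    h'.comp (f := fun p : ((α × ℕ) × ℕ) × ℕ => (p.1.1.1, p.1.1.2, p.1.2)) (by fun_prop)
  have h2 : PT fun p : ((α × ℕ) × ℕ) × ℕ => χ p.1.1.1 p.1.1.2 p.2 :=
    h'.comp (f := fun p : ((α × ℕ) × ℕ) × ℕ => (p.1.1.1, p.1.1.2, p.2)) (by fun_prop)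
  unfold sys
  refine PT.flatMap (by fun_prop) (PT.flatMap (by fun_prop) (PT.flatMap (by fun_prop) ?_))
  fun_prop

end

end Pool.Agent.Lib.MP_7285af_lc
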