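import Pool.Agent.Lib.MP_7285af_lc.LnkA

/-! Totally bounded bitolerance digraphs: balanced forcing is sufficient. -/

noncomputable section

namespace Pool.Agent.Lib.MP_7285af_lc

open Finset Classical

variable {V : Type} {A : V → V → Prop} {χ : V → V → Bool}

theorem nested (r : ∀ v, A v v) (h : Resp 3 A χ) (s : Bool) (tr : ∀ b c m, ¬A b m → ¬A c m →
    χ b m = s → χ c m = !s → ¬Adj A b c ∧ χ b c = s) {x y v : V} (h1 : ¬A x y ∧ χ x y = s)
    (h2 : ¬(¬A x v ∧ χ x v = s)) (u : V) (h3 : ¬A u v ∧ χ u v = s) : ¬A u y ∧ χ u y = s := by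
  by_contra h4
  have o : ∀ {a b c d}, A a d → A c b → ¬A a b → ¬A c d → χ a b = s → χ c d ≠ s :=
    fun e e' n n' c => Bool.eq_not.1 (h.cn (e3 e e' n n') c)
  by_cases e : A x v <;> by_cases e' : A u y
  · exact o e e' h1.1 h3.1 h1.2 h3.2
  · obtain ⟨k1, k2⟩ := tr x u y h1.1 e' h1.2 (Bool.eq_not.2 fun c => h4 ⟨e', c⟩)
    exact o (r u) e h3.1 (fun e => k1 (.inl e)) h3.2 k2
  · obtain ⟨k1, k2⟩ := tr u x v h3.1 e h3.2 (Bool.eq_not.2 fun c => h2 ⟨e, c⟩)
    exact o (r x) e' h1.1 (fun e => k1 (.inl e)) h1.2 k2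
  · obtain ⟨k1, k2⟩ := tr x u y h1.1 e' h1.2 (Bool.eq_not.2 fun c => h4 ⟨e', c⟩)
    exact o (r x) (r u) (fun e => k1 (.inl e)) (fun e => k1 (.inr e)) k2
      (tr u x v h3.1 e h3.2 (Bool.eq_not.2 fun c => h2 ⟨e, c⟩)).2

theorem rep_of_tr [Fintype V] (r : ∀ v, A v v) (h : Resp 3 A χ) (tr : ∀ b c m, ¬A b m → ¬A c m →
    χ b m = true → χ c m = false → ¬Adj A b c ∧ χ b c = true) : Rep 3 2 2 A χ := by
  obtain ⟨Z, hZ⟩ : ∃ Z : Bool → V → Finset V, ∀ s y x, x ∈ Z s y ↔ ¬A x y ∧ χ x y = s :=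
    ⟨fun s y => univ.filter fun x => ¬A x y ∧ χ x y = s, by simp⟩
  have ne : ∀ s x y v, x ∈ Z s y → x ∉ Z s v → Z s v ⊂ Z s y := fun s x y v h1 h2 => by
    refine ⟨fun u hu => (hZ _ _ _).2 (nested r h s (fun b c m n n' e e' => ?_) ((hZ _ _ _).1 h1)
      (mt (hZ _ _ _).2 h2) u ((hZ _ _ _).1 hu)), fun e => h2 (e h1)⟩
    cases s
    · obtain ⟨k1, k2⟩ := tr c b m n' n e' e
      exact ⟨fun e => k1 e.symm, h.cn (opp r k1) k2⟩
    · exact tr b c m n n' e e'
  obtain ⟨n, hn⟩ : ∃ n, ∀ s y, #(Z s y) ≤ n := ⟨_, fun _ _ => card_le_univ _⟩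
  let l : V → ℕ := fun x => univ.sup fun y => if x ∈ Z false y then n - #(Z false y) + 1 else 0
  let lp : V → ℕ := fun y => univ.sup fun i : V × V => if Adj A i.1 i.2 ∧ i.2 ∈ Z true y then l i.1 else 0
  let P : V → ℕ := fun y => lp y * (n + 1) + #(Z true y)
  let Q : V → ℕ := fun y => (n - #(Z false y)) * (n + 1) + n
  let R : V → ℕ := fun u => univ.sup fun y =>
    max (if u ∈ Z true y then 0 else P y) (if Adj A y u then l y * (n + 1) else 0)
  have fa : ∀ x y, x ∉ Z false y → l x ≤ n - #(Z false y) := fun x y e => Finset.sup_le fun v _ => by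
    split_ifs with c
    · have := card_lt_card (ne _ x v y c e)
      have := hn false v
      omega
    · omega
  have fa' : ∀ x y, x ∉ Z false y → l x * (n + 1) ≤ Q y := fun x y e =>
    (Nat.mul_le_mul_right _ (fa x y e)).trans (Nat.le_add_right _ _)
  have fb : ∀ x y, x ∈ Z false y → Q y < l x * (n + 1) := fun x y e => by
    have : n - #(Z false y) + 1 ≤ l x := (if_pos e).ge.trans (le_sup (f := fun y =>
      if x ∈ Z false y then n - #(Z false y) + 1 else 0) (mem_univ y))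
    exact lt_of_lt_of_le (by simp [Q, add_mul]) (Nat.mul_le_mul_right _ this)
  have fc : ∀ y, P y ≤ Q y := fun y => add_le_add (Nat.mul_le_mul_right _ (Finset.sup_le fun i _ => by
    split_ifs with c
    · refine fa _ _ fun e => ?_
      rw [hZ] at c e
      simpa [c.2.2] using h.cn (e2 c.1 e.1 c.2.1) e.2
    · omega)) (hn _ _)
  have fd : ∀ u y, u ∈ Z true y → R u < P y := fun u y e => by
    have p : 0 < #(Z true y) := card_pos.2 ⟨u, e⟩
    refine (Finset.sup_lt_iff (p.trans_le (Nat.le_add_left _ _))).2 fun v _ => max_lt ?_ ?_ <;>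
      split_ifs with c
    · exact p.trans_le (Nat.le_add_left _ _)
    · refine add_lt_add_of_le_of_lt (Nat.mul_le_mul_right _ (Finset.sup_mono_fun fun i _ => ?_))
        (card_lt_card (ne _ u y v e c))
      split_ifs with c1 c2
      exacts [le_rfl, absurd ⟨c1.1, (ne _ u y v e c).1 c1.2⟩ c2, Nat.zero_le _, le_rfl]
    · exact lt_add_of_le_of_pos (Nat.mul_le_mul_right _ ((if_pos ⟨c, e⟩).ge.trans
        (le_sup (f := fun i : V × V => if Adj A i.1 i.2 ∧ i.2 ∈ Z true y then l i.1 else 0)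
          (mem_univ (v, u))))) p
    · exact p.trans_le (Nat.le_add_left _ _)
  have fe : ∀ u y, max (if u ∈ Z true y then 0 else P y) (if Adj A y u then l y * (n + 1) else 0) ≤
      R u := fun u y => le_sup (f := fun y => max (if u ∈ Z true y then 0 else P y)
        (if Adj A y u then l y * (n + 1) else 0)) (mem_univ y)
  have f1 : ∀ u y, A u y → P y ≤ R u := fun u y e =>
    (if_neg fun c => ((hZ _ _ _).1 c).1 e).ge.trans ((le_max_left _ _).trans (fe u y))
  have f2 : ∀ u y, Adj A y u → l y * (n + 1) ≤ R u := fun u y e =>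
    (if_pos e).ge.trans ((le_max_right _ _).trans (fe u y))
  have f3 : ∀ x y, A x y → l x * (n + 1) ≤ Q y := fun x y e =>
    fa' x y fun c => ((hZ _ _ _).1 c).1 e
  refine ⟨⟨fun v => (l v * (n + 1) : ℕ), fun v => R v, fun v => (max (P v) (l v * (n + 1)) : ℕ),
    fun v => (min (Q v) (R v) : ℕ)⟩, fun v => ?_, fun v => ?_, fun v => ?_, fun x y e => ⟨?_, ?_⟩,
    fun x y e c => ?_, fun x y e c => ?_, by simp, by simp, by simp, by simp, by simp⟩ <;>
    simp only [Nat.cast_le, Nat.cast_lt]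
  · exact le_max_right _ _
  · exact max_le (le_min (fc v) (f1 v v (r v))) (le_min (f3 v v (r v)) (f2 v v (.inl (r v))))
  · exact min_le_right _ _
  · exact le_min (f3 x y e) (f2 y x (.inl e))
  · exact max_le (f1 x y e) (f2 x y (.inr e))
  · exact (fd x y ((hZ _ _ _).2 ⟨e, c⟩)).trans_le (le_max_left _ _)
  · exact (min_le_left _ _).trans_lt (fb x y ((hZ _ _ _).2 ⟨e, c⟩))

theorem Cls.nest [Finite V] {ι : V → ℕ} (hι : Function.Injective ι) (h : Cls 3 2 2 A) :
    Rep 3 2 2 A (can 3 ι A) := by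
  obtain ⟨χ, ρ, h⟩ := h
  have := Fintype.ofFinite V
  have hb := (h.resp (k := 3) (by omega) (by omega)).bal
  exact rep_of_tr h.refl (can_resp hι h.refl hb) fun _ _ _ => can_tr hι h.refl hb

end Pool.Agent.Lib.MP_7285af_lc
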