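import Pool.Agent.Lib.MP_7285af_lc.AlgA
import Pool.Agent.Lib.MP_7285af_lc.Nest

/-! The recognition algorithm. -/

namespace Pool.Agent.Lib.MP_7285af_lc

open Pool.Agent.Lib.Complexity Relation LP Function N487b59b3 N68a2faeb

def lkB (k : ℕ) (G : Gr) (n n' : Nd ℕ) : Bool := !adj G n.1 n.2.1 && !adj G n'.1 n'.2.1 &&
  ((decide (n.2.1 = n'.2.1) && (adj G n.1 n'.1 || adj G n'.1 n.1) && decide (n.2.2 = n'.2.2)) ||
    (adj G n.1 n'.2.1 && adj G n'.1 n.2.1 && !decide (n.2.2 = n'.2.2)) ||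
    (decide (k ≤ 2) && decide (n.1 = n'.1) && (G.2.any fun u => adj G u n.2.1 && adj G u n'.2.1) &&
      decide (n.2.2 = n'.2.2)) ||
    (decide (k ≤ 1) && decide (n.2.1 = n'.2.1) && (G.2.any fun v => adj G n.1 v && adj G n'.1 v) &&
      decide (n.2.2 = n'.2.2)))

def clN (k : ℕ) (G : Gr) (n : Nd ℕ) : List (Nd ℕ) :=
  cl (G.2.flatMap fun x => G.2.flatMap fun y => [(x, y, true), (x, y, false)]) (lkB k G) n

def wtN (G : Gr) (n : Nd ℕ) : ℕ × ℕ × ℕ :=
  (bif adj G n.2.1 n.1 then (bif n.2.2 then 1 else 2) else 0,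
    bif n.2.2 then (n.1, n.2.1) else (n.2.1, n.1))

def ltN (u v : ℕ × ℕ × ℕ) : Bool :=
  decide (u.1 < v.1 ∨ u.1 = v.1 ∧ (u.2.1 < v.2.1 ∨ u.2.1 = v.2.1 ∧ u.2.2 < v.2.2))

def canB (k : ℕ) (G : Gr) (x y : ℕ) : Bool :=
  (clN k G (x, y, true)).any fun n => (clN k G (x, y, false)).all fun m => ltN (wtN G n) (wtN G m)

def flB (k : ℕ) (G : Gr) (F : List ℕ) (x y : ℕ) : Bool :=
  bif G.2.any fun z => decide (z ∈ F) && adj G z x && adj G z y then !canB k G x y else canB k G x y

def uB (G : Gr) (z v : ℕ) : Bool := adj G z v || !canB 2 G z v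

def nnB (G : Gr) (z v : ℕ) : Bool := adj G z v && G.2.all fun s => adj G z s || !adj G s v

def pre (G : Gr) (F : List ℕ) (z : ℕ) (j : ℤ) : Bool :=
  lp (sys 2 2 1 (G.1, G.2.filter (uB G z)) (flB 2 G F) ++ cr true [(1, 1)] [(1, 2)] ++
    (G.2.flatMap fun v => cr (nnB G z v) (fq 2 1 v) [(1, 1)] ++ cr (uB G z v) (fR 2 v) [(1, 2)]) ++
    G.2.flatMap fun w => G.2.flatMap fun y => G.2.flatMap fun m =>
      cr (!uB G z w && adj G z y && adj G z m && !adj G y m && !flB 2 G F y m)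
        [(2 ^ KK G.2.length - j, 1), (j, 2)] (sc (2 ^ KK G.2.length) (fR 2 y)))

def mdB (G : Gr) (z : ℕ) : Bool :=
  (G.2.any fun x => G.2.any fun y => adj G z x && adj G z y && !adj G x y) &&
  (G.2.all fun v => G.2.all fun t => !adj G z v || !adj G v t || adj G z t) &&
  G.2.all fun s => G.2.all fun v => adj G z s || !adj G s v || !adj G z v ||
    G.2.all fun m => !adj G z m || (adj G v m && adj G m v)

def keyB (G : Gr) (z : ℕ) : ℕ := G.2.countP fun s => !adj G z s && !canB 2 G z s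

def zsB (G : Gr) (i : ℕ) : List ℕ := G.2.filter fun z => mdB G z && decide (keyB G z = i)

def dpS (G : Gr) (F : List ℕ) (i : ℕ) : List ℕ :=
  if bs (pre G F ((zsB G i).headD 0)) (KK G.2.length + 1) <
    bs (pre G (zsB G i ++ F) ((zsB G i).headD 0)) (KK G.2.length + 1) then zsB G i ++ F else F

def dpF (G : Gr) (i : ℕ) : List ℕ := (List.range i).foldl (dpS G) []

def kk (a b : ℕ) : ℕ := if a = 3 then 3 else if b = 1 then 1 else 2

def okB (a b t : ℕ) (G : Gr) : Bool :=
  ([] :: dpF G (G.2.length + 1) :: G.2.flatMap fun z => G.2.map fun z' => [z, z']).any fun F =>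
    lp (sys a b t G (flB (kk a b) G F))

def alg (a b t : ℕ) (G : Gr) : Bool :=
  G.2.all fun v => okB a b t (G.1, cl G.2 (fun x y => adj G x y || adj G y x) v)

section pt
variable {α : Type} [Enc α] {G : α → Gr} {x y z : α → ℕ} {n n' : α → Nd ℕ} {F : α → List ℕ}

@[fun_prop] theorem pt_lkB (k : ℕ) (h : PT G) (hn : PT n) (hn' : PT n') :
    PT fun i => lkB k (G i) (n i) (n' i) := by unfold lkB; fun_prop

@[fun_prop] theorem pt_clN (k : ℕ) (h : PT G) (hn : PT n) : PT fun i => clN k (G i) (n i) := by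
  unfold clN; fun_prop

@[fun_prop] theorem pt_wtN (h : PT G) (hn : PT n) : PT fun i => wtN (G i) (n i) := by
  unfold wtN; fun_prop

@[fun_prop] theorem pt_ltN {u v : α → ℕ × ℕ × ℕ} (h : PT u) (h' : PT v) :
    PT fun i => ltN (u i) (v i) := by unfold ltN; fun_prop

@[fun_prop] theorem pt_canB (k : ℕ) (h : PT G) (hx : PT x) (hy : PT y) :
    PT fun i => canB k (G i) (x i) (y i) := by unfold canB; fun_prop

@[fun_prop] theorem pt_flB (k : ℕ) (h : PT G) (hF : PT F) (hx : PT x) (hy : PT y) :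
    PT fun i => flB k (G i) (F i) (x i) (y i) := by unfold flB; fun_prop

@[fun_prop] theorem pt_uB (h : PT G) (hx : PT x) (hy : PT y) : PT fun i => uB (G i) (x i) (y i) := by
  unfold uB; fun_prop

@[fun_prop] theorem pt_nnB (h : PT G) (hx : PT x) (hy : PT y) :
    PT fun i => nnB (G i) (x i) (y i) := by unfold nnB; fun_prop

@[fun_prop] theorem pt_KK (hx : PT x) : PT fun i => KK (x i) := by unfold KK; fun_prop

@[fun_prop] theorem pt_pre {j : α → ℤ} (h : PT G) (hF : PT F) (hz : PT z) (hj : PT j) :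
    PT fun i => pre (G i) (F i) (z i) (j i) := by unfold pre; fun_prop

@[fun_prop] theorem pt_mdB (h : PT G) (hz : PT z) : PT fun i => mdB (G i) (z i) := by
  unfold mdB; fun_prop

@[fun_prop] theorem pt_zsB (h : PT G) (hz : PT z) : PT fun i => zsB (G i) (z i) := by
  unfold zsB keyB; fun_prop

@[fun_prop] theorem pt_dpF (h : PT G) (hz : PT z) : PT fun i => dpF (G i) (z i) := by
  refine PT.foldl_add (by fun_prop) (by fun_prop) (by unfold dpS; fun_prop)
    (C := fun i => sz (G i).2) (PT.pb_nat (by fun_prop)) fun i F b _ => ?_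
  have : sz (zsB (G i) b) ≤ sz (G i).2 := sz_le_of_sublist List.filter_sublist
  unfold dpS
  split_ifs
  exacts [by rw [sz_append]; omega, by omega]

theorem pt_alg (a b t : ℕ) (h : PT G) : PT fun i => alg a b t (G i) := by
  unfold alg okB; fun_prop

end pt

theorem countP_lt {l : List ℕ} {p q : ℕ → Bool} (h : ∀ x ∈ l, p x = true → q x = true) {a : ℕ}
    (h1 : a ∈ l) (h2 : q a = true) (h3 : ¬p a = true) : l.countP p < l.countP q := by
  rw [List.countP_eq_length_filter (p := q), List.countP_congr (q := fun x => p x && q x)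
    (by simpa using h), ← List.countP_filter]
  exact List.countP_lt_length_iff.2 ⟨a, List.mem_filter.2 ⟨h1, h2⟩, by simpa using h3⟩

section
variable {W : Type} {G : Gr} {f : W → ℕ} {a b t : ℕ} (E : Em G f)
include E

theorem mem_clN (k : ℕ) (n : Nd W) (m : Nd ℕ) : m ∈ clN k G (f n.1, f n.2.1, n.2.2) ↔
    ∃ w : {w // Cn k (gA G f) n w}, (f w.1.1, f w.1.2.1, w.1.2.2) = m :=
  mem_cl' (F := fun n : Nd W => (f n.1, f n.2.1, n.2.2)) (fun ⟨x, y, s⟩ => by
    cases s <;> simp [E.rng]) (fun x y => by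
    simp [lkB, Lk, Adj, E.inj.eq_iff, E.rng, and_assoc, or_assoc]) n m

theorem canB_eq (k : ℕ) (x y : W) : canB k G (f x) (f y) = can k f (gA G f) x y := by
  have w : ∀ n m : Nd W, ltN (wtN G (f n.1, f n.2.1, n.2.2)) (wtN G (f m.1, f m.2.1, m.2.2)) = true ↔
      wt f (gA G f) n < wt f (gA G f) m := fun n m => by
    cases h : adj G (f n.2.1) (f n.1) <;> cases h' : adj G (f m.2.1) (f m.1) <;>
      simp [ltN, wtN, wt, Prod.Lex.lt_iff, Bool.cond_eq_ite, h, h', gA]
  rw [Bool.eq_iff_iff, canB, List.any_eq_true]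
  simp only [can, decide_eq_true_eq, List.all_eq_true, mem_clN E k (x, y, true), mem_clN E k (x, y, false)]
  exact ⟨fun ⟨_, ⟨n, rfl⟩, h⟩ => ⟨n, n.2, fun m e => (w _ _).1 (h _ ⟨⟨m, e⟩, rfl⟩)⟩,
    fun ⟨n, e, h⟩ => ⟨_, ⟨⟨n, e⟩, rfl⟩, fun _ ⟨m, e⟩ => e ▸ (w _ _).2 (h _ m.2)⟩⟩

theorem flB_eq (k : ℕ) (F : List ℕ) (x y : W) :
    flB k G F (f x) (f y) = fl (gA G f) (f · ∈ F) (can k f (gA G f)) x y := by
  classical
  rw [flB, fl, canB_eq E, Bool.cond_eq_ite]
  exact if_congr (by simp [E.ex, and_assoc]) rfl rfl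

theorem uB_iff (z v : W) : uB G (f z) (f v) = true ↔ Uu (gA G f) (can 2 f (gA G f)) z v := by
  simp [uB, Uu, canB_eq E]

theorem pre_iff (F : List ℕ) (z : W) (j : ℤ) : pre G F (f z) j = true ↔ Pre (gA G f)
    (can 2 f (gA G f)) z (fl (gA G f) (f · ∈ F) (can 2 f (gA G f))) (j / 2 ^ KK G.2.length) := by
  have E' : Em (G.1, G.2.filter (uB G (f z)))
      fun w : {w // Uu (gA G f) (can 2 f (gA G f)) z w} => f w := ⟨E.inj.comp Subtype.val_injective,
    fun n => by simp [E.rng, ← uB_iff E]; aesop⟩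
  have nn : ∀ v, nnB G (f z) (f v) = true ↔ Nn (gA G f) z v := fun v => by
    simp [nnB, Nn, E.all, or_iff_not_imp_left]
  have D : (0 : ℝ) < 2 ^ KK G.2.length := by positivity
  have e : ∀ α γ r : ℝ, (2 ^ KK G.2.length - j) * α + j * γ < 2 ^ KK G.2.length * r ↔
      α + j / 2 ^ KK G.2.length * (γ - α) < r := fun α γ r => by
    rw [← mul_lt_mul_iff_right₀ D]
    field_simp
    ring_nf
  have v1 : ∀ (X : ℕ → ℝ) i, val X [(1, i)] = X i := fun X i => by simp [val]
  have v2 : ∀ (X : ℕ → ℝ) c d i j, val X [(c, i), (d, j)] = c * X i + d * X j := fun X c d i j => by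
    simp [val]
  simp only [pre, lp_iff, List.forall_mem_append, sys_iff E' fun x y => flB_eq E 2 F x y,
    List.forall_mem_flatMap, cr_iff, E.all, nn, uB_iff E, flB_eq E, v1, v2, val_sc, forall_const,
    Bool.and_eq_true, Bool.not_eq_true', and_imp, Int.cast_sub, Int.cast_pow, Int.cast_ofNat, e,
    ← Bool.not_eq_true]
  constructor
  · exact fun ⟨X, ⟨⟨h1, h2⟩, h3⟩, h4⟩ => ⟨(rp 2 2 1 X).comap f, X 1, X 2, h1, h2,
      fun v => (h3 v).1, fun v => (h3 v).2, fun w y m a b c d k => h4 w y m a b c d (by simp [k])⟩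
  · rintro ⟨σ, α, γ, h1, h2, h3, h4, h5⟩
    obtain ⟨X, k, rfl, rfl⟩ := rp_surj E'.inj h1.1 α γ
    have k1 : ∀ v, Uu (gA G f) (can 2 f (gA G f)) z v → val X (fR 2 (f v)) = σ.R v ∧
        val X (fq 2 1 (f v)) = σ.q v := fun v e =>
      ⟨congrFun (congrArg Rp.R k) ⟨v, e⟩, congrFun (congrArg Rp.q k) ⟨v, e⟩⟩
    exact ⟨X, ⟨⟨k ▸ h1, h2⟩, fun v => ⟨fun e => (k1 v (.inl e.1)).2 ▸ h3 v e,
      fun e => (k1 v e).1 ▸ h4 v e⟩⟩, fun w y m a b c d k =>
        (k1 y (.inl b)).1 ▸ h5 w y m a b c d (by simpa using k)⟩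

theorem mdB_iff (z : W) : mdB G (f z) = true ↔ Md (gA G f) z := by
  simp only [mdB, Md, Bool.and_eq_true, List.any_eq_true, List.all_eq_true, E.all, E.ex,
    Bool.or_eq_true, Bool.not_eq_true', ← Bool.not_eq_true, or_iff_not_imp_left, not_not, and_assoc,
    and_imp, not_forall, exists_prop]

theorem rep_dp [Finite W] (hc : Conn (gA G f)) (h : Cls 2 2 1 (gA G f)) :
    Rep 2 2 1 (gA G f) (fl (gA G f) (f · ∈ dpF G (G.2.length + 1)) (can 2 f (gA G f))) := by
  have hn : Nat.card W ≤ G.2.length := by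
    rw [← Nat.card_range_of_injective E.inj, show Set.range f = G.2.toFinset by ext; simp [E.rng]]
    exact (Set.ncard_coe_finset _).trans_le G.2.toFinset_card_le
  have z : ∀ i w, f w ∈ zsB G i ↔ Md (gA G f) w ∧ keyB G (f w) = i := fun i w => by
    simp [zsB, E.rng, mdB_iff E]
  have s : ∀ i, dpF G (i + 1) = dpS G (dpF G i) i := fun i => by simp [dpF, List.range_succ]
  obtain ⟨χ, ρ, h'⟩ := id h
  refine dp hn hc (can_resp E.inj h'.refl (h'.resp (by omega) (by omega)).bal) h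
    (key := fun w => keyB G (f w)) (fun x y k k' => ?_) (F := fun i w => f w ∈ dpF G i)
    (by simp [dpF]) (fun i w => ?_) (fun i => ?_) fun w => Nat.lt_succ_of_le List.countP_le_length
  · have e : ∀ x y, (!adj G (f x) (f y) && !canB 2 G (f x) (f y)) = true ↔
        ¬gA G f x y ∧ can 2 f (gA G f) x y = false := by simp [canB_eq E]
    exact countP_lt (E.all.2 fun s j => (e _ _).2 (k s ((e _ _).1 j))) ((E.rng _).2 ⟨y, rfl⟩)
      ((e _ _).2 k') fun j => ((e _ _).1 j).1 (h'.refl y)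
  · rw [s, dpS, ← z]
    split_ifs
    exacts [List.mem_append.1, .inr]
  · cases e : zsB G i with
    | nil => exact .inl ⟨fun w m k => by simpa [e] using (z i w).2 ⟨m, k⟩, by simp [s, dpS, e]⟩
    | cons z0 l =>
      have e1 : z0 ∈ zsB G i := e ▸ List.mem_cons_self
      obtain ⟨w, rfl⟩ := (E.rng z0).1 (List.mem_filter.1 e1).1
      have mo : ∀ F i j, i ≤ j → pre G F (f w) j = true → pre G F (f w) i = true := fun F i j k => by
        simp only [pre_iff E]
        exact fun p => p.mono (by gcongr)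
      refine .inr ⟨w, (z i w).1 e1, fun j j1 p => ?_⟩
      have j2 : (j : ℤ) + 1 < 2 ^ (KK G.2.length + 1) := by
        have : 1 < 2 ^ KK G.2.length := Nat.one_lt_two_pow (Nat.succ_ne_zero _)
        exact_mod_cast (by omega : j + 1 < 2 ^ (KK G.2.length + 1))
      simp only [← z, ← List.mem_append] at p
      simp only [← Int.cast_natCast (R := ℝ) j, ← pre_iff E, s, dpS] at p ⊢
      rw [show (zsB G i).headD 0 = f w by simp [e]]
      split_ifs with c
      exacts [p.elim (fun p => bs_le (mo _) (mo _) j.cast_nonneg j2 p c.le) id,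
        p.elim id fun p => bs_le (mo _) (mo _) j.cast_nonneg j2 p (not_lt.1 c)]

theorem okB_iff [Finite W] (hc : Conn (gA G f)) (ha : a = 1 ∨ a = 2 ∨ a = 3) (hb : b = 1 ∨ b = 2)
    (ht : t = 1 ∨ t = 2) (h3 : a = 3 → b = 2 ∧ t = 2) : okB a b t G = true ↔ Cls a b t (gA G f) := by
  simp only [okB, List.any_eq_true, lp_sys E (flB_eq E _ _)]
  refine ⟨fun ⟨_, _, h⟩ => ⟨_, h⟩, fun h => ?_⟩
  obtain ⟨χ, ρ, h'⟩ := id h
  have r := can_resp E.inj h'.refl (h'.resp (k := kk a b) (by unfold kk; split_ifs <;> omega)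
    (by unfold kk; split_ifs <;> omega)).bal
  have k : Rep a b t (gA G f) (can (kk a b) f (gA G f)) → ∃ F ∈ [] :: dpF G (G.2.length + 1) ::
      G.2.flatMap fun z => G.2.map fun z' => [z, z'],
      Rep a b t (gA G f) (fl (gA G f) (f · ∈ F) (can (kk a b) f (gA G f))) := fun h =>
    ⟨[], List.mem_cons_self, h.congr fun x y _ => by simp [fl]⟩
  rcases hb with rfl | rfl
  · rw [show kk a 1 = 1 from if_neg (by omega)] at *
    exact k (h.point hc (by omega) r)
  rcases ha with rfl | rfl | rfl <;> rcases ht with rfl | rfl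
  · refine (h.unit hc r).elim k fun ⟨z, z', h⟩ => ⟨[f z, f z'], ?_, by simpa [E.inj.eq_iff] using h⟩
    simp [E.rng]
  · exact k (h.one hc r)
  · exact ⟨_, by simp, rep_dp E hc h⟩
  · exact k (h.two hc r)
  · omega
  · exact k (h.nest E.inj)

theorem alg_iff [Finite W] (ha : a = 1 ∨ a = 2 ∨ a = 3) (hb : b = 1 ∨ b = 2)
    (ht : t = 1 ∨ t = 2) (h3 : a = 3 → b = 2 ∧ t = 2) : alg a b t G = true ↔ Cls a b t (gA G f) := by
  have k := fun v => okB_iff (G := (G.1, cl G.2 (fun x y => adj G x y || adj G y x) (f v)))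
    (f := fun w : {w // ReflTransGen (Adj (gA G f)) v w} => f w)
    ⟨E.inj.comp Subtype.val_injective, mem_cl' E.rng (by simp [Adj]) v⟩ (conn_cmp v) ha hb ht h3
  simp only [alg, List.all_eq_true, E.all, k]
  exact ⟨cls_of_cmp, fun h v => h.comap _⟩

end

theorem lang_mem_P {a b t : ℕ} (ha : a = 1 ∨ a = 2 ∨ a = 3) (hb : b = 1 ∨ b = 2)
    (ht : t = 1 ∨ t = 2) (h3 : a = 3 → b = 2 ∧ t = 2) : lang a b t ∈ P := by
  have k : ∀ {n} (A : Fin n → Fin n → Bool), alg a b t (mat A, List.range (mat A).length) = true ↔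
      InClass a b t A := fun {n} A => by
    rw [alg_iff (W := Fin n) ⟨Fin.val_injective, by simp [mat, Fin.exists_iff]⟩ ha hb ht h3,
      inClass_iff A ha hb, show gA _ _ = fun x y => A x y = true by ext; simp [adj, mat]]
  refine PT.mem_P (PT.of_eq (f := fun s => ((bitDecode s : Option (List (List Bool))).map
    Complexity.Rep.up).elim false fun M : List (List Bool) => decide (s = bitEncode M) &&
      (M.all fun r => decide (r.length = M.length)) && alg a b t (M, List.range M.length))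
    (PT.option_elim (PT.decode _ PT.id) (by fun_prop) (PT.and (PT.and (PT.dec_eq (by fun_prop) ?_)
      (by fun_prop)) (pt_alg a b t (by fun_prop)))) fun s => ?_)
  · exact (PT.encode (List (List Bool)) (f := fun x : Str × List (List Bool) => x.2)
      (by fun_prop)).of_eq fun x => by rw [down_mat]
  rw [Bool.eq_iff_iff]
  constructor
  · cases (bitDecode s : Option (List (List Bool))) with
    | none => simp
    | some M =>
      simp only [Option.map_some, up_mat, Option.elim_some, Bool.and_eq_true, decide_eq_true_eq,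
        List.all_eq_true]
      rintro ⟨⟨rfl, h1⟩, h2⟩
      have e : M = mat fun x y : Fin M.length => (M.getD x []).getD y false := by
        apply List.ext_getElem (by simp [mat])
        intro i k1 k2
        have := h1 _ (List.getElem_mem k1)
        apply List.ext_getElem (by simp [mat, this])
        intro j k3 k4
        simp [mat, k3]
      rwa [e, lang_mat, ← k, ← e]
  · simp only [lang, decide_eq_true_eq]
    rintro ⟨n, A, rfl, h⟩
    change (Option.map _ (bitDecode (bitEncode (mat A)))).elim _ _ = _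
    simp only [bitDecode_bitEncode, Option.map_some, up_mat, Option.elim_some, (k A).2 h]
    simp [mat]

end Pool.Agent.Lib.MP_7285af_lc
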