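import Pool.Prelude.Def_F_458e953d

namespace Pool.Agent.Lib.MP_7285af_lc

/-- The digraph with adjacency matrix `A` has a bounded bitolerance representation obeying the
restriction number `a` on lengths (1 unit, 2 proper, 3 arbitrary), number `b` on tolerant points
(1 point-core, 2 totally bounded, 3 arbitrary), number `t` on tolerances (1 tolerance,
2 bitolerance). -/
def InClass (a b t : ℕ) {n : ℕ} (A : Fin n → Fin n → Bool) : Prop :=
  ∃ L R p q : Fin n → ℝ,
    (∀ v, p v ∈ Set.Icc (L v) (R v) ∧ q v ∈ Set.Icc (L v) (R v)) ∧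
    (∀ x y, A x y = true ↔ L x ≤ q y ∧ p y ≤ R x) ∧
    (a = 1 → ∀ x y, R x - L x = R y - L y) ∧
    (a = 2 → ∀ x y, ¬ Set.Icc (L x) (R x) ⊂ Set.Icc (L y) (R y)) ∧
    (b = 1 → ∀ v, p v = q v) ∧
    (b = 2 → ∀ v, p v ≤ q v) ∧
    (t = 1 → ∀ v, p v - L v = R v - q v)

open Classical in
/-- The bit strings that encode the adjacency matrix of a digraph of the class. -/
noncomputable def lang (a b t : ℕ) : N68a2faeb.DecisionProblem := fun s =>
  decide (∃ (n : ℕ) (A : Fin n → Fin n → Bool),
    s = N487b59b3.bitEncode (List.ofFn fun x => List.ofFn fun y => A x y) ∧ InClass a b t A)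

end Pool.Agent.Lib.MP_7285af_lc
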