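import Pool.Agent.Lib.MP_7285af_lc.Mod

/-! Flipping the colours inside of modules. -/

noncomputable section

namespace Pool.Agent.Lib.MP_7285af_lc

open Relation Classical

variable {V : Type} {a b t : ℕ} {A : V → V → Prop} {χ χ0 : V → V → Bool} {ρ : Rp V}
  {x y u v z z' w m s : V}

/-- the colours inside of the out-neighbourhoods of the members of `F` are flipped -/
def fl (A : V → V → Prop) (F : V → Prop) (χ : V → V → Bool) (x y : V) : Bool :=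
  if ∃ z, F z ∧ A z x ∧ A z y then !χ x y else χ x y

def Ag (A : V → V → Prop) (χ χ0 : V → V → Bool) : Prop :=
  ∀ x y, ¬A x y → (¬∃ z, Md A z ∧ A z x ∧ A z y) → χ x y = χ0 x y

def Dis (A : V → V → Prop) (χ χ0 : V → V → Bool) (z : V) : Prop :=
  Md A z ∧ ∃ x y, A z x ∧ A z y ∧ ¬A x y ∧ χ x y ≠ χ0 x y

theorem fl_in (h1 : A z x) (h2 : A z y) : fl A (· = z) χ x y = !χ x y := if_pos ⟨z, rfl, h1, h2⟩

theorem fl_out (h : A z x → ¬A z y) : fl A (· = z) χ x y = χ x y :=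
  if_neg fun ⟨_, e, h1, h2⟩ => h (e ▸ h1) (e ▸ h2)

theorem Md.out (h : Md A z) (h1 : A z v) (h2 : ¬A z s) : ¬A v s := fun e => h2 (h.2.1 v s h1 e)

theorem Md.sub (h : Md A z) (h' : Md A z') (h1 : A z m) (h2 : A z' m) (h3 : A z' v) : A z v := by
  by_contra n
  obtain ⟨x, y, a1, a2, a3⟩ := h.1
  have e : ¬A z z' := fun e => h.out e n h3
  exact a3 (h.2.2 z' x e (h'.2.1 m x h2 (h.2.2 z' m e h2 h1 x a1).1) a1 y a2).1

theorem Ag.out (h : Ag A χ χ0) (hm : Md A z) (h1 : A z v) (h2 : ¬A z s) :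
    χ v s = χ0 v s ∧ (¬A s v → χ s v = χ0 s v) :=
  ⟨h v s (hm.out h1 h2) fun ⟨_, k, k1, k2⟩ => h2 (hm.sub k h1 k1 k2),
    fun n => h s v n fun ⟨_, k, k1, k2⟩ => h2 (hm.sub k h1 k2 k1)⟩

theorem Ag.fl {F : V → Prop} (h : Ag A χ χ0) (hF : ∀ z, F z → Md A z) : Ag A (fl A F χ) χ0 :=
  fun x y n k => (if_neg fun ⟨z, e, e'⟩ => k ⟨z, hF z e, e'⟩).trans (h x y n k)

theorem Dis.all (h : Dis A χ χ0 z) (r : ∀ v, A v v) (r1 : Resp 2 A χ) (r0 : Resp 2 A χ0)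
    (h1 : A z u) (h2 : A z v) (n : ¬A u v) : χ u v = !χ0 u v :=
  let ⟨_, _, _, a1, a2, a3, a4⟩ := h
  Bool.eq_not.2 fun e => a4 ((lu_in r h1 h2 a1 a2 n a3).agree r1 r0 e)

theorem eq_fl {F : V → Prop} (r : ∀ v, A v v) (r1 : Resp 2 A χ) (r0 : Resp 2 A χ0) (h : Ag A χ χ0)
    (h1 : ∀ z, F z → Dis A χ χ0 z) (h2 : ∀ z, Dis A χ χ0 z → ∃ z', F z' ∧ A z' z) (x y : V)
    (n : ¬A x y) : fl A F χ0 x y = χ x y := by
  unfold fl
  split_ifs with c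
  · obtain ⟨z, c1, c2, c3⟩ := c
    exact ((h1 z c1).all r r1 r0 c2 c3 n).symm
  · by_contra e
    obtain ⟨z, c1, c2, c3⟩ : ∃ z, Md A z ∧ A z x ∧ A z y := by_contra fun k => e (h x y n k).symm
    obtain ⟨z', c4, c5⟩ := h2 z ⟨c1, x, y, c2, c3, n, Ne.symm e⟩
    exact c ⟨z', c4, (h1 z' c4).1.2.1 _ _ c5 c2, (h1 z' c4).1.2.1 _ _ c5 c3⟩

theorem Rp.Ok.lf (h : ρ.Ok a b t A χ) (e : A z m) (n : ¬A z s) (n' : ¬A m s) (c : χ z s = false) :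
    ρ.q s < ρ.L m ∧ (¬A s m → ρ.R s < ρ.p m) := by
  have k := h.zr m s n' ((h.resp (k := 3) (by omega) (by omega)).cn (e2 (.inl e) n n') c)
  refine ⟨k, fun j => h.zl s m j (by_contra fun c => ?_)⟩
  linarith [h.zr s m j (by simpa using c), h.lp s, h.pq s, h.lp m, h.pq m]

theorem Rp.Ok.rt (h : ρ.Ok a b t A χ) (e : A z m) (n : ¬A z s) (n' : ¬A m s) (c : χ z s = true) :
    ρ.R m < ρ.p s ∧ (¬A s m → ρ.q m < ρ.L s) :=
  (h.neg.lf e n n' (by simp [c])).imp neg_lt_neg_iff.1 fun k j => neg_lt_neg_iff.1 (k j)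

theorem Rp.Ok.side (h : ρ.Ok a b t A χ) (hm : Md A z) (n : ¬A z s) :
    (χ z s = false ∧ ∀ m, A z m → ρ.q s < ρ.L m ∧ (¬A s m → ρ.R s < ρ.p m)) ∨
    (χ z s = true ∧ ∀ m, A z m → ρ.R m < ρ.p s ∧ (¬A s m → ρ.q m < ρ.L s)) := by
  cases c : χ z s
  exacts [.inl ⟨rfl, fun m e => h.lf e n (hm.out e n) c⟩, .inr ⟨rfl, fun m e => h.rt e n (hm.out e n) c⟩]

theorem Rp.Ok.of_mono (mo : ρ.Mono) (lp : ∀ v, ρ.L v ≤ ρ.p v) (pq : ∀ v, ρ.p v ≤ ρ.q v)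
    (qr : ∀ v, ρ.q v ≤ ρ.R v) (arc : ∀ x y, A x y → ρ.L x ≤ ρ.q y ∧ ρ.p y ≤ ρ.R x)
    (zl : ∀ x y, ¬A x y → χ x y = true → ρ.R x < ρ.p y)
    (zr : ∀ x y, ¬A x y → χ x y = false → ρ.q y < ρ.L x)
    (un : a = 1 → ∀ x y, ρ.R x - ρ.L x = ρ.R y - ρ.L y) (pt : b = 1 → ∀ v, ρ.p v = ρ.q v)
    (tol : t = 1 → ∀ v, ρ.p v - ρ.L v = ρ.R v - ρ.q v) : ρ.Ok a b t A χ :=
  ⟨lp, pq, qr, arc, zl, zr, fun _ x y m n c e => not_lt.1 fun k =>
    (mo y x k).not_gt ((zl x m n c).trans_le (arc y m e).2),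
    fun _ x y m n c e => mo y x ((arc y m e).1.trans_lt (zr x m n c)), un, pt, tol⟩

/-- members of a module without arcs from the outside -/
def Nn (A : V → V → Prop) (z v : V) : Prop := A z v ∧ ∀ s, ¬A z s → ¬A s v

theorem Md.nn (h : Md A z) (h1 : A z x) (h2 : A z y) (n : ¬A x y) : Nn A z x ∧ Nn A z y :=
  ⟨⟨h1, fun s k e => n (h.2.2 s x k e h1 y h2).1⟩, h2, fun s k e => n (h.2.2 s y k e h2 x h1).2⟩

theorem Md.uni (h : Md A z) (h1 : A z x) (h2 : A z y) (n : ¬Nn A z x) : A x y ∧ A y x :=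
  ⟨by_contra fun k => n (h.nn h1 h2 k).1, by_contra fun k => n (h.nn h2 h1 k).2⟩

theorem Rp.Ok.sep (h : ρ.Ok a b t A χ) (hm : Md A z) (n : ¬A z s) (c : χ z s = false)
    (n' : ¬A z w) (c' : χ z w = true) : ρ.R s < ρ.p w ∧ ρ.q s < ρ.L w := by
  obtain ⟨x, y, d1, d2, d3⟩ := hm.1
  have k := (hm.nn d1 d2 d3).1.2
  obtain ⟨k1, k2⟩ := h.lf d1 n (hm.out d1 n) c
  obtain ⟨k3, k4⟩ := h.rt d1 n' (hm.out d1 n') c'
  constructor <;> linarith [k2 (k s n), k4 (k w n'), h.lp x, h.pq x, h.qr x]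

theorem Rp.Ok.cross (h : ρ.Ok a b t A χ) (hc : Conn A) (hm : Md A z) (n : ¬A z s) :
    ∃ x v, ¬A z x ∧ χ z x = χ z s ∧ A z v ∧ A x v := by
  obtain ⟨x, v, ⟨k1, k2⟩, k3, k4⟩ := hc.cross (U := fun x => ¬A z x ∧ χ z x = χ z s) ⟨n, rfl⟩
    fun k => k.1 (h.refl z)
  by_cases e : A z v
  · exact ⟨x, v, k1, k2, e, k4.resolve_right (hm.out e k1)⟩
  have e' : χ z v = !χ z s := Bool.eq_not.2 fun j => k3 ⟨e, j⟩
  cases c : χ z s <;> rw [c] at k2 e'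
  · have := h.sep hm k1 k2 e e'
    exact absurd k4 (not_or.2 ⟨(h.of_lt this.1).1, (h.of_gt this.2).1⟩)
  · have := h.sep hm e e' k1 k2
    exact absurd k4 (not_or.2 ⟨(h.of_gt this.2).1, (h.of_lt this.1).1⟩)

variable [Finite V]

theorem ex_min (f : V → ℝ) {B : V → Prop} (h : B x) : ∃ u, B u ∧ ∀ v, B v → f u ≤ f v :=
  let ⟨u, hu⟩ := @Finite.exists_min {v // B v} ℝ _ ⟨⟨x, h⟩⟩ _ fun v => f v
  ⟨u, u.2, fun v hv => hu ⟨v, hv⟩⟩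

theorem ex_max (f : V → ℝ) {B : V → Prop} (h : B x) : ∃ u, B u ∧ ∀ v, B v → f v ≤ f u :=
  let ⟨u, hu⟩ := @Finite.exists_max {v // B v} ℝ _ ⟨⟨x, h⟩⟩ _ fun v => f v
  ⟨u, u.2, fun v hv => hu ⟨v, hv⟩⟩

theorem ex_ag (hc : Conn A) (ha : a ≠ 3) (r0 : Resp 2 A χ0) (h : Cls a b t A) :
    ∃ χ, Rep a b t A χ ∧ Ag A χ χ0 := by
  obtain ⟨χ, ρ, h⟩ := h
  obtain ⟨ρ, h, mo⟩ := h.mono ha
  by_cases c : Ag A χ χ0
  · exact ⟨χ, ⟨ρ, h⟩, c⟩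
  · simp only [Ag, not_forall] at c
    obtain ⟨x, y, n, k, c⟩ := c
    exact ⟨_, ⟨_, h.neg⟩, fun u v n' k' => (main_lu h mo hc n n' k k').agree
      (h.neg.resp (fun _ => ha) (by omega)) r0 (Bool.eq_not.2 (Ne.symm c)).symm⟩

theorem fix_all (G : V → Prop) (hc : Conn A) (ha : a ≠ 3) (r0 : Resp 2 A χ0) (h : Cls a b t A)
    (hf : ∀ χ z, Rep a b t A χ → Ag A χ χ0 → Dis A χ χ0 z → G z → Rep a b t A (fl A (· = z) χ)) :
    ∃ χ, Rep a b t A χ ∧ Ag A χ χ0 ∧ ∀ z, Dis A χ χ0 z → ¬G z := by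
  obtain ⟨χ, ⟨h1, h2⟩, h3⟩ := (wellFounded_lt.onFun (f := fun χ : V → V → Bool =>
    {i : V × V | ¬A i.1 i.2 ∧ χ i.1 i.2 ≠ χ0 i.1 i.2}.ncard)).has_min
    {χ | Rep a b t A χ ∧ Ag A χ χ0} (ex_ag hc ha r0 h)
  refine ⟨χ, h1, h2, fun z d g => h3 _ ⟨hf χ z h1 h2 d g, h2.fl fun _ e => e ▸ d.1⟩
    (Set.ncard_lt_ncard ?_)⟩
  obtain ⟨ρ, h⟩ := h1
  have k : ∀ x y, A z x → A z y → ¬A x y → fl A (· = z) χ x y = χ0 x y := fun x y e e' n => by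
    simp [fl_in e e', d.all h.refl (h.resp (fun _ => ha) (by omega)) r0 e e' n]
  obtain ⟨-, x, y, d1, d2, d3, d4⟩ := d
  exact ⟨fun i j => ⟨j.1, fl_out (χ := χ) (fun e e' => j.2 (k _ _ e e' j.1)) ▸ j.2⟩,
    fun j => (@j (x, y) ⟨d3, d4⟩).2 (k x y d1 d2 d3)⟩

theorem fix_all' (hc : Conn A) (ha : a ≠ 3) (r0 : Resp 2 A χ0) (h : Cls a b t A)
    (hf : ∀ χ z, Rep a b t A χ → Ag A χ χ0 → Dis A χ χ0 z → Rep a b t A (fl A (· = z) χ)) :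
    Rep a b t A χ0 := by
  obtain ⟨χ, h1, h2, h3⟩ := fix_all (fun _ => True) hc ha r0 h fun χ z a b c _ => hf χ z a b c
  exact h1.congr fun x y n => (by_contra fun e => e (h2 x y n fun ⟨z, k, k1, k2⟩ =>
    h3 z ⟨k, x, y, k1, k2, n, e⟩ trivial)).symm

theorem Cls.point (hc : Conn A) (ha : a ≠ 3) (r0 : Resp 1 A χ0) (h : Cls a 1 t A) :
    Rep a 1 t A χ0 := by
  refine fix_all' hc ha (r0.mono one_le_two) h ?_
  rintro χ z ⟨ρ, h⟩ ag ⟨hm, x, y, d1, d2, d3, d4⟩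
  by_cases c : ∀ s, A z s
  · exact ⟨_, h.neg.congr fun x y _ => fl_in (c x) (c y)⟩
  obtain ⟨s, c⟩ := not_forall.1 c
  obtain ⟨u, s, k1, k2, k3⟩ := hc.cross (U := A z) d1 c
  have k4 := k3.resolve_left (hm.out k1 k2)
  have n := (hm.nn d1 d2 d3).2.2 s k2
  have l : ∀ c, Lk 1 A (s, y, c) (x, y, c) := fun c => ⟨n, d3, .inr (.inr (.inr
    ⟨le_rfl, rfl, ⟨u, k4, (hm.2.2 s u k2 k4 k1 x d1).2⟩, rfl⟩))⟩
  exact absurd ((h.resp (fun _ => ha) (fun _ => rfl) _ _ (l _) rfl).trans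
    (r0 _ _ (l _) ((ag.out hm d2 k2).2 n).symm).symm) d4

theorem Rep.flip2 (h : Rep 2 2 2 A χ) (hm : Md A z) : Rep 2 2 2 A (fl A (· = z) χ) := by
  obtain ⟨ρ, h⟩ := h
  obtain ⟨ρ, h, mo⟩ := h.mono (by omega)
  obtain ⟨x0, y0, d1, d2, d3⟩ := hm.1
  obtain ⟨u1, a1, P1⟩ := ex_min ρ.p (hm.nn d1 d2 d3).1
  obtain ⟨u2, a2, Q1⟩ := ex_max ρ.q a1
  obtain ⟨u3, a3, l1⟩ := ex_min ρ.L d1
  obtain ⟨u4, a4, r1⟩ := ex_max ρ.R d1
  have lp := h.lp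
  have pq := h.pq
  have qr := h.qr
  generalize eP : ρ.p u1 = P at P1
  generalize eQ : ρ.q u2 = Q at Q1
  have PQ : P ≤ Q := by linarith [pq u1, Q1 u1 a1]
  have lP : ρ.L u3 ≤ P := by linarith [l1 u1 a1.1, lp u1]
  have rQ : Q ≤ ρ.R u4 := by linarith [r1 u2 a2.1, qr u2]
  have X1 : ∀ v u, A z v → A z u → ρ.R v < ρ.p u → ρ.R v < Q ∧ Nn A z v := fun v u e e' k =>
    have j := hm.nn e e' (h.of_lt k).1
    ⟨by linarith [Q1 u j.2, pq u], j.1⟩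
  have Y1 : ∀ v u, A z v → A z u → ρ.q u < ρ.L v → P < ρ.L v ∧ Nn A z v := fun v u e e' k =>
    have j := hm.nn e e' (h.of_gt k).1
    ⟨by linarith [P1 u j.2, pq u], j.1⟩
  have sd : ∀ s, ¬A z s → (ρ.q s < ρ.L u3 ∧ ρ.R s < P) ∨ (ρ.R u4 < ρ.p s ∧ Q < ρ.L s) :=
    fun s n => (h.side hm n).imp (fun k => ⟨(k.2 _ a3).1, eP ▸ (k.2 _ a1.1).2 (a1.2 s n)⟩)
      fun k => ⟨(k.2 _ a4).1, eQ ▸ (k.2 _ a2.1).2 (a2.2 s n)⟩
  obtain ⟨L, L0, L1⟩ : ∃ L : V → ℝ, (∀ v, ¬A z v → L v = ρ.L v) ∧ ∀ v, A z v →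
      ((∃ u, A z u ∧ ρ.R v < ρ.p u) ∧ L v = P + Q - ρ.R v) ∨
      ((∀ u, A z u → ρ.p u ≤ ρ.R v) ∧ L v = ρ.L u3) :=
    ⟨fun v => if A z v then if ∃ u, A z u ∧ ρ.R v < ρ.p u then P + Q - ρ.R v else ρ.L u3 else ρ.L v,
      fun v e => if_neg e, fun v e => (Classical.em _).imp (fun k => ⟨k, (if_pos e).trans (if_pos k)⟩)
        fun k => ⟨by simpa using k, (if_pos e).trans (if_neg k)⟩⟩
  obtain ⟨R, R0, R1⟩ : ∃ R : V → ℝ, (∀ v, ¬A z v → R v = ρ.R v) ∧ ∀ v, A z v →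
      ((∃ u, A z u ∧ ρ.q u < ρ.L v) ∧ R v = P + Q - ρ.L v) ∨
      ((∀ u, A z u → ρ.L v ≤ ρ.q u) ∧ R v = ρ.R u4) :=
    ⟨fun v => if A z v then if ∃ u, A z u ∧ ρ.q u < ρ.L v then P + Q - ρ.L v else ρ.R u4 else ρ.R v,
      fun v e => if_neg e, fun v e => (Classical.em _).imp (fun k => ⟨k, (if_pos e).trans (if_pos k)⟩)
        fun k => ⟨by simpa using k, (if_pos e).trans (if_neg k)⟩⟩
  obtain ⟨p, q, p0, p1⟩ : ∃ p q : V → ℝ, (∀ v, ¬A z v → p v = ρ.p v ∧ q v = ρ.q v) ∧ ∀ v, A z v →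
      (Nn A z v ∧ p v = P + Q - ρ.q v ∧ q v = P + Q - ρ.p v) ∨
      (¬Nn A z v ∧ p v = min (ρ.p v) P ∧ q v = max (ρ.q v) Q) :=
    ⟨fun v => if A z v then if Nn A z v then P + Q - ρ.q v else min (ρ.p v) P else ρ.p v,
      fun v => if A z v then if Nn A z v then P + Q - ρ.p v else max (ρ.q v) Q else ρ.q v,
      fun v e => ⟨if_neg e, if_neg e⟩, fun v e => (Classical.em _).imp
        (fun k => ⟨k, (if_pos e).trans (if_pos k), (if_pos e).trans (if_pos k)⟩)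
        fun k => ⟨k, (if_pos e).trans (if_neg k), (if_pos e).trans (if_neg k)⟩⟩
  have L2 : ∀ v, A z v → ρ.L u3 ≤ L v ∧ L v ≤ p v ∧ L v ≤ Q := fun v e => by
    rcases L1 v e with ⟨⟨u, k1, k2⟩, k⟩ | ⟨-, k⟩ <;> rcases p1 v e with ⟨j, j1, -⟩ | ⟨j, j1, -⟩
    · have := X1 v u e k1 k2
      refine ⟨?_, ?_, ?_⟩ <;> linarith [qr v, pq v, P1 v j, this.1]
    · exact absurd (X1 v u e k1 k2).2 j
    · refine ⟨?_, ?_, ?_⟩ <;> linarith [Q1 v j]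
    · exact ⟨k.ge, k ▸ j1 ▸ le_min ((l1 v e).trans (lp v)) lP, by linarith⟩
  have R2 : ∀ v, A z v → R v ≤ ρ.R u4 ∧ q v ≤ R v ∧ P ≤ R v := fun v e => by
    rcases R1 v e with ⟨⟨u, k1, k2⟩, k⟩ | ⟨-, k⟩ <;> rcases p1 v e with ⟨j, -, j1⟩ | ⟨j, -, j1⟩
    · have := Y1 v u e k1 k2
      refine ⟨?_, ?_, ?_⟩ <;> linarith [lp v, pq v, Q1 v j, this.1]
    · exact absurd (Y1 v u e k1 k2).2 j
    · refine ⟨?_, ?_, ?_⟩ <;> linarith [P1 v j]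
    · exact ⟨k.le, k ▸ j1 ▸ max_le ((qr v).trans (r1 v e)) rQ, by linarith⟩
  refine ⟨⟨L, R, p, q⟩, .of_mono (fun x y k => ?_) (fun v => ?_) (fun v => ?_) (fun v => ?_)
    (fun x y e => ?_) (fun x y n c => ?_) (fun x y n c => ?_) (by omega) (by omega) (by omega)⟩ <;>
    simp only at *
  · by_cases ex : A z x <;> by_cases ey : A z y
    · rcases R1 y ey with ⟨⟨u, k1, k2⟩, j⟩ | ⟨-, j⟩
      swap
      · exact j ▸ (R2 x ex).1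
      have o : ρ.L y ≤ ρ.L x := not_lt.1 fun o => by
        have := mo x y o
        rcases L1 y ey with ⟨⟨u, i1, i2⟩, i⟩ | ⟨-, i⟩ <;> rcases L1 x ex with ⟨-, i'⟩ | ⟨i3, i'⟩
        · linarith
        · linarith [i3 u i1]
        · linarith [(L2 x ex).1]
        · linarith
      rcases R1 x ex with ⟨-, i⟩ | ⟨i, -⟩
      exacts [by linarith, by linarith [i u k1]]
    · rcases sd y ey with j | j <;>
        linarith [j.1, L0 y ey, R0 y ey, (L2 x ex).1, (R2 x ex).1, lp y, pq y, qr y]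
    · rcases sd x ex with j | j <;> linarith [j.2, L0 x ex, R0 x ex, (L2 y ey).2.2, (R2 y ey).2.2]
    · rw [L0 x ex, L0 y ey] at k
      rw [R0 x ex, R0 y ey]
      exact mo x y k
  · by_cases e : A z v
    exacts [(L2 v e).2.1, by linarith [L0 v e, (p0 v e).1, lp v]]
  · by_cases e : A z v
    · rcases p1 v e with ⟨j, j1, j2⟩ | ⟨j, j1, j2⟩
      exacts [by linarith [pq v], by linarith [min_le_right (ρ.p v) P, le_max_right (ρ.q v) Q]]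
    · linarith [(p0 v e).1, (p0 v e).2, pq v]
  · by_cases e : A z v
    exacts [(R2 v e).2.1, by linarith [R0 v e, (p0 v e).2, qr v]]
  · obtain ⟨e1, e2⟩ := h.arc x y e
    by_cases ex : A z x
    · have ey := hm.2.1 x y ex e
      rcases p1 y ey with ⟨j, j1, j2⟩ | ⟨j, j1, j2⟩
      · constructor
        · rcases L1 x ex with ⟨-, i⟩ | ⟨-, i⟩ <;> linarith [Q1 y j, pq y]
        · rcases R1 x ex with ⟨-, i⟩ | ⟨-, i⟩ <;> linarith [P1 y j, pq y]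
      · exact ⟨by linarith [le_max_right (ρ.q y) Q, (L2 x ex).2.2],
          by linarith [min_le_right (ρ.p y) P, (R2 x ex).2.2]⟩
    · rw [L0 x ex, R0 x ex]
      by_cases ey : A z y
      · rcases p1 y ey with ⟨j, -⟩ | ⟨j, j1, j2⟩
        · exact absurd e (j.2 x ex)
        · exact ⟨by linarith [le_max_left (ρ.q y) Q], by linarith [min_le_left (ρ.p y) P]⟩
      · exact ⟨(p0 y ey).2 ▸ e1, (p0 y ey).1 ▸ e2⟩
  · by_cases ex : A z x <;> by_cases ey : A z y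
    · have k := h.zr x y n (by simpa [fl_in ex ey] using c)
      rcases p1 y ey with ⟨j, j1, j2⟩ | ⟨j, -⟩
      · rcases R1 x ex with ⟨-, i⟩ | ⟨i, -⟩
        exacts [by linarith, by linarith [i y ey]]
      · exact absurd (hm.nn ex ey n).2 j
    all_goals have k := h.zl x y n ((fl_out (by tauto)).symm.trans c)
    · rcases sd y ey with j | j <;> linarith [j.1, (p0 y ey).1, (R2 x ex).1, pq y, l1 x ex, h.lr x]
    · rw [R0 x ex]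
      rcases sd x ex with i | i <;> rcases p1 y ey with ⟨j, j1, -⟩ | ⟨-, j1, -⟩
      exacts [by linarith [Q1 y j, i.2], j1 ▸ lt_min k i.2,
        by linarith [i.1, r1 y ey, pq x, qr x, pq y, qr y],
        by linarith [i.1, r1 y ey, pq x, qr x, pq y, qr y]]
    · linarith [R0 x ex, (p0 y ey).1]
  · by_cases ex : A z x <;> by_cases ey : A z y
    · have k := h.zl x y n (by simpa [fl_in ex ey] using c)
      rcases p1 y ey with ⟨j, j1, j2⟩ | ⟨j, -⟩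
      · rcases L1 x ex with ⟨-, i⟩ | ⟨i, -⟩
        exacts [by linarith, by linarith [i y ey]]
      · exact absurd (hm.nn ex ey n).2 j
    all_goals have k := h.zr x y n ((fl_out (by tauto)).symm.trans c)
    · rcases sd y ey with j | j <;> linarith [j.1, (p0 y ey).2, (L2 x ex).1, pq y, r1 x ex, h.lr x]
    · rw [L0 x ex]
      rcases sd x ex with i | i <;> rcases p1 y ey with ⟨j, -, j1⟩ | ⟨-, -, j1⟩
      exacts [by linarith [i.1, l1 y ey, pq x, lp x, pq y, lp y],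
        by linarith [i.1, l1 y ey, pq x, lp x, pq y, lp y], by linarith [P1 y j, i.2],
        j1 ▸ max_lt k i.2]
    · linarith [L0 x ex, (p0 y ey).2]

theorem Cls.two (hc : Conn A) (r0 : Resp 2 A χ0) (h : Cls 2 2 2 A) : Rep 2 2 2 A χ0 :=
  fix_all' hc (by omega) r0 h fun _ _ h _ d => h.flip2 d.1

theorem Cls.one (hc : Conn A) (r0 : Resp 2 A χ0) (h : Cls 1 2 2 A) : Rep 1 2 2 A χ0 :=
  let ⟨χ, ρ, h⟩ := h
  (Cls.two hc r0 ⟨χ, ρ, { h with pl := fun _ => h.pl (by omega), pr := fun _ => h.pr (by omega), un := by omega }⟩).unit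

end Pool.Agent.Lib.MP_7285af_lc
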