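import Mathlib

/-! The digraph attached to a list of items, and its representations. -/

namespace Pool.Agent.Lib.MP_7285af_lc

/-- base, level, range of bases seen, range of levels seen -/
abbrev VD := ℤ × ℤ × ℤ × ℤ × ℤ × ℤ

def Arc (s t : VD) : Prop :=
  s.2.2.1 ≤ t.1 ∧ t.1 ≤ s.2.2.2.1 ∧ s.2.2.2.2.1 ≤ t.2.1 ∧ t.2.1 ≤ s.2.2.2.2.2

instance (s t : VD) : Decidable (Arc s t) := by unfold Arc; infer_instance

/-- module base, lower pair, upper pair, wing -/
abbrev Item := ℤ × ℤ × ℤ × ℤ × ℤ × Bool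

def vx (t : Item) : VD := (t.1, bif t.2.2.2.2.2 then 2 else -2, t.2.1 + 1, t.2.2.1, -2, 2)
def vy (t : Item) : VD := (t.1, 0, t.2.2.2.1, t.2.2.2.2.1 - 1, -2, 2)
def loc (z l r : ℤ) : VD := (z, l, z, z, l - r, l + r)
def big (z W : ℤ) : VD := (z, 0, z - W, z + W, -2, 2)

def vertsOf (H G W : ℤ) (t : Item) : List VD :=
  [vx t, vy t, loc t.1 (-2) 0, loc t.1 (-1) 1, loc t.1 1 1, loc t.1 2 0,
    loc t.2.1 0 0, loc t.2.2.1 0 0, loc t.2.2.2.1 0 0, loc t.2.2.2.2.1 0 0, big G W, big H W]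

def verts (H G W : ℤ) (I : List Item) : List VD := I.flatMap (vertsOf H G W)

def WF (H G W : ℤ) (t : Item) : Prop :=
  H - W ≤ t.2.1 ∧ t.2.1 ≤ H ∧ H - W ≤ t.2.2.2.1 ∧ t.2.2.2.1 ≤ H ∧ H < t.1 ∧ t.1 < G ∧
    G ≤ t.2.2.1 ∧ t.2.2.1 ≤ G + W ∧ G ≤ t.2.2.2.2.1 ∧ t.2.2.2.2.1 ≤ G + W ∧
    t.2.1 + t.2.2.1 = 2 * t.1 ∧ t.2.2.2.1 + t.2.2.2.2.1 = 2 * t.1 ∧ W < G - H

theorem mem_verts {H G W : ℤ} {I : List Item} {t : Item} (ht : t ∈ I) {s : VD}
    (hs : s ∈ vertsOf H G W t) : s ∈ verts H G W I := List.mem_flatMap.2 ⟨t, ht, hs⟩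

theorem only_if_aux {H G W : ℤ} {I : List Item} (hI : ∀ t ∈ I, WF H G W t) (L R p q : VD → ℝ)
    (harc : ∀ s ∈ verts H G W I, ∀ t ∈ verts H G W I, Arc s t ↔ L s ≤ q t ∧ p t ≤ R s)
    (htol : ∀ s ∈ verts H G W I, p s + q s = L s + R s) (hgh : q (big H W) < L (big G W)) :
    ∃ (Q P : ℤ → ℝ) (e : ℤ → Bool), ∀ t ∈ I, t.2.2.2.2.2 = e t.1 →
      Q t.2.1 + P t.2.2.1 < Q t.2.2.2.1 + P t.2.2.2.2.1 := by
  classical
  have yes : ∀ s ∈ verts H G W I, ∀ t ∈ verts H G W I, Arc s t → L s ≤ q t ∧ p t ≤ R s :=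
    fun s hs t ht h => (harc s hs t ht).1 h
  have no : ∀ s ∈ verts H G W I, ∀ t ∈ verts H G W I, ¬ Arc s t → q t < L s ∨ R s < p t := by
    intro s hs t ht h
    rw [harc s hs t ht] at h
    by_contra hn
    push Not at hn
    exact h hn
  have mod : ∀ t1 ∈ I, ∀ t2 ∈ I, t1.1 = t2.1 → t1.2.2.2.2.2 = true → t2.2.2.2.2.2 = false →
      p (vx t1) + q (vx t1) < p (vy t1) + q (vy t1) ∨
        p (vx t2) + q (vx t2) < p (vy t2) + q (vy t2) := by
    rintro ⟨μ, a, b, c, d, σ⟩ h1 ⟨μ', a', b', c', d', σ'⟩ h2 e1 e2 e3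
    simp only at e1 e2 e3
    subst e1 e2 e3
    have m1 := fun s hs => mem_verts (H := H) (G := G) (W := W) h1 (s := s) hs
    have m2 := fun s hs => mem_verts (H := H) (G := G) (W := W) h2 (s := s) hs
    have x1 := m1 (vx (μ, a, b, c, d, true)) (by simp [vertsOf])
    have y1 := m1 (vy (μ, a, b, c, d, true)) (by simp [vertsOf])
    have x2 := m2 (vx (μ, a', b', c', d', false)) (by simp [vertsOf])
    have y2 := m2 (vy (μ, a', b', c', d', false)) (by simp [vertsOf])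
    have w1 := m1 (loc μ (-2) 0) (by simp [vertsOf])
    have z1 := m1 (loc μ (-1) 1) (by simp [vertsOf])
    have z2 := m1 (loc μ 1 1) (by simp [vertsOf])
    have w2 := m1 (loc μ 2 0) (by simp [vertsOf])
    have a1 := yes _ z1 _ x2 (by simp [Arc, loc, vx])
    have a2 := yes _ z1 _ y1 (by simp [Arc, loc, vy])
    have a3 := yes _ z2 _ x1 (by simp [Arc, loc, vx])
    have a4 := yes _ z2 _ y2 (by simp [Arc, loc, vy])
    have a5 := yes _ w1 _ x2 (by simp [Arc, loc, vx])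
    have a6 := yes _ w2 _ x1 (by simp [Arc, loc, vx])
    have n1 := no _ z1 _ x1 (by simp [Arc, loc, vx])
    have n2 := no _ z2 _ x2 (by simp [Arc, loc, vx])
    have n3 := no _ w1 _ y2 (by simp [Arc, loc, vy])
    have n4 := no _ w2 _ y1 (by simp [Arc, loc, vy])
    rcases n1 with n1 | n1
    · left
      rcases n4 with n4 | n4 <;> linarith [a1.1, a2.1, a6.1, a6.2]
    · right
      rcases n2 with n2 | n2
      · rcases n3 with n3 | n3 <;> linarith [a4.1, a5.1, a5.2]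
      · linarith [a1.2, a3.2]
  have fin : ∀ t ∈ I, p (vx t) + q (vx t) < p (vy t) + q (vy t) →
      q (loc t.2.1 0 0) + p (loc t.2.2.1 0 0) <
        q (loc t.2.2.2.1 0 0) + p (loc t.2.2.2.2.1 0 0) := by
    rintro ⟨μ, a, b, c, d, σ⟩ h1 hlt
    have hw := hI _ h1
    simp only [WF] at hw
    have m1 := fun s hs => mem_verts (H := H) (G := G) (W := W) h1 (s := s) hs
    have x1 := m1 (vx (μ, a, b, c, d, σ)) (by simp [vertsOf])
    have y1 := m1 (vy (μ, a, b, c, d, σ)) (by simp [vertsOf])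
    have pa := m1 (loc a 0 0) (by simp [vertsOf])
    have pb := m1 (loc b 0 0) (by simp [vertsOf])
    have pc := m1 (loc c 0 0) (by simp [vertsOf])
    have pd := m1 (loc d 0 0) (by simp [vertsOf])
    have g := m1 (big G W) (by simp [vertsOf])
    have h := m1 (big H W) (by simp [vertsOf])
    have a1 := yes _ g _ g (by simp only [Arc, big]; omega)
    have a2 := yes _ h _ h (by simp only [Arc, big]; omega)
    have a3 := yes _ x1 _ g (by simp only [Arc, big, vx]; omega)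
    have a4 := yes _ y1 _ h (by simp only [Arc, big, vy]; omega)
    have a5 := yes _ h _ pa (by simp only [Arc, big, loc]; omega)
    have a6 := yes _ g _ pd (by simp only [Arc, big, loc]; omega)
    have a7 := yes _ x1 _ pb (by simp only [Arc, vx, loc]; omega)
    have a8 := yes _ y1 _ pc (by simp only [Arc, vy, loc]; omega)
    have n1 := no _ h _ g (by simp only [Arc, big]; omega)
    have n2 := no _ x1 _ pa (by simp only [Arc, vx, loc]; omega)
    have n3 := no _ y1 _ pd (by simp only [Arc, vy, loc]; omega)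
    have t1 := htol _ x1
    have t2 := htol _ y1
    have k1 : R (big H W) < p (big G W) := by
      rcases n1 with n1 | n1 <;> linarith [a1.1, a2.1]
    have k2 : q (loc a 0 0) < L (vx (μ, a, b, c, d, σ)) := by
      rcases n2 with n2 | n2 <;> linarith [a3.2, a5.2]
    have k3 : R (vy (μ, a, b, c, d, σ)) < p (loc d 0 0) := by
      rcases n3 with n3 | n3 <;> linarith [a4.1, a6.1]
    simp only
    linarith [a7.2, a8.1]
  refine ⟨fun z => q (loc z 0 0), fun z => p (loc z 0 0), fun z => decide (∀ t ∈ I, t.1 = z →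
    t.2.2.2.2.2 = true → p (vx t) + q (vx t) < p (vy t) + q (vy t)), fun t ht e => fin t ht ?_⟩
  cases hσ : t.2.2.2.2.2
  · rw [hσ, eq_comm, decide_eq_false_iff_not] at e
    push Not at e
    obtain ⟨t1, h1, e1, e2, e3⟩ := e
    exact (mod t1 h1 t ht e1 e2 hσ).resolve_left (not_lt.2 e3)
  · rw [hσ, eq_comm, decide_eq_true_eq] at e
    exact e t ht rfl hσ

theorem only_if {H G W : ℤ} {I : List Item} (hI : ∀ t ∈ I, WF H G W t) (L R p q : VD → ℝ)
    (harc : ∀ s ∈ verts H G W I, ∀ t ∈ verts H G W I, Arc s t ↔ L s ≤ q t ∧ p t ≤ R s)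
    (htol : ∀ s ∈ verts H G W I, p s + q s = L s + R s) :
    ∃ (Q P : ℤ → ℝ) (e : ℤ → Bool), ∀ t ∈ I, t.2.2.2.2.2 = e t.1 →
      Q t.2.1 + P t.2.2.1 < Q t.2.2.2.1 + P t.2.2.2.2.1 := by
  rcases I with _ | ⟨t0, I'⟩
  · exact ⟨0, 0, fun _ => true, by simp⟩
  have h0 : t0 ∈ t0 :: I' := List.mem_cons_self
  have g := mem_verts (H := H) (G := G) (W := W) h0 (s := big G W) (by simp [vertsOf])
  have h := mem_verts (H := H) (G := G) (W := W) h0 (s := big H W) (by simp [vertsOf])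
  have hw := hI _ h0
  simp only [WF] at hw
  have n1 : ¬ Arc (big G W) (big H W) := by simp only [Arc, big]; omega
  rw [harc _ g _ h] at n1
  by_cases hc : q (big H W) < L (big G W)
  · exact only_if_aux hI L R p q harc htol hc
  · refine only_if_aux hI (fun s => -R s) (fun s => -L s) (fun s => -q s) (fun s => -p s)
      (fun s hs t ht => ?_) (fun s hs => by linarith [htol s hs]) ?_
    · rw [harc s hs t ht, neg_le_neg_iff, neg_le_neg_iff, and_comm]
    · by_contra hn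
      exact n1 ⟨not_lt.1 hc, by linarith⟩

/-- offset of a level in an oriented module -/
def off (e : Bool) (l : ℤ) : ℤ :=
  if (bif e then -l else l) ≤ 0 then (bif e then -l else l) else 10 * (bif e then -l else l)

theorem if_dir {H G W : ℤ} {I : List Item} (hI : ∀ t ∈ I, WF H G W t) (θ : ℤ → ℤ) (e : ℤ → Bool)
    (hθ : ∀ z, -35 ≤ θ z ∧ θ z ≤ 35)
    (h1 : ∀ t ∈ I, θ t.2.1 + θ t.2.2.1 < 2 * (θ t.1 + if t.2.2.2.2.2 = e t.1 then -2 else 20))
    (h2 : ∀ t ∈ I, 2 * θ t.1 < θ t.2.2.2.1 + θ t.2.2.2.2.1) :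
    ∃ c r : VD → ℤ, ∀ s ∈ verts H G W I, 0 ≤ r s ∧ ∀ t ∈ verts H G W I,
      (Arc s t ↔ c s - r s ≤ c t ∧ c t ≤ c s + r s) := by
  let c : VD → ℤ := fun s => 256 * s.1 + θ s.1 + off (e s.1) s.2.1
  suffices h : ∀ s, ∃ r, s ∈ verts H G W I → 0 ≤ r ∧ ∀ t ∈ verts H G W I,
      (Arc s t ↔ c s - r ≤ c t ∧ c t ≤ c s + r) by
    choose r hr using h
    exact ⟨c, r, hr⟩
  have tgt : ∀ t ∈ verts H G W I, (t.2.1 = -2 ∨ t.2.1 = -1 ∨ t.2.1 = 0 ∨ t.2.1 = 1 ∨ t.2.1 = 2) ∧
      (t.1 ≤ H ∨ G ≤ t.1 → t.2.1 = 0) := by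
    intro s hs
    obtain ⟨⟨μ, a, b, c, d, σ⟩, ht, hs⟩ := List.mem_flatMap.1 hs
    have hw := hI _ ht
    simp only [WF] at hw
    simp only [vertsOf, List.mem_cons, List.not_mem_nil, or_false] at hs
    rcases hs with rfl | rfl | rfl | rfl | rfl | rfl | rfl | rfl | rfl | rfl | rfl | rfl <;>
      cases σ <;> dsimp only [vx, vy, loc, big, cond] <;> omega
  have off0 : ∀ b, off b 0 = 0 := fun b => by cases b <;> rfl
  have offb : ∀ t ∈ verts H G W I, -2 ≤ off (e t.1) t.2.1 ∧ off (e t.1) t.2.1 ≤ 20 := by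
    intro t ht
    rcases (tgt t ht).1 with h | h | h | h | h <;> rw [h] <;> cases e t.1 <;> decide
  have hloc : ∀ z l r ρ : ℤ, 0 ≤ ρ → ρ ≤ 10 → loc z l r ∈ verts H G W I →
      (∀ l' : ℤ, (l' = -2 ∨ l' = -1 ∨ l' = 0 ∨ l' = 1 ∨ l' = 2) → (l - r ≤ l' ∧ l' ≤ l + r ↔
        off (e z) l - ρ ≤ off (e z) l' ∧ off (e z) l' ≤ off (e z) l + ρ)) →
      ∀ t ∈ verts H G W I, (Arc (loc z l r) t ↔
        c (loc z l r) - ρ ≤ c t ∧ c t ≤ c (loc z l r) + ρ) := by
    intro z l r ρ r0 r1 hs h t ht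
    have b1 := offb _ hs
    have b2 := offb _ ht
    have b3 := hθ z
    have b4 := hθ t.1
    have b5 := h _ (tgt t ht).1
    simp only [Arc, loc, c] at b1 ⊢
    by_cases hz : t.1 = z
    · rw [hz] at b2 ⊢
      omega
    · omega
  have hbig : ∀ z : ℤ, 0 ≤ W → ∀ t ∈ verts H G W I, (Arc (big z W) t ↔
      c (big z W) - (256 * W + 128) ≤ c t ∧ c t ≤ c (big z W) + (256 * W + 128)) := by
    intro z hW t ht
    have b2 := offb _ ht
    have b3 := hθ z
    have b4 := hθ t.1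
    have b5 := (tgt t ht).1
    simp only [Arc, big, c, off0]
    omega
  intro s
  by_cases hs : s ∈ verts H G W I
  swap
  · exact ⟨0, fun h => absurd h hs⟩
  obtain ⟨⟨μ, a, b, c', d, σ⟩, ht, hs'⟩ := List.mem_flatMap.1 hs
  have hw := hI _ ht
  simp only [WF] at hw
  simp only [vertsOf, List.mem_cons, List.not_mem_nil, or_false] at hs'
  have pt : ∀ z, loc z 0 0 ∈ verts H G W I → ∃ r, loc z 0 0 ∈ verts H G W I → 0 ≤ r ∧
      ∀ t ∈ verts H G W I, (Arc (loc z 0 0) t ↔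
        c (loc z 0 0) - r ≤ c t ∧ c t ≤ c (loc z 0 0) + r) := fun z hz =>
    ⟨0, fun _ => ⟨le_rfl, hloc z 0 0 0 le_rfl (by norm_num) hz (by
      rintro l' (rfl | rfl | rfl | rfl | rfl) <;> cases e z <;> decide)⟩⟩
  rcases hs' with rfl | rfl | rfl | rfl | rfl | rfl | rfl | rfl | rfl | rfl | rfl | rfl
  · have k := h1 _ ht
    have k2 : off (e μ) (bif σ then 2 else -2) = if σ = e μ then -2 else 20 := by
      cases σ <;> cases e μ <;> rfl
    have b1 := offb _ hs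
    have b3 := hθ μ
    have b6 := hθ a
    have b7 := hθ b
    simp only [vx] at b1 k
    rw [← k2] at k
    refine ⟨256 * b + θ b - c (vx (μ, a, b, c', d, σ)), fun _ => ⟨?_, fun t ht => ?_⟩⟩
    · simp only [c, vx]
      omega
    · have b2 := offb _ ht
      have b4 := hθ t.1
      have b5 := tgt t ht
      simp only [Arc, vx, c]
      by_cases ha : t.1 = a
      · rw [b5.2 (by omega), off0, ha]
        omega
      by_cases hb : t.1 = b
      · rw [b5.2 (by omega), off0, hb]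
        omega
      omega
  · have k := h2 _ ht
    have b3 := hθ μ
    have b6 := hθ c'
    have b7 := hθ d
    simp only at k
    refine ⟨c (vy (μ, a, b, c', d, σ)) - (256 * c' + θ c'), fun _ => ⟨?_, fun t ht => ?_⟩⟩
    · simp only [c, vy, off0]
      omega
    · have b2 := offb _ ht
      have b4 := hθ t.1
      have b5 := tgt t ht
      simp only [Arc, vy, c, off0]
      by_cases ha : t.1 = c'
      · rw [b5.2 (by omega), off0, ha]
        omega
      by_cases hb : t.1 = d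
      · rw [b5.2 (by omega), off0, hb]
        omega
      omega
  · exact ⟨0, fun _ => ⟨le_rfl, hloc μ _ _ 0 le_rfl (by norm_num) hs (by
      rintro l' (rfl | rfl | rfl | rfl | rfl) <;> cases e μ <;> decide)⟩⟩
  · exact ⟨bif e μ then 10 else 1, fun _ => ⟨by cases e μ <;> decide, hloc μ _ _ _
      (by cases e μ <;> decide) (by cases e μ <;> decide) hs (by
      rintro l' (rfl | rfl | rfl | rfl | rfl) <;> cases e μ <;> decide)⟩⟩
  · exact ⟨bif e μ then 1 else 10, fun _ => ⟨by cases e μ <;> decide, hloc μ _ _ _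
      (by cases e μ <;> decide) (by cases e μ <;> decide) hs (by
      rintro l' (rfl | rfl | rfl | rfl | rfl) <;> cases e μ <;> decide)⟩⟩
  · exact ⟨0, fun _ => ⟨le_rfl, hloc μ _ _ 0 le_rfl (by norm_num) hs (by
      rintro l' (rfl | rfl | rfl | rfl | rfl) <;> cases e μ <;> decide)⟩⟩
  · exact pt _ hs
  · exact pt _ hs
  · exact pt _ hs
  · exact pt _ hs
  · exact ⟨256 * W + 128, fun _ => ⟨by omega, hbig _ (by omega)⟩⟩
  · exact ⟨256 * W + 128, fun _ => ⟨by omega, hbig _ (by omega)⟩⟩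

end Pool.Agent.Lib.MP_7285af_lc
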