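import Pool.Agent.Lib.MP_7285af_lc.Gadget
import Pool.Agent.Lib.Complexity.CookLevin

/-! The items attached to a formula with three literals per clause. -/

namespace Pool.Agent.Lib.MP_7285af_lc

open Pool.Agent.Lib.Complexity

def occItems (Z N o : ℤ) (l : ℕ × Bool) (o' : ℤ) (l' : ℕ × Bool) : List Item :=
  [(Z + N * l.1, 2 * o + 1, 2 * (Z + N * l.1) - 2 * o - 1, 2 * o, 2 * (Z + N * l.1) - 2 * o, l.2),
   (Z + N * l'.1 + (o - o'), 2 * o, 2 * (Z + N * l'.1) - 2 * o', 2 * o + 1,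
      2 * (Z + N * l'.1) - 2 * o' - 1, true),
   (Z + N * l'.1 + (o - o'), 2 * o, 2 * (Z + N * l'.1) - 2 * o', 2 * o + 1,
      2 * (Z + N * l'.1) - 2 * o' - 1, false)]

def clauseItems (Z N j : ℤ) (c : Clause) : List Item :=
  occItems Z N (3 * j) (c.getD 0 (0, true)) (3 * j + 1) (c.getD 1 (0, true)) ++
  occItems Z N (3 * j + 1) (c.getD 1 (0, true)) (3 * j + 2) (c.getD 2 (0, true)) ++
  occItems Z N (3 * j + 2) (c.getD 2 (0, true)) (3 * j) (c.getD 0 (0, true))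

def pM (φ : CNF) : ℤ := 3 * (φ.length : ℤ)
def pN (φ : CNF) : ℤ := pM φ + 3
def pX (φ : CNF) : ℤ := pN φ * (φ.top : ℤ)
def pZ (φ : CNF) : ℤ := pX φ + 3 * pM φ + 4
def pH (φ : CNF) : ℤ := 2 * pM φ
def pG (φ : CNF) : ℤ := 2 * pZ φ - 2 * pM φ - 1
def pW (φ : CNF) : ℤ := 2 * pX φ + 2 * pM φ + 1

def items (φ : CNF) : List Item :=
  φ.zipIdx.flatMap fun x => clauseItems (pZ φ) (pN φ) x.2 x.1

def satVerts (φ : CNF) : List VD := verts (pH φ) (pG φ) (pW φ) (items φ)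

theorem pt_satVerts : PT satVerts := by
  have hM : PT pM := by unfold pM; fun_prop
  have hN : PT pN := by unfold pN; fun_prop
  have hX : PT pX := by have := pt_top; unfold pX; fun_prop
  have hZ : PT pZ := by unfold pZ; fun_prop
  have hH : PT pH := by unfold pH; fun_prop
  have hG : PT pG := by unfold pG; fun_prop
  have hW : PT pW := by unfold pW; fun_prop
  have hO : PT (fun x : ℤ × ℤ × ℤ × (ℕ × Bool) × ℤ × (ℕ × Bool) =>
      occItems x.1 x.2.1 x.2.2.1 x.2.2.2.1 x.2.2.2.2.1 x.2.2.2.2.2) := by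
    unfold occItems; fun_prop
  have hC : PT (fun x : ℤ × ℤ × ℤ × Clause => clauseItems x.1 x.2.1 x.2.2.1 x.2.2.2) := by
    unfold clauseItems
    refine PT.append (PT.append ?_ ?_) ?_
    · exact hO.comp (f := fun x : ℤ × ℤ × ℤ × Clause => (x.1, x.2.1, 3 * x.2.2.1,
        x.2.2.2.getD 0 (0, true), 3 * x.2.2.1 + 1, x.2.2.2.getD 1 (0, true))) (by fun_prop)
    · exact hO.comp (f := fun x : ℤ × ℤ × ℤ × Clause => (x.1, x.2.1, 3 * x.2.2.1 + 1,
        x.2.2.2.getD 1 (0, true), 3 * x.2.2.1 + 2, x.2.2.2.getD 2 (0, true))) (by fun_prop)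
    · exact hO.comp (f := fun x : ℤ × ℤ × ℤ × Clause => (x.1, x.2.1, 3 * x.2.2.1 + 2,
        x.2.2.2.getD 2 (0, true), 3 * x.2.2.1, x.2.2.2.getD 0 (0, true))) (by fun_prop)
  have hI : PT items := by
    unfold items
    exact PT.flatMap (by fun_prop) (hC.comp (f := fun x : CNF × (Clause × ℕ) =>
      (pZ x.1, pN x.1, (x.2.2 : ℤ), x.2.1)) (by fun_prop))
  have hV : PT (fun x : (ℤ × ℤ × ℤ) × Item => vertsOf x.1.1 x.1.2.1 x.1.2.2 x.2) := by
    unfold vertsOf vx vy loc big; fun_prop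
  unfold satVerts verts
  exact PT.flatMap hI (hV.comp (f := fun x : CNF × Item => ((pH x.1, pG x.1, pW x.1), x.2))
    (by fun_prop))

theorem mem_items {φ : CNF} (h3 : ∀ c ∈ φ, c.length = 3) {t : Item} (ht : t ∈ items φ) :
    ∃ (j : ℕ) (l0 l1 l2 : ℕ × Bool), φ[j]? = some [l0, l1, l2] ∧ j < φ.length ∧
      l0.1 < φ.top ∧ l1.1 < φ.top ∧ l2.1 < φ.top ∧
      (t ∈ occItems (pZ φ) (pN φ) (3 * j) l0 (3 * j + 1) l1 ∨
      t ∈ occItems (pZ φ) (pN φ) (3 * j + 1) l1 (3 * j + 2) l2 ∨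
      t ∈ occItems (pZ φ) (pN φ) (3 * j + 2) l2 (3 * j) l0) := by
  simp only [items, List.mem_flatMap, Prod.exists, List.mem_zipIdx_iff_getElem?] at ht
  obtain ⟨c, j, hc, ht⟩ := ht
  have hcm : c ∈ φ := List.mem_of_getElem? hc
  obtain ⟨l0, l1, l2, rfl⟩ := List.length_eq_three.1 (h3 c hcm)
  refine ⟨j, l0, l1, l2, hc, (List.getElem?_eq_some_iff.1 hc).1, CNF.lt_top hcm (by simp),
    CNF.lt_top hcm (by simp), CNF.lt_top hcm (by simp), ?_⟩
  simpa only [clauseItems, List.mem_append, or_assoc, List.getD_cons_zero, List.getD_cons_succ]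
    using ht

theorem mul_bound (φ : CNF) {v : ℕ} (hv : v < φ.top) : 0 ≤ pN φ * v ∧ pN φ * v ≤ pX φ := by
  have h : 0 ≤ pN φ := by unfold pN pM; omega
  exact ⟨mul_nonneg h (by omega), mul_le_mul_of_nonneg_left (by omega) h⟩

theorem items_wf {φ : CNF} (h3 : ∀ c ∈ φ, c.length = 3) :
    ∀ t ∈ items φ, WF (pH φ) (pG φ) (pW φ) t := by
  intro t ht
  obtain ⟨j, l0, l1, l2, -, hj, v0, v1, v2, ht⟩ := mem_items h3 ht
  have b0 := mul_bound φ v0
  have b1 := mul_bound φ v1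
  have b2 := mul_bound φ v2
  simp only [occItems, List.mem_cons, List.not_mem_nil, or_false] at ht
  rcases ht with (rfl | rfl | rfl) | (rfl | rfl | rfl) | (rfl | rfl | rfl) <;>
    dsimp only [WF, pH, pG, pW, pZ, pM] <;> omega

theorem sat_of_ineq {φ : CNF} (h3 : ∀ c ∈ φ, c.length = 3) {Q P : ℤ → ℝ} {e : ℤ → Bool}
    (h : ∀ t ∈ items φ, t.2.2.2.2.2 = e t.1 →
      Q t.2.1 + P t.2.2.1 < Q t.2.2.2.1 + P t.2.2.2.2.1) : ∃ v, φ.Sat v := by
  refine ⟨fun v => !e (pZ φ + pN φ * v), fun c hc => ?_⟩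
  obtain ⟨j, hj, rfl⟩ := List.getElem_of_mem hc
  obtain ⟨l0, l1, l2, hl⟩ := List.length_eq_three.1 (h3 _ hc)
  have hs : ∀ t ∈ clauseItems (pZ φ) (pN φ) j [l0, l1, l2], t ∈ items φ := fun t ht =>
    List.mem_flatMap.2 ⟨(φ[j], j), by simp [List.mem_zipIdx_iff_getElem?], by rw [hl]; exact ht⟩
  have occ : ∀ o l o' l', (∀ t ∈ occItems (pZ φ) (pN φ) o l o' l', t ∈ items φ) →
      (!e (pZ φ + pN φ * l.1)) ≠ l.2 →
      Q (2 * o + 1) + P (2 * (pZ φ + pN φ * l.1) - 2 * o - 1) <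
        Q (2 * o) + P (2 * (pZ φ + pN φ * l.1) - 2 * o) ∧
      Q (2 * o) + P (2 * (pZ φ + pN φ * l'.1) - 2 * o') <
        Q (2 * o + 1) + P (2 * (pZ φ + pN φ * l'.1) - 2 * o' - 1) := by
    intro o l o' l' hm hf
    refine ⟨h _ (hm _ List.mem_cons_self) ?_, ?_⟩
    · revert hf
      dsimp only
      cases e (pZ φ + pN φ * l.1) <;> cases l.2 <;> simp
    · cases he : e (pZ φ + pN φ * l'.1 + (o - o'))
      · exact h _ (hm _ (List.mem_cons_of_mem _ (List.mem_cons_of_mem _ List.mem_cons_self)))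
          he.symm
      · exact h _ (hm _ (List.mem_cons_of_mem _ List.mem_cons_self)) he.symm
  rw [hl]
  by_contra hn
  push Not at hn
  have k0 := occ (3 * j) l0 (3 * j + 1) l1 (fun t ht => hs t (by simp [clauseItems, ht]))
    (hn _ (by simp))
  have k1 := occ (3 * j + 1) l1 (3 * j + 2) l2 (fun t ht => hs t (by simp [clauseItems, ht]))
    (hn _ (by simp))
  have k2 := occ (3 * j + 2) l2 (3 * j) l0 (fun t ht => hs t (by simp [clauseItems, ht]))
    (hn _ (by simp))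
  linarith [k0.1, k0.2, k1.1, k1.2, k2.1, k2.2]

theorem exists_theta (φ : CNF) (A B : ℤ → ℤ) (hA : ∀ o, 0 ≤ A o ∧ A o ≤ 35)
    (hB : ∀ o, 0 ≤ B o ∧ B o ≤ 35) (val : ℕ → Bool) :
    ∃ (θ : ℤ → ℤ) (e : ℤ → Bool), (∀ z, -35 ≤ θ z ∧ θ z ≤ 35) ∧
      (∀ o, 0 ≤ o → o < pM φ → θ (2 * o + 1) = A o ∧ θ (2 * o) = 0) ∧
      (∀ o (v : ℕ), 0 ≤ o → o < pM φ → v < φ.top →
        θ (2 * (pZ φ + pN φ * v) - 2 * o - 1) = -B o ∧ θ (2 * (pZ φ + pN φ * v) - 2 * o) = 0) ∧
      (∀ v : ℕ, v < φ.top → θ (pZ φ + pN φ * v) = -1 ∧ e (pZ φ + pN φ * v) = !val v) ∧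
      (∀ (v : ℕ) (d : ℤ), v < φ.top → d = -1 ∨ d = 2 → θ (pZ φ + pN φ * v + d) = 3) := by
  have hM : 0 ≤ pM φ := by unfold pM; omega
  have hN : pN φ = pM φ + 3 := rfl
  have hZ : pZ φ = pX φ + 3 * pM φ + 4 := rfl
  refine ⟨fun z => if z ≤ 2 * pM φ then (if z % 2 = 1 then A (z / 2) else 0) else
      if z < 2 * pZ φ - 2 * pM φ - 1 then (if (z - pZ φ) % pN φ = 0 then -1 else 3) else
      (if z % 2 = 1 then -B (((2 * pZ φ - z - 1) / 2) % pN φ) else 0),
    fun z => !val ((z - pZ φ) / pN φ).toNat, fun z => ?_, fun o h0 h1 => ⟨?_, ?_⟩,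
    fun o v h0 h1 hv => ⟨?_, ?_⟩, fun v hv => ⟨?_, ?_⟩, fun v d hv hd => ?_⟩ <;>
    beta_reduce
  · have := hA (z / 2)
    have := hB (((2 * pZ φ - z - 1) / 2) % pN φ)
    split_ifs <;> omega
  · rw [if_pos (by omega), if_pos (by omega), show (2 * o + 1) / 2 = o by omega]
  · rw [if_pos (by omega), if_neg (by omega)]
  · have := mul_bound φ hv
    rw [if_neg (by omega), if_neg (by omega), if_pos (by omega),
      show (2 * pZ φ - (2 * (pZ φ + pN φ * v) - 2 * o - 1) - 1) / 2 = o - pN φ * v by omega,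
      Int.sub_mul_emod_self_left, Int.emod_eq_of_lt h0 (by omega)]
  · have := mul_bound φ hv
    rw [if_neg (by omega), if_neg (by omega), if_neg (by omega)]
  · have := mul_bound φ hv
    rw [if_neg (by omega), if_pos (by omega), if_pos (by simp)]
  · rw [add_sub_cancel_left, Int.mul_ediv_cancel_left _ (by omega), Int.toNat_natCast]
  · have := mul_bound φ hv
    rw [if_neg (by omega), if_pos (by omega), if_neg]
    rw [show pZ φ + pN φ * v + d - pZ φ = (d + pN φ) + pN φ * (v - 1) by ring,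
      Int.add_mul_emod_self_left]
    rcases hd with rfl | rfl
    · rw [Int.emod_eq_of_lt (by omega) (by omega)]
      omega
    · rw [Int.add_emod_right, Int.emod_eq_of_lt (by omega) (by omega)]
      omega

theorem rep_of_sat {φ : CNF} (h3 : ∀ c ∈ φ, c.length = 3) {val : ℕ → Bool} (hv : φ.Sat val) :
    ∃ c r : VD → ℤ, ∀ s ∈ satVerts φ, 0 ≤ r s ∧ ∀ t ∈ satVerts φ,
      (Arc s t ↔ c s - r s ≤ c t ∧ c t ≤ c s + r s) := by
  have hT : ∀ j : ℕ, ∃ T : ℤ, ∀ l0 l1 l2, φ[j]? = some [l0, l1, l2] →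
      (T = 0 ∧ val l0.1 = l0.2) ∨ (T = 1 ∧ val l1.1 = l1.2) ∨ (T = 2 ∧ val l2.1 = l2.2) := by
    intro j
    by_cases hj : j < φ.length
    · obtain ⟨l0, l1, l2, hl⟩ := List.length_eq_three.1 (h3 _ (List.getElem_mem hj))
      have h1 := hv _ (List.getElem_mem hj)
      rw [List.getElem?_eq_getElem hj, hl]
      rw [hl] at h1
      simp only [List.mem_cons, List.not_mem_nil, or_false, exists_eq_or_imp, exists_eq_left] at h1
      rcases h1 with h1 | h1 | h1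
      · exact ⟨0, fun _ _ _ e => by cases e; exact Or.inl ⟨rfl, h1⟩⟩
      · exact ⟨1, fun _ _ _ e => by cases e; exact Or.inr (Or.inl ⟨rfl, h1⟩)⟩
      · exact ⟨2, fun _ _ _ e => by cases e; exact Or.inr (Or.inr ⟨rfl, h1⟩)⟩
    · exact ⟨0, fun _ _ _ e => absurd (List.getElem?_eq_some_iff.1 e).1 hj⟩
  choose T hT using hT
  let i : ℤ → ℤ := fun o => (o - T (o / 3).toNat) % 3
  obtain ⟨θ, e, hb, e1, e2, e3, e4⟩ := exists_theta φ (fun o => 35 - 14 * i o)
    (fun o => if i o = 0 then 0 else 42 - 14 * i o) (fun o => by simp only [i]; omega)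
    (fun o => by simp only [i]; split_ifs <;> omega) val
  have occ : ∀ (o : ℤ) (l : ℕ × Bool) (o' : ℤ) (l' : ℕ × Bool), 0 ≤ o → o < pM φ → 0 ≤ o' →
      o' < pM φ → l.1 < φ.top → l'.1 < φ.top → (o - o' = -1 ∨ o - o' = 2) →
      (i o = 0 → val l.1 = l.2) → i o' = (i o + 1) % 3 →
      ∀ t ∈ occItems (pZ φ) (pN φ) o l o' l',
        θ t.2.1 + θ t.2.2.1 < 2 * (θ t.1 + if t.2.2.2.2.2 = e t.1 then -2 else 20) ∧
        2 * θ t.1 < θ t.2.2.2.1 + θ t.2.2.2.2.1 := by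
    intro o l o' l' h0 h1 h0' h1' hl hl' hd hi hi' t ht
    have a1 := e1 o h0 h1
    have a2 := e2 o l.1 h0 h1 hl
    have a3 := e2 o' l'.1 h0' h1' hl'
    have a4 := e3 l.1 hl
    have a5 := e4 l'.1 _ hl' hd
    have a6 : 0 ≤ i o ∧ i o < 3 := by simp only [i]; omega
    simp only [occItems, List.mem_cons, List.not_mem_nil, or_false] at ht
    rcases ht with rfl | rfl | rfl
    · dsimp only
      rw [a1.1, a1.2, a2.1, a2.2, a4.1, a4.2]
      by_cases h : i o = 0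
      · rw [hi h, if_pos h, if_neg (by cases l.2 <;> simp)]
        omega
      · split_ifs <;> omega
    · dsimp only
      rw [a1.1, a1.2, a3.1, a3.2, a5]
      split_ifs <;> omega
    · dsimp only
      rw [a1.1, a1.2, a3.1, a3.2, a5]
      split_ifs <;> omega
  have all : ∀ t ∈ items φ,
      θ t.2.1 + θ t.2.2.1 < 2 * (θ t.1 + if t.2.2.2.2.2 = e t.1 then -2 else 20) ∧
        2 * θ t.1 < θ t.2.2.2.1 + θ t.2.2.2.2.1 := by
    intro t ht
    obtain ⟨j, l0, l1, l2, hc, hj, v0, v1, v2, ht⟩ := mem_items h3 ht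
    have hTj := hT j l0 l1 l2 hc
    have i0 : i (3 * j) = (3 * j - T j) % 3 := by
      simp only [i]; rw [show ((3 * j : ℤ) / 3).toNat = j by omega]
    have i1 : i (3 * j + 1) = (3 * j + 1 - T j) % 3 := by
      simp only [i]; rw [show ((3 * j + 1 : ℤ) / 3).toNat = j by omega]
    have i2 : i (3 * j + 2) = (3 * j + 2 - T j) % 3 := by
      simp only [i]; rw [show ((3 * j + 2 : ℤ) / 3).toNat = j by omega]
    have hM : pM φ = 3 * (φ.length : ℤ) := rfl
    rcases ht with ht | ht | ht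
    · refine occ _ _ _ _ (by omega) (by omega) (by omega) (by omega) v0 v1 (by omega) (fun h => ?_)
        (by omega) t ht
      rcases hTj with h' | h' | h'
      exacts [h'.2, by omega, by omega]
    · refine occ _ _ _ _ (by omega) (by omega) (by omega) (by omega) v1 v2 (by omega) (fun h => ?_)
        (by omega) t ht
      rcases hTj with h' | h' | h'
      exacts [by omega, h'.2, by omega]
    · refine occ _ _ _ _ (by omega) (by omega) (by omega) (by omega) v2 v0 (by omega) (fun h => ?_)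
        (by omega) t ht
      rcases hTj with h' | h' | h'
      exacts [by omega, by omega, h'.2]
  exact if_dir (items_wf h3) θ e hb (fun t ht => (all t ht).1) (fun t ht => (all t ht).2)

theorem sat_of_rep {φ : CNF} (h3 : ∀ c ∈ φ, c.length = 3) (L R p q : VD → ℝ)
    (harc : ∀ s ∈ satVerts φ, ∀ t ∈ satVerts φ, Arc s t ↔ L s ≤ q t ∧ p t ≤ R s)
    (htol : ∀ s ∈ satVerts φ, p s + q s = L s + R s) : ∃ v, φ.Sat v := by
  obtain ⟨Q, P, e, h⟩ := only_if (items_wf h3) L R p q harc htol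
  exact sat_of_ineq h3 h

end Pool.Agent.Lib.MP_7285af_lc
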