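import Pool.Agent.Lib.MP_7285af_lc.Defs
import Pool.Agent.Lib.MP_7285af_lc.Sat

/-! Hardness of five classes. -/

namespace Pool.Agent.Lib.MP_7285af_lc

open Pool.Agent.Lib.Complexity N487b59b3 N68a2faeb N793a5b8e

def mat {n : ℕ} (A : Fin n → Fin n → Bool) : List (List Bool) :=
  List.ofFn fun x => List.ofFn fun y => A x y

theorem mat_inj {n n' : ℕ} {A : Fin n → Fin n → Bool} {A' : Fin n' → Fin n' → Bool}
    (h : mat A = mat A') : ∃ e : n = n', ∀ x y, A x y = A' (x.cast e) (y.cast e) := by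
  have e : n = n' := by simpa [mat] using congrArg List.length h
  subst e
  refine ⟨rfl, fun x y => ?_⟩
  have h1 := congrFun (List.ofFn_injective h) x
  exact congrFun (List.ofFn_injective h1) y

theorem lang_mat (a b t : ℕ) {n : ℕ} (A : Fin n → Fin n → Bool) :
    lang a b t (bitEncode (mat A)) = true ↔ InClass a b t A := by
  simp only [lang, decide_eq_true_eq]
  refine ⟨?_, fun h => ⟨n, A, rfl, h⟩⟩
  rintro ⟨n', A', e, h⟩
  obtain ⟨rfl, e'⟩ := mat_inj (bitEncode_injective e)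
  rwa [show A = A' from funext fun x => funext fun y => e' x y]

def relMat {α : Type} (V : List α) (f : α → α → Bool) : Fin V.length → Fin V.length → Bool :=
  fun x y => f V[x] V[y]

theorem mat_relMat {α : Type} (V : List α) (f : α → α → Bool) :
    mat (relMat V f) = V.map fun s => V.map fun t => f s t := by
  apply List.ext_getElem (by simp [mat])
  intro i h1 h2
  apply List.ext_getElem (by simp [mat])
  intro j h3 h4
  simp [mat, relMat]

theorem down_mat (M : List (List Bool)) : (Rep.down M : List (List Bool)) = M := by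
  rw [down_list, show (Rep.down : Str → Str) = id from funext down_str, List.map_id]

theorem up_mat (M : List (List Bool)) : (Rep.up M : List (List Bool)) = M := by
  rw [up_list, show (Rep.up : Str → Str) = id from funext up_str, List.map_id]

theorem hard_of {a b t : ℕ} {f : VD → VD → Bool} (hf : PT fun x : VD × VD => f x.1 x.2)
    (h : ∀ φ : CNF, (∀ c ∈ φ, c.length = 3) →
      ((∃ v, φ.Sat v) ↔ InClass a b t (relMat (satVerts φ) f))) :
    ∀ L ∈ NP, ManyOneReducible L (lang a b t) := by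
  refine HardPT.manyOne (β := List (List Bool)) (Q := fun M => lang a b t (bitEncode M) = true)
    (hard_3sat.reduce (f := fun φ => (satVerts φ.1).map fun s => (satVerts φ.1).map fun t => f s t)
      ?_ fun φ => ?_) (fun _ => Iff.rfl)
  · have h1 : PT fun φ : {φ : CNF // ∀ c ∈ φ, c.length = 3} => satVerts φ.1 :=
      pt_satVerts.comp (by fun_prop)
    exact PT.map h1 (PT.map (h1.comp (by fun_prop)) (hf.comp
      (f := fun x : ({φ : CNF // ∀ c ∈ φ, c.length = 3} × VD) × VD => (x.1.2, x.2)) (by fun_prop)))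
  · rw [down_mat, ← mat_relMat, lang_mat]
    exact h φ.1 φ.2

theorem pull {V : List VD} (L R p q : Fin V.length → ℝ) :
    ∃ L' R' p' q' : VD → ℝ, ∀ s ∈ V, ∃ i : Fin V.length, V[i] = s ∧
      L' s = L i ∧ R' s = R i ∧ p' s = p i ∧ q' s = q i := by
  classical
  have : ∀ s, ∃ x : ℝ × ℝ × ℝ × ℝ, s ∈ V → ∃ i : Fin V.length, V[i] = s ∧
      x.1 = L i ∧ x.2.1 = R i ∧ x.2.2.1 = p i ∧ x.2.2.2 = q i := by
    intro s
    by_cases hs : s ∈ V
    · obtain ⟨i, hi, e⟩ := List.getElem_of_mem hs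
      exact ⟨(L ⟨i, hi⟩, R ⟨i, hi⟩, p ⟨i, hi⟩, q ⟨i, hi⟩), fun _ => ⟨⟨i, hi⟩, e, rfl, rfl, rfl, rfl⟩⟩
    · exact ⟨0, fun h => absurd h hs⟩
  choose x hx using this
  exact ⟨fun s => (x s).1, fun s => (x s).2.1, fun s => (x s).2.2.1, fun s => (x s).2.2.2, hx⟩

theorem pt_arc : PT fun x : VD × VD => decide (Arc x.1 x.2) := by
  have : PT fun x : VD × VD => decide (x.1.2.2.1 ≤ x.2.1) && (decide (x.2.1 ≤ x.1.2.2.2.1) &&
      (decide (x.1.2.2.2.2.1 ≤ x.2.2.1) && decide (x.2.2.1 ≤ x.1.2.2.2.2.2))) := by fun_prop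
  exact this.of_eq fun x => by simp [Arc]

theorem hard_three (b : ℕ) : ∀ L ∈ NP, ManyOneReducible L (lang 3 b 1) := by
  refine hard_of (f := fun s t => decide (Arc s t)) pt_arc fun φ h3 => ⟨?_, ?_⟩
  · rintro ⟨v, hv⟩
    obtain ⟨c, r, h⟩ := rep_of_sat h3 hv
    refine ⟨fun x => (c (satVerts φ)[x] - r (satVerts φ)[x] : ℤ),
      fun x => (c (satVerts φ)[x] + r (satVerts φ)[x] : ℤ), fun x => c (satVerts φ)[x],
      fun x => c (satVerts φ)[x], fun x => ?_, fun x y => ?_, by simp, by simp, fun _ _ => rfl,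
      fun _ _ => le_rfl, fun _ x => by push_cast; ring⟩
    · have := (h _ (List.getElem_mem x.2)).1
      simp only [Set.mem_Icc, Int.cast_le, and_self, Fin.getElem_fin]
      omega
    · simp only [relMat, decide_eq_true_eq, Int.cast_le]
      exact (h _ (List.getElem_mem x.2)).2 _ (List.getElem_mem y.2)
  · rintro ⟨L, R, p, q, -, h1, -, -, -, -, h2⟩
    obtain ⟨L', R', p', q', h⟩ := pull L R p q
    refine sat_of_rep h3 L' R' p' q' (fun s hs t ht => ?_) fun s hs => ?_
    · obtain ⟨i, rfl, e1, e2, -, -⟩ := h s hs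
      obtain ⟨j, rfl, -, -, e3, e4⟩ := h t ht
      rw [e1, e2, e3, e4, ← h1]
      simp [relMat]
    · obtain ⟨i, rfl, e1, e2, e3, e4⟩ := h s hs
      rw [e1, e2, e3, e4]
      linarith [h2 rfl i]

theorem hard_rev (a : ℕ) : ∀ L ∈ NP, ManyOneReducible L (lang a 3 1) := by
  refine hard_of (f := fun s t => decide (Arc t s))
    (pt_arc.comp (f := fun x : VD × VD => (x.2, x.1)) (by fun_prop)) fun φ h3 => ⟨?_, ?_⟩
  · rintro ⟨v, hv⟩
    obtain ⟨c, r, h⟩ := rep_of_sat h3 hv
    obtain ⟨ρ, hρ⟩ := (Set.finite_range fun x : Fin (satVerts φ).length =>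
      r (satVerts φ)[x]).bddAbove
    have hρ' : ∀ x : Fin (satVerts φ).length, r (satVerts φ)[x] ≤ ρ := fun x => hρ ⟨x, rfl⟩
    refine ⟨fun x => (c (satVerts φ)[x] - ρ : ℤ), fun x => (c (satVerts φ)[x] + ρ : ℤ),
      fun x => (c (satVerts φ)[x] - r (satVerts φ)[x] + ρ : ℤ),
      fun x => (c (satVerts φ)[x] + r (satVerts φ)[x] - ρ : ℤ), fun x => ?_, fun x y => ?_,
      fun _ x y => by push_cast; ring, fun _ x y hxy => ?_, by simp, by simp,
      fun _ x => by push_cast; ring⟩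
    · have := (h _ (List.getElem_mem x.2)).1
      have := hρ' x
      simp only [Set.mem_Icc, Int.cast_le, Fin.getElem_fin] at *
      omega
    · simp only [relMat, decide_eq_true_eq, Int.cast_le, Fin.getElem_fin]
      rw [(h _ (List.getElem_mem y.2)).2 _ (List.getElem_mem x.2)]
      omega
    · have h0 := (h _ (List.getElem_mem x.2)).1
      have h1 := hρ' x
      have h2 := (Set.Icc_subset_Icc_iff (by
        simp only [Int.cast_le, Fin.getElem_fin] at *; omega)).1 hxy.1
      refine hxy.2 (Set.Icc_subset_Icc ?_ ?_) <;> simp only [Int.cast_le] at h2 ⊢ <;> omega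
  · rintro ⟨L, R, p, q, -, h1, -, -, -, -, h2⟩
    obtain ⟨L', R', p', q', h⟩ := pull L R p q
    refine sat_of_rep h3 p' q' L' R' (fun s hs t ht => ?_) fun s hs => ?_
    · obtain ⟨i, rfl, -, -, e3, e4⟩ := h s hs
      obtain ⟨j, rfl, e1, e2, -, -⟩ := h t ht
      rw [e1, e2, e3, e4, and_comm, ← h1]
      simp [relMat]
    · obtain ⟨i, rfl, e1, e2, e3, e4⟩ := h s hs
      rw [e1, e2, e3, e4]
      linarith [h2 rfl i]

end Pool.Agent.Lib.MP_7285af_lc
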