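import Pool.Agent.Lib.MP_7285af_lc.Small

/-! The method of circumscribed simplices with rounded factors: the determinant potential. -/

namespace Pool.Agent.Lib.MP_7285af_lc.LP

open Finset Matrix

variable {m : ℕ}

/-- `m` points of the standard simplex with property `P` which span volume at least `δ` -/
def Feas (P : (Fin m → ℝ) → Prop) (δ : ℝ) : Prop := ∃ Λ : Matrix (Fin m) (Fin m) ℝ,
  (∀ i j, 0 ≤ Λ i j) ∧ (∀ j, ∑ i, Λ i j = 1) ∧ (∀ j, P fun i => Λ i j) ∧ δ ≤ Λ.det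

theorem Feas.le {P : (Fin m → ℝ) → Prop} {δ : ℝ} (h : Feas P δ) : δ ≤ m.factorial := by
  obtain ⟨Λ, h0, h1, -, h2⟩ := h
  have := det_le (A := Λ) (abv := AbsoluteValue.abs) (x := 1) fun i j => by
    rw [AbsoluteValue.abs_apply, abs_of_nonneg (h0 i j), ← h1 j]
    exact single_le_sum (f := fun i => Λ i j) (fun i _ => h0 i j) (mem_univ i)
  simpa using h2.trans ((le_abs_self _).trans this)

theorem Feas.mono {P Q : (Fin m → ℝ) → Prop} {δ δ' : ℝ} (h : Feas P δ) (h1 : ∀ x, P x → Q x)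
    (h2 : δ' ≤ δ) : Feas Q δ' :=
  let ⟨Λ, a, b, c, d⟩ := h; ⟨Λ, a, b, fun j => h1 _ (c j), h2.trans d⟩

theorem one_add_sum_le {ι : Type} (s : Finset ι) {t : ι → ℝ} (h : ∀ i, 0 ≤ t i) :
    1 + ∑ i ∈ s, t i ≤ ∏ i ∈ s, (1 + t i) := by
  classical
  induction s using Finset.induction_on with
  | empty => simp
  | insert i s hi ih =>
    rw [sum_insert hi, prod_insert hi]
    nlinarith [h i, mul_nonneg (h i) (sum_nonneg fun i (_ : i ∈ s) => h i)]

theorem sum_min_ge {ι : Type} (s : Finset ι) {t : ι → ℝ} (h : ∀ i, 0 ≤ t i) {x : ℝ} (x1 : x ≤ 1)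
    (hx : x ≤ ∑ i ∈ s, t i) : x ≤ ∑ i ∈ s, min (t i) 1 := by
  by_cases c : ∀ i ∈ s, t i ≤ 1
  · rwa [sum_congr rfl fun i hi => min_eq_left (c i hi)]
  · push Not at c
    obtain ⟨i, hi, c⟩ := c
    refine x1.trans (le_trans ?_ (single_le_sum (f := fun i => min (t i) 1)
      (fun i _ => le_min (h i) zero_le_one) hi))
    exact (min_eq_right c.le).ge

/-- one cut -/
theorem Feas.cut {P : (Fin m → ℝ) → Prop} {δ : ℝ} (h : Feas P δ) (δ0 : 0 ≤ δ) {a l : Fin m → ℝ}
    {k : Fin m} (hk : ∀ j, a j ≤ a k) (k0 : 0 < a k) (hs : ∑ j, a j ≤ 0)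
    (hP : ∀ x, P x → 0 ≤ ∑ j, a j * x j)
    (l1 : ∀ j, 16 * m ^ 3 * (2 * m ^ 2 * a k) ≤ l j * (2 * m ^ 2 * a k - a j))
    (l2 : ∀ j, (l j - 1) * (2 * m ^ 2 * a k - a j) ≤ 16 * m ^ 3 * (2 * m ^ 2 * a k)) :
    Feas (fun y => ∃ x, P x ∧ ∀ r : Fin m → ℝ,
      ∑ j, ((16 * m ^ 3 - l j) * r k + l j * r j) * y j = 16 * m ^ 3 * ∑ j, r j * x j)
      (δ * (1 + 1 / (8 * m ^ 2))) := by
  obtain ⟨Λ, h0, h1, h2, h3⟩ := h
  have m1 : (1 : ℝ) ≤ m := by exact_mod_cast k.pos
  have m2 : (1 : ℝ) ≤ m ^ 2 := one_le_pow₀ m1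
  obtain ⟨D, hD⟩ : ∃ D : ℝ, D = 16 * m ^ 3 := ⟨_, rfl⟩
  obtain ⟨s, hs'⟩ : ∃ s : ℝ, s = 1 / (2 * m ^ 2) := ⟨_, rfl⟩
  have D0 : 0 < D := by rw [hD]; positivity
  have s0 : 0 < s := by rw [hs']; positivity
  have sm : s * m ^ 2 = 1 / 2 := by rw [hs']; field_simp
  have s1 : s ≤ 1 / 2 := by nlinarith
  rw [← hD] at l1 l2 ⊢
  have e : ∀ j, 2 * m ^ 2 * a k - a j = 2 * m ^ 2 * a k * (1 - s * (a j / a k)) := fun j => by
    rw [hs']; field_simp
  have f0 : ∀ j, 0 ≤ 1 - a j / a k := fun j => sub_nonneg.2 ((div_le_one k0).2 (hk j))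
  have u0 : ∀ j, 0 < 1 - s * (a j / a k) := fun j => by nlinarith [f0 j]
  have p0 : 0 < 2 * m ^ 2 * a k := by positivity
  have l3 : ∀ j, D ≤ l j * (1 - s * (a j / a k)) := fun j =>
    le_of_mul_le_mul_right (by have := l1 j; rw [e] at this; linarith) p0
  have l4 : ∀ j, (l j - 1) * (1 - s * (a j / a k)) ≤ D := fun j =>
    le_of_mul_le_mul_right (by have := l2 j; rw [e] at this; linarith) p0
  have l0 : ∀ j, 0 < l j := fun j => (mul_pos_iff_of_pos_right (u0 j)).1 (D0.trans_le (l3 j))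
  let w : Fin m → ℝ := fun j => if j = k then 1 else D / l j
  have w0 : ∀ j, 0 < w j := fun j => by
    have := l0 j
    simp only [w]; split_ifs <;> positivity
  let Λ' := (diagonal w * Λ).updateRow k
    (∑ i, (if i = k then 1 else (w i)⁻¹ - 1) • (diagonal w * Λ) i)
  have a1 : ∀ i j, i ≠ k → Λ' i j = D / l i * Λ i j := fun i j hi => by
    simp [Λ', w, hi]
  have a2 : ∀ j, Λ' k j = 1 - ∑ i ∈ univ.erase k, D / l i * Λ i j := fun j => by
    rw [← h1 j, ← add_sum_erase _ _ (mem_univ k), add_sub_assoc, ← sum_sub_distrib]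
    simp only [Λ', updateRow_self, Finset.sum_apply, Pi.smul_apply, diagonal_mul, smul_eq_mul]
    rw [← add_sum_erase _ _ (mem_univ k)]
    refine congrArg₂ _ (by simp [w]) (sum_congr rfl fun i hi => ?_)
    have := (w0 i).ne'
    rw [if_neg (ne_of_mem_erase hi), show D / l i = w i from (if_neg (ne_of_mem_erase hi)).symm]
    field_simp
  refine ⟨Λ', fun i j => ?_, fun j => ?_, fun j => ⟨_, h2 j, fun r => ?_⟩, ?_⟩
  · by_cases hi : i = k
    · have b1 := hP _ (h2 j)
      have b2 := h1 j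
      rw [← add_sum_erase _ _ (mem_univ k)] at b1 b2
      have b3 : ∑ i ∈ univ.erase k, D / l i * Λ i j ≤
          ∑ i ∈ univ.erase k, (Λ i j - s / a k * (a i * Λ i j)) := sum_le_sum fun i _ =>
        (mul_le_mul_of_nonneg_right ((div_le_iff₀' (l0 i)).2 (l3 i)) (h0 i j)).trans_eq (by ring)
      rw [sum_sub_distrib, ← mul_sum] at b3
      have b4 := mul_le_mul_of_nonneg_left (neg_le_iff_add_nonneg'.2 b1) (div_pos s0 k0).le
      have b5 : s / a k * (a k * Λ k j) = s * Λ k j := by field_simp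
      rw [hi, a2]
      nlinarith [h0 k j]
    · rw [a1 i j hi]
      exact mul_nonneg (div_pos D0 (l0 i)).le (h0 i j)
  · rw [← add_sum_erase _ _ (mem_univ k), a2, sum_congr rfl fun i hi => a1 i j (ne_of_mem_erase hi)]
    ring
  · have b2 := h1 j
    rw [← add_sum_erase _ _ (mem_univ k)] at b2
    have b3 : ∑ i ∈ univ.erase k, ((D - l i) * r k + l i * r i) * Λ' i j = ∑ i ∈ univ.erase k,
        (D * r k * (D / l i * Λ i j) - D * r k * Λ i j + D * (r i * Λ i j)) :=
      sum_congr rfl fun i hi => by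
        have := (l0 i).ne'
        rw [a1 i j (ne_of_mem_erase hi)]
        field_simp
    beta_reduce
    rw [← add_sum_erase _ _ (mem_univ k), ← add_sum_erase _ _ (mem_univ k), a2, b3,
      sum_add_distrib, sum_sub_distrib, ← mul_sum, ← mul_sum, ← mul_sum]
    linear_combination (-D * r k) * b2
  · rw [det_updateRow_sum, if_pos rfl, one_smul, det_mul, det_diagonal, mul_comm δ]
    refine mul_le_mul ?_ h3 δ0 (prod_pos fun i _ => w0 i).le
    have t0 : ∀ j, 0 ≤ min (s * (1 - a j / a k)) 1 := fun j =>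
      le_min (mul_nonneg s0.le (f0 j)) zero_le_one
    have d2 : 2 / D = s / (4 * m) := by rw [hD, hs']; field_simp; norm_num
    have d3 : s / (4 * m) * m = s / 4 := by field_simp
    have d4 : 0 < s / (4 * m) := by positivity
    have c1 : 1 + s * m ≤ ∏ j ∈ univ.erase k, (1 + min (s * (1 - a j / a k)) 1) := by
      refine le_trans (add_le_add_right (sum_min_ge _ (fun j => mul_nonneg s0.le (f0 j))
        (by nlinarith) ?_) 1) (one_add_sum_le _ t0)
      rw [sum_erase _ (by rw [div_self k0.ne']; ring), ← mul_sum, sum_sub_distrib, ← sum_div]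
      simp only [sum_const, card_univ, Fintype.card_fin, nsmul_eq_mul, mul_one]
      nlinarith [div_nonpos_of_nonpos_of_nonneg hs k0.le]
    have c2 : ∀ j ∈ univ.erase k, (1 + (-s - s / (4 * m))) * (1 + min (s * (1 - a j / a k)) 1) ≤
        w j := fun j hj => by
      have x1 := min_le_left (s * (1 - a j / a k)) 1
      have x2 := min_le_right (s * (1 - a j / a k)) 1
      have x0 := t0 j
      generalize min (s * (1 - a j / a k)) 1 = t at *
      have x3 : (1 - s) * (1 + t) ≤ 1 - s * (a j / a k) := by nlinarith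
      have x4 : (1 - s) * (1 + t) * l j ≤ D + 2 := by
        by_cases c : l j ≤ 1
        · nlinarith [l0 j, mul_le_mul_of_nonneg_left c (show 0 ≤ (1 - s) * (1 + t) by nlinarith)]
        · nlinarith [l4 j, mul_le_mul_of_nonneg_left x3 (show 0 ≤ l j - 1 by linarith)]
      have x5 : (1 - 2 / D) * (D + 2) ≤ D := by
        have : 2 / D * D = 2 := by field_simp
        nlinarith [div_pos two_pos D0]
      have x6 : 0 ≤ 1 - 2 / D := by rw [d2]; nlinarith
      rw [show w j = D / l j from if_neg (ne_of_mem_erase hj), le_div_iff₀ (l0 j), ← d2]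
      nlinarith [mul_le_mul_of_nonneg_left x4 x6,
        mul_nonneg (mul_nonneg (mul_nonneg s0.le (div_pos two_pos D0).le) (l0 j).le)
          (show 0 ≤ 1 + t by linarith)]
    have c0 : 0 ≤ 1 + (-s - s / (4 * m)) := by nlinarith
    have c3 := prod_le_prod (fun j _ => mul_nonneg c0 (by linarith [t0 j])) c2
    have c4 := one_add_mul_le_pow (a := -s - s / (4 * m)) (by linarith) (m - 1)
    rw [prod_mul_distrib, prod_const, card_erase_of_mem (mem_univ k), card_univ,
      Fintype.card_fin] at c3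
    rw [Nat.cast_sub k.pos] at c4
    rw [← mul_prod_erase _ _ (mem_univ k), show w k = 1 from if_pos rfl, one_mul,
      show 1 / (8 * (m : ℝ) ^ 2) = s / 4 by rw [hs']; field_simp; norm_num]
    refine le_trans ?_ ((mul_le_mul c4 c1 (by positivity) (pow_nonneg c0 _)).trans c3)
    push_cast
    nlinarith [mul_pos d4 (mul_pos s0 (zero_lt_one.trans_le m1)), mul_pos s0 s0]

theorem feas_init {ι : Type} [Fintype ι] (A : ι → Fin m → ℤ) {N : ℕ} (h1 : Fintype.card ι ≤ N)
    (h2 : m ≤ N) (hA : ∀ i j, |A i j| ≤ 2 ^ N) (x : Fin m → ℝ) (x0 : ∀ j, 0 ≤ x j)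
    (hx : ∀ i, 0 < ∑ j, A i j * x j) :
    Feas (fun y => ∀ i, 0 < ∑ j, (A i j : ℝ) * y j) (2 ^ ((4 * N * N + 3 * N + 2) * m))⁻¹ := by
  classical
  have t0 : 0 ≤ ∑ i, (∑ j, A i j * x j)⁻¹ := sum_nonneg fun i _ => (inv_pos.2 (hx i)).le
  have K1 : (1 : ℤ) ≤ 2 ^ N := one_le_pow₀ one_le_two
  obtain ⟨z, D, D1, hz, hb⟩ := small_solution (m := ι ⊕ Fin m)
    (Sum.elim A fun i j => if j = i then 1 else 0) (Sum.elim 1 0) (2 ^ N)
    (by rintro (i | i) j; exacts [hA i j, by simp only [Sum.elim_inr]; split_ifs <;> simp [K1]])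
    (by rintro (i | i) <;> simp [K1]) (fun d hd => funext fun j => by simpa using hd (.inr j))
    (fun j => (∑ i, (∑ j, A i j * x j)⁻¹) * x j) (by
      rintro (i | i)
      · simp only [Sum.elim_inl, Pi.one_apply, Int.cast_one, mul_left_comm _ (∑ i, _), ← mul_sum]
        rw [← div_le_iff₀ (hx i), one_div]
        exact single_le_sum (f := fun i => (∑ j, A i j * x j)⁻¹)
          (fun i _ => (inv_pos.2 (hx i)).le) (mem_univ i)
      · simpa using mul_nonneg t0 (x0 i))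
  have z0 : ∀ j, (0 : ℝ) ≤ z j := fun j => by simpa using hz (.inr j)
  have z1 : ∀ i, (1 : ℝ) ≤ ∑ j, (A i j : ℝ) * z j := fun i => by
    have := hz (.inl i)
    simp only [Sum.elim_inl, Pi.one_apply, mul_one] at this
    exact_mod_cast D1.trans this
  have p2 : ∀ n : ℕ, (n : ℝ) ≤ 2 ^ n := fun n => by exact_mod_cast Nat.lt_two_pow_self.le
  have m2 : (m : ℝ) ≤ 2 ^ N := (Nat.cast_le.2 h2).trans (p2 N)
  have zb : ∀ j, (z j : ℝ) ≤ (2 ^ N) ^ N * (2 ^ (N + 1) * (2 ^ N) ^ 2) ^ N := fun j => by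
    have := (le_abs_self _).trans (hb j)
    simp only [Fintype.card_fin, Fintype.card_sum] at this
    refine (Int.cast_le.2 this).trans ?_
    push_cast
    refine mul_le_mul ((Nat.cast_le.2 m.factorial_le_pow).trans ?_) ?_ (by positivity)
      (by positivity)
    · push_cast
      exact (pow_le_pow_left₀ (by positivity) m2 m).trans
        (pow_le_pow_right₀ (one_le_pow₀ one_le_two) h2)
    · refine (pow_le_pow_left₀ (by positivity) (mul_le_mul_of_nonneg_right ?_ (by positivity))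
        m).trans (pow_le_pow_right₀ (one_le_mul_of_one_le_of_one_le (one_le_pow₀ one_le_two)
          (one_le_pow₀ (one_le_pow₀ one_le_two))) h2)
      linarith [(Nat.cast_le.2 h1).trans (p2 N), pow_succ (2 : ℝ) N]
  obtain ⟨σ, hσ⟩ : ∃ σ : ℝ, σ = 1 + ∑ j, (2 ^ N + 1) * (z j : ℝ) := ⟨_, rfl⟩
  have σ1 : 1 ≤ σ := hσ ▸ le_add_of_nonneg_right (sum_nonneg fun j _ => by have := z0 j; positivity)
  obtain ⟨W, hW, hd⟩ : ∃ W : Matrix (Fin m) (Fin m) ℝ,
      (∀ i j, W i j = (if i = j then 1 else 0) + (2 ^ N + 1) * (z i : ℝ)) ∧ W.det = σ :=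
    ⟨_, fun i j => by simp [Matrix.mul_apply, one_apply], (det_one_add_replicateCol_mul_replicateRow
      (ι := Unit) (fun j => (2 ^ N + 1) * (z j : ℝ)) 1).trans (by rw [one_dotProduct, hσ])⟩
  refine ⟨σ⁻¹ • W, fun i j => ?_, fun j => ?_, fun j i => ?_, ?_⟩
  · have := z0 i
    rw [Matrix.smul_apply, hW, smul_eq_mul]
    split_ifs <;> positivity
  · simp only [Matrix.smul_apply, hW, smul_eq_mul, ← mul_sum, sum_add_distrib] at hσ ⊢
    simp [← hσ, (zero_lt_one.trans_le σ1).ne']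
  · have : -(2 : ℝ) ^ N ≤ A i j := by exact_mod_cast (abs_le.1 (hA i j)).1
    have e : ∑ l, (A i l : ℝ) * ((2 ^ N + 1) * z l) = (2 ^ N + 1) * ∑ l, (A i l : ℝ) * z l := by
      rw [mul_sum]; exact sum_congr rfl fun _ _ => by ring
    simp only [Matrix.smul_apply, smul_eq_mul, mul_left_comm _ σ⁻¹, ← mul_sum]
    refine mul_pos (inv_pos.2 (by linarith)) ?_
    simp only [hW, mul_add, sum_add_distrib, mul_ite, mul_one, mul_zero, sum_ite_eq', mem_univ,
      if_true, e]
    nlinarith [z1 i, pow_pos (two_pos (α := ℝ)) N]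
  · rw [det_smul, hd, Fintype.card_fin, pow_mul, ← inv_pow]
    refine le_trans (pow_le_pow_left₀ (by positivity) (inv_anti₀ (by linarith) ?_) m)
      (le_mul_of_one_le_right (by positivity) σ1)
    have s := sum_le_card_nsmul univ _ _ fun j _ => mul_le_mul
      (show (2 : ℝ) ^ N + 1 ≤ 2 ^ (N + 1) by linarith [pow_succ (2 : ℝ) N, one_le_pow₀ (n := N) (one_le_two (α := ℝ))])
      (zb j) (z0 j) (by positivity)
    rw [card_univ, Fintype.card_fin, nsmul_eq_mul] at s
    have s2 := s.trans (mul_le_mul_of_nonneg_right m2 (by positivity))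
    simp only [← pow_mul, ← pow_add] at s2
    rw [show N + (N + 1 + (N * N + (N + 1 + N * 2) * N)) = 4 * N * N + 3 * N + 1 by ring] at s2
    linarith [pow_succ (2 : ℝ) (4 * N * N + 3 * N + 1),
      one_le_pow₀ (n := 4 * N * N + 3 * N + 1) (one_le_two (α := ℝ))]

end Pool.Agent.Lib.MP_7285af_lc.LP
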