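import Pool.Agent.Lib.MP_7285af_lc.LPA
import Pool.Agent.Lib.Complexity.Bridge

/-! Systems of strict homogeneous linear inequalities are decided in polynomial time. -/

namespace Pool.Agent.Lib.MP_7285af_lc.LP

open Finset Pool.Agent.Lib.Complexity

def en (r : List ℤ) (j : ℕ) : ℤ := r.getD j 0

def rs (m : ℕ) (r : List ℤ) : ℤ := ((List.range m).map (en r)).sum

def piv (m : ℕ) (a : List ℤ) : ℕ :=
  ((List.range m).find? fun k => (List.range m).all fun j => decide (en a j ≤ en a k)).getD 0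

def fac (m : ℕ) (a : List ℤ) (j : ℕ) : ℤ :=
  16 * (m : ℤ) ^ 3 * (2 * (m : ℤ) ^ 2 * en a (piv m a)) / (2 * (m : ℤ) ^ 2 * en a (piv m a) - en a j) + 1

def upd (m : ℕ) (a r : List ℤ) : List ℤ :=
  (List.range m).map fun j => (16 * (m : ℤ) ^ 3 - fac m a j) * en r (piv m a) + fac m a j * en r j

def step (m : ℕ) (B : List (List ℤ)) : List (List ℤ) :=
  (B.find? fun r => decide (rs m r ≤ 0)).elim B fun a =>
    if 0 < en a (piv m a) then B.map (upd m a) else B

def lpD (m : ℕ) (B : List (List ℤ)) : Bool :=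
  ((step m)^[8 * m ^ 2 * ((4 * (sz B + m) * (sz B + m) + 3 * (sz B + m) + 2) * m + m * m + 1)] B).all
    fun r => decide (0 < rs m r)

variable {m : ℕ} {a r : List ℤ} {B : List (List ℤ)}

theorem sum_range (f : ℕ → ℤ) (m : ℕ) : ((List.range m).map f).sum = ∑ j : Fin m, f j := by
  rw [Fin.sum_univ_eq_sum_range]
  induction m with
  | zero => simp
  | succ m ih => simp [List.range_succ, sum_range_succ, ih]

theorem piv_spec (h : 0 < m) (a : List ℤ) : piv m a < m ∧ ∀ j < m, en a j ≤ en a (piv m a) := by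
  obtain ⟨k, k1, k2⟩ := exists_max_image (range m) (en a) ⟨0, mem_range.2 h⟩
  unfold piv
  cases e : (List.range m).find? fun k => (List.range m).all fun j => decide (en a j ≤ en a k) with
  | none => simpa using absurd (List.find?_eq_none.1 e k (by simpa using k1)) (by simpa using k2)
  | some k => exact ⟨by simpa using List.mem_of_find?_eq_some e, by simpa using List.find?_some e⟩

theorem en_upd {j : ℕ} (h : j < m) :
    en (upd m a r) j = (16 * (m : ℤ) ^ 3 - fac m a j) * en r (piv m a) + fac m a j * en r j := by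
  simp [upd, en, h]

theorem step_cases (m : ℕ) (B : List (List ℤ)) : ((∀ r ∈ B, 0 < rs m r) ∧ step m B = B) ∨
    ∃ a ∈ B, rs m a ≤ 0 ∧ step m B = if 0 < en a (piv m a) then B.map (upd m a) else B := by
  unfold step
  cases e : B.find? fun r => decide (rs m r ≤ 0) with
  | none => exact .inl ⟨by simpa using e, rfl⟩
  | some a => exact .inr ⟨a, List.mem_of_find?_eq_some e, by simpa using List.find?_some e, rfl⟩

theorem den_pos (h : 0 < m) (h0 : 0 < en a (piv m a)) {j : ℕ} (hj : j < m) :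
    0 < 2 * (m : ℤ) ^ 2 * en a (piv m a) - en a j ∧
      (m : ℤ) ^ 2 * en a (piv m a) ≤ 2 * (m : ℤ) ^ 2 * en a (piv m a) - en a j := by
  have h1 : (1 : ℤ) ≤ (m : ℤ) ^ 2 := one_le_pow₀ (by exact_mod_cast h)
  have := (piv_spec h a).2 j hj
  constructor <;> nlinarith

/-- the points which satisfy the system -/
def Sat (m : ℕ) (B : List (List ℤ)) (x : Fin m → ℝ) : Prop :=
  ∀ r ∈ B, 0 < ∑ j : Fin m, (en r j : ℝ) * x j

theorem step_sound (h : 0 < m) (hs : ∃ x, Sat m (step m B) x) : ∃ x, Sat m B x := by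
  rcases step_cases m B with ⟨-, e⟩ | ⟨a, -, -, e⟩ <;> rw [e] at hs
  · exact hs
  split_ifs at hs
  swap
  · exact hs
  obtain ⟨x, hx⟩ := hs
  refine ⟨fun j => fac m a j * x j + if j = ⟨_, (piv_spec h a).1⟩ then
    ∑ i : Fin m, (16 * m ^ 3 - fac m a i) * x i else 0, fun r hr => ?_⟩
  refine (hx _ (List.mem_map_of_mem hr)).trans_eq ?_
  simp only [mul_add, sum_add_distrib, mul_ite, mul_zero, sum_ite_eq', mem_univ, if_true, mul_sum,
    en_upd (Fin.is_lt _)]
  rw [← sum_add_distrib]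
  exact sum_congr rfl fun j _ => by push_cast; ring

theorem step_feas (h : 0 < m) {δ : ℝ} (δ0 : 0 ≤ δ) (hf : Feas (Sat m B) δ) (ha : a ∈ B)
    (h0 : rs m a ≤ 0) : 0 < en a (piv m a) ∧
      Feas (Sat m (B.map (upd m a))) (δ * (1 + 1 / (8 * m ^ 2))) := by
  obtain ⟨k1, k2⟩ := piv_spec h a
  have k0 : 0 < en a (piv m a) := by
    obtain ⟨Λ, h1, -, h2, -⟩ := hf
    by_contra c
    exact (h2 ⟨0, h⟩ a ha).not_ge (sum_nonpos fun j _ => mul_nonpos_of_nonpos_of_nonneg
      (by exact_mod_cast (k2 j j.2).trans (not_lt.1 c)) (h1 _ _))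
  refine ⟨k0, (hf.cut δ0 (a := fun j => en a j) (l := fun j => fac m a j) (k := ⟨_, k1⟩)
    (fun j => by exact_mod_cast k2 j j.2) (by exact_mod_cast k0)
    (by rw [rs, sum_range] at h0; exact_mod_cast h0) (fun x hx => (hx a ha).le) (fun j => ?_)
    fun j => ?_).mono ?_ le_rfl⟩
  · exact_mod_cast (Int.lt_ediv_add_one_mul_self _ (den_pos h k0 j.2).1).le
  · have := Int.ediv_mul_le (16 * (m : ℤ) ^ 3 * (2 * (m : ℤ) ^ 2 * en a (piv m a)))
      (den_pos h k0 j.2).1.ne'
    simp only [fac, Int.cast_add, Int.cast_one, add_sub_cancel_right]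
    exact_mod_cast this
  · rintro y ⟨x, hx, e⟩ r hr
    obtain ⟨r, hr', rfl⟩ := List.mem_map.1 hr
    refine (mul_pos (show (0 : ℝ) < 16 * m ^ 3 by positivity) (hx r hr')).trans_eq
      ((e fun j => en r j).symm.trans (sum_congr rfl fun j _ => ?_))
    rw [en_upd j.2]
    push_cast
    rfl

theorem lpD_sound (h : 0 < m) (hl : lpD m B = true) : ∃ x, Sat m B x := by
  unfold lpD at hl
  generalize 8 * m ^ 2 * _ = T at hl
  induction T generalizing B with
  | zero =>
    refine ⟨1, fun r hr => ?_⟩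
    have := List.all_eq_true.1 hl r hr
    rw [decide_eq_true_eq, rs, sum_range] at this
    simp only [Pi.one_apply, mul_one]
    exact_mod_cast this
  | succ T ih => exact step_sound h (ih hl)

theorem en_lt (hr : ∀ z ∈ r, z.natAbs < 2 ^ m) (j : ℕ) : (en r j).natAbs < 2 ^ m := by
  unfold en
  by_cases h : j < r.length
  · exact hr _ (by simp [h])
  · simp [not_lt.1 h]

theorem small_of_mem {N : ℕ} (hN : sz B ≤ N) (hr : r ∈ B) :
    r.length ≤ N ∧ ∀ z ∈ r, z.natAbs < 2 ^ N :=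
  ⟨(length_le_sz r).trans ((sz_lt_of_mem hr).le.trans hN), fun z hz =>
    (natAbs_lt_two_pow_sz z).trans_le (Nat.pow_le_pow_right two_pos
      ((sz_lt_of_mem hz).le.trans ((sz_lt_of_mem hr).le.trans hN)))⟩

theorem iter_feas (h : 0 < m) (T : ℕ) {δ : ℝ} (δ0 : 0 ≤ δ) (hf : Feas (Sat m B) δ) :
    (∀ r ∈ (step m)^[T] B, 0 < rs m r) ∨ δ * (1 + 1 / (8 * m ^ 2)) ^ T ≤ m.factorial := by
  induction T generalizing B δ with
  | zero => exact .inr (by simpa using hf.le)
  | succ T ih =>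
    rcases step_cases m B with ⟨e1, e⟩ | ⟨a, a1, a2, e⟩
    · exact .inl (by rwa [Function.iterate_fixed e])
    · obtain ⟨k0, k1⟩ := step_feas h δ0 hf a1 a2
      rw [Function.iterate_succ_apply, e, if_pos k0, pow_succ', ← mul_assoc]
      exact ih (by positivity) k1

theorem growth (h : 0 < m) (E : ℕ) : (m.factorial : ℝ) <
    (2 ^ E)⁻¹ * (1 + 1 / (8 * m ^ 2)) ^ (8 * m ^ 2 * (E + m * m + 1)) := by
  have c0 : (0 : ℝ) < 1 / (8 * m ^ 2) := by positivity
  have b1 := one_add_mul_le_pow (a := (1 / (8 * m ^ 2) : ℝ)) (by linarith) (8 * m ^ 2)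
  rw [show (1 : ℝ) + (8 * m ^ 2 : ℕ) * (1 / (8 * m ^ 2)) = 2 by push_cast; field_simp; norm_num] at b1
  have b2 : (m.factorial : ℝ) ≤ 2 ^ (m * m) := by
    exact_mod_cast m.factorial_le_pow.trans
      ((Nat.pow_le_pow_left Nat.lt_two_pow_self.le _).trans_eq (pow_mul 2 m m).symm)
  rw [pow_mul _ (8 * m ^ 2), lt_inv_mul_iff₀ (by positivity)]
  refine lt_of_lt_of_le ?_ (pow_le_pow_left₀ zero_le_two b1 _)
  rw [pow_succ, pow_add]
  nlinarith [mul_le_mul_of_nonneg_left b2 (pow_pos (two_pos (α := ℝ)) E).le,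
    mul_pos (pow_pos (two_pos (α := ℝ)) E) (pow_pos (two_pos (α := ℝ)) (m * m))]

theorem lpD_complete (h : 0 < m) {x : Fin m → ℝ} (x0 : ∀ j, 0 ≤ x j) (hx : Sat m B x) :
    lpD m B = true := by
  have f := feas_init (ι := Fin B.length) (fun i (j : Fin m) => en (B.get i) j) (N := sz B + m)
    (by have := length_le_sz B; simp; omega) (by omega) (fun i j => by
      have := en_lt (small_of_mem (N := sz B + m) (by omega) (List.get_mem B i)).2 j
      rw [Int.abs_eq_natAbs]
      exact_mod_cast this.le) x x0 fun i => hx (B.get i) (List.get_mem B i)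
  have g : Feas (Sat m B) _ := f.mono (fun y hy r hr => by
    obtain ⟨i, rfl⟩ := List.get_of_mem hr
    exact hy i) le_rfl
  simpa [lpD] using (iter_feas h _ (by positivity) g).resolve_right (growth h _).not_ge

theorem upd_lt (h0 : 0 < en a (piv m a)) {k : ℕ} (hr : ∀ z ∈ r, z.natAbs < 2 ^ k) :
    ∀ z ∈ upd m a r, z.natAbs < 2 ^ (k + 80 * m ^ 3) := fun z hz => by
  obtain ⟨j, hj, rfl⟩ := List.mem_map.1 hz
  have hj := List.mem_range.1 hj
  obtain ⟨d0, d1⟩ := den_pos (by omega) h0 hj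
  have m3 : (1 : ℤ) ≤ (m : ℤ) ^ 3 := one_le_pow₀ (by exact_mod_cast (by omega : 1 ≤ m))
  have l0 : 1 ≤ fac m a j := le_add_of_nonneg_left (Int.ediv_nonneg (by positivity) d0.le)
  have l1 : fac m a j ≤ 32 * (m : ℤ) ^ 3 + 1 :=
    add_le_add_left (Int.ediv_le_of_le_mul d0 (by nlinarith)) 1
  have e : ∀ j, |en r j| < 2 ^ k := fun j => by
    rw [Int.abs_eq_natAbs]; exact_mod_cast en_lt hr j
  have p : (80 * (m : ℤ) ^ 3) < 2 ^ (80 * m ^ 3) := by exact_mod_cast Nat.lt_two_pow_self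
  have q : (0 : ℤ) < 2 ^ k := by positivity
  zify
  refine (abs_add_le _ _).trans_lt ?_
  rw [abs_mul, abs_mul, abs_of_pos (zero_lt_one.trans_le l0), pow_add]
  have l2 : |16 * (m : ℤ) ^ 3 - fac m a j| ≤ 17 * (m : ℤ) ^ 3 :=
    abs_le.2 ⟨by linarith, by linarith⟩
  nlinarith [mul_le_mul l2 (e (piv m a)).le (abs_nonneg _) (by positivity),
    mul_le_mul l1 (e j).le (abs_nonneg _) (by positivity)]

theorem iter_small {N : ℕ} (hN : sz B ≤ N) (hm : m ≤ N) (i : ℕ) :
    ((step m)^[i] B).length ≤ N ∧ ∀ r ∈ (step m)^[i] B,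
      r.length ≤ N ∧ ∀ z ∈ r, z.natAbs < 2 ^ (N + i * (80 * m ^ 3)) := by
  induction i with
  | zero => exact ⟨(length_le_sz B).trans hN, fun r hr => by simpa using small_of_mem hN hr⟩
  | succ i ih =>
    have k : ∀ r ∈ (step m)^[i] B, r.length ≤ N ∧
        ∀ z ∈ r, z.natAbs < 2 ^ (N + (i + 1) * (80 * m ^ 3)) := fun r hr => ⟨(ih.2 r hr).1,
      fun z hz => ((ih.2 r hr).2 z hz).trans_le (Nat.pow_le_pow_right two_pos (by gcongr; omega))⟩
    rw [Function.iterate_succ_apply']
    rcases step_cases m ((step m)^[i] B) with ⟨-, e⟩ | ⟨a, -, -, e⟩ <;> rw [e]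
    · exact ⟨ih.1, k⟩
    split_ifs with h0
    · refine ⟨by simpa using ih.1, fun r hr => ?_⟩
      obtain ⟨r, hr', rfl⟩ := List.mem_map.1 hr
      exact ⟨by simpa [upd] using hm, by
        simpa only [add_mul, one_mul, add_assoc] using upd_lt h0 (ih.2 r hr').2⟩
    · exact ⟨ih.1, k⟩

section pt
variable {α : Type} [Enc α] {f : α → ℕ} {g g' : α → List ℤ} {G : α → List (List ℤ)}

@[fun_prop] theorem pt_en (hg : PT g) (hf : PT f) : PT fun a => en (g a) (f a) := by
  unfold en; fun_prop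

@[fun_prop] theorem pt_rs (hf : PT f) (hg : PT g) : PT fun a => rs (f a) (g a) := by
  unfold rs; fun_prop

@[fun_prop] theorem pt_piv (hf : PT f) (hg : PT g) : PT fun a => piv (f a) (g a) := by
  unfold piv; fun_prop

@[fun_prop] theorem pt_fac {f' : α → ℕ} (hf : PT f) (hg : PT g) (hf' : PT f') :
    PT fun a => fac (f a) (g a) (f' a) := by
  unfold fac; fun_prop

@[fun_prop] theorem pt_upd (hf : PT f) (hg : PT g) (hg' : PT g') :
    PT fun a => upd (f a) (g a) (g' a) := by
  unfold upd; fun_prop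

@[fun_prop] theorem pt_step (hf : PT f) (hG : PT G) : PT fun a => step (f a) (G a) := by
  unfold step; fun_prop

@[fun_prop] theorem pt_lpD (hf : PT f) (hG : PT G) : PT fun a => lpD (f a) (G a) := by
  refine PT.all ?_ (by fun_prop)
  generalize hT : (fun a => 8 * f a ^ 2 * ((4 * (sz (G a) + f a) * (sz (G a) + f a) +
    3 * (sz (G a) + f a) + 2) * f a + f a * f a + 1)) = T
  have h1 : PT T := by rw [← hT]; fun_prop
  refine (PT.iterate (step := fun a => step (f a)) h1 hG (by fun_prop) (B := fun a =>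
    (sz (G a) + f a) * ((sz (G a) + f a) * (4 * (sz (G a) + f a + T a * (80 * f a ^ 3)) + 1 + 1) + 1))
    (PT.pb_nat (by fun_prop)) fun a i hi => ?_).of_eq fun a => by rw [← hT]
  obtain ⟨h2, h3⟩ := iter_small (B := G a) (m := f a) (N := sz (G a) + f a) (by omega) (by omega) i
  refine (sz_list_le fun r hr => (sz_list_le fun z hz => sz_int_le ((h3 r hr).2 z hz)).trans
    (Nat.mul_le_mul_right _ (h3 r hr).1)).trans ?_
  gcongr

end pt

/-- value of a linear form given by its terms -/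
def val (x : ℕ → ℝ) (r : List (ℤ × ℕ)) : ℝ := (r.map fun p => p.1 * x p.2).sum

def co (r : List (ℤ × ℕ)) (j : ℕ) : ℤ := (r.map fun p => if p.2 = j then p.1 else 0).sum

/-- decides whether the linear forms can be made positive simultaneously -/
def lp (R : List (List (ℤ × ℕ))) : Bool := lpD (sz R + 1) (R.map fun r =>
  (List.range (sz R)).map (co r) ++ [-((List.range (sz R)).map (co r)).sum])

@[fun_prop] theorem pt_lp {α : Type} [Enc α] {R : α → List (List (ℤ × ℕ))} (h : PT R) :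
    PT fun a => lp (R a) := by
  unfold lp co; fun_prop

theorem val_eq (x : ℕ → ℝ) {r : List (ℤ × ℕ)} {N : ℕ} (h : ∀ p ∈ r, p.2 < N) :
    val x r = ∑ j : Fin N, (co r j : ℝ) * x j := by
  induction r with
  | nil => simp [val, co]
  | cons p r ih =>
    have := ih fun q hq => h q (List.mem_cons_of_mem _ hq)
    simp only [val, co, List.map_cons, List.sum_cons, Int.cast_add, add_mul, sum_add_distrib] at this ⊢
    rw [this, add_left_inj, sum_eq_single ⟨p.2, h p List.mem_cons_self⟩ (fun j _ hj => by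
      rw [if_neg fun e => hj (Fin.ext e.symm)]; simp) (by simp)]
    simp

theorem lp_iff (R : List (List (ℤ × ℕ))) : lp R = true ↔ ∃ x, ∀ r ∈ R, 0 < val x r := by
  have h1 : ∀ r ∈ R, ∀ p ∈ r, p.2 < sz R := fun r hr p hp => by
    have := sz_lt_of_mem hr
    have := sz_lt_of_mem hp
    rw [sz_prod] at this
    simp at this
    omega
  unfold lp
  generalize sz R = N at *
  have e : ∀ (y : Fin (N + 1) → ℝ) (r : List (ℤ × ℕ)), ∑ j : Fin (N + 1), (en ((List.range N).map
      (co r) ++ [-((List.range N).map (co r)).sum]) j : ℝ) * y j =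
      ∑ j : Fin N, (co r j : ℝ) * (y j.castSucc - y (Fin.last N)) := fun y r => by
    rw [Fin.sum_univ_castSucc, sum_range]
    simp [en, sum_mul, sub_eq_add_neg, mul_add, sum_add_distrib]
  constructor
  · intro h
    obtain ⟨y, hy⟩ := lpD_sound N.succ_pos h
    refine ⟨fun j => if h : j < N then y (Fin.castSucc ⟨j, h⟩) - y (Fin.last N) else 0,
      fun r hr => ?_⟩
    rw [val_eq _ (h1 r hr)]
    simpa [e] using hy _ (List.mem_map_of_mem hr)
  · rintro ⟨x, hx⟩
    refine lpD_complete N.succ_pos (x := fun j => (if (j : ℕ) < N then x j else 0) +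
      ∑ i : Fin N, |x i|) (fun j => ?_) fun r hr => ?_
    · split_ifs with h
      · linarith [neg_abs_le (x j), single_le_sum (f := fun i : Fin N => |x i|)
          (fun _ _ => abs_nonneg _) (mem_univ ⟨j, h⟩)]
      · positivity
    · obtain ⟨r, hr', rfl⟩ := List.mem_map.1 hr
      simpa [e, val_eq _ (h1 r hr')] using hx r hr'

end Pool.Agent.Lib.MP_7285af_lc.LP
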