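import Pool.Agent.Lib.MP_7285af_lc.RepB

/-! Forcing between coloured non-arcs and the canonical colouring. -/

noncomputable section

namespace Pool.Agent.Lib.MP_7285af_lc

open Relation Classical

abbrev Nd (V : Type) := V × V × Bool

variable {V : Type} {a b t k : ℕ} {A : V → V → Prop} {χ : V → V → Bool} {ρ : Rp V} {ι : V → ℕ}
  {n n' m : Nd V} {s : Bool}

/-- direct forcing; `k` is 3 for arbitrary intervals, 2 for proper ones, 1 for point cores -/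
def Lk (k : ℕ) (A : V → V → Prop) (n n' : Nd V) : Prop := ¬A n.1 n.2.1 ∧ ¬A n'.1 n'.2.1 ∧
  ((n.2.1 = n'.2.1 ∧ Adj A n.1 n'.1 ∧ n.2.2 = n'.2.2) ∨
    (A n.1 n'.2.1 ∧ A n'.1 n.2.1 ∧ n.2.2 ≠ n'.2.2) ∨
    (k ≤ 2 ∧ n.1 = n'.1 ∧ (∃ u, A u n.2.1 ∧ A u n'.2.1) ∧ n.2.2 = n'.2.2) ∨
    (k ≤ 1 ∧ n.2.1 = n'.2.1 ∧ (∃ v, A n.1 v ∧ A n'.1 v) ∧ n.2.2 = n'.2.2))

abbrev Cn (k : ℕ) (A : V → V → Prop) : Nd V → Nd V → Prop := ReflTransGen (Lk k A)

def ng (n : Nd V) : Nd V := (n.1, n.2.1, !n.2.2)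

def Resp (k : ℕ) (A : V → V → Prop) (χ : V → V → Bool) : Prop :=
  ∀ n n', Lk k A n n' → χ n.1 n.2.1 = n.2.2 → χ n'.1 n'.2.1 = n'.2.2

def Bal (k : ℕ) (A : V → V → Prop) : Prop := ∀ n, ¬Cn k A n (ng n)

theorem Lk.symm (h : Lk k A n n') : Lk k A n' n := by
  obtain ⟨h1, h2, h | h | ⟨h, h3, ⟨u, h4⟩, h5⟩ | ⟨h, h3, ⟨u, h4⟩, h5⟩⟩ := h <;> refine ⟨h2, h1, ?_⟩
  exacts [.inl ⟨h.1.symm, h.2.1.symm, h.2.2.symm⟩, .inr (.inl ⟨h.2.1, h.1, h.2.2.symm⟩),
    .inr (.inr (.inl ⟨h, h3.symm, ⟨u, h4.symm⟩, h5.symm⟩)),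
    .inr (.inr (.inr ⟨h, h3.symm, ⟨u, h4.symm⟩, h5.symm⟩))]

theorem Cn.symm (h : Cn k A n n') : Cn k A n' n := rtg_symm (fun _ _ => Lk.symm) h

theorem Cn.trans (h : Cn k A n n') (h' : Cn k A n' m) : Cn k A n m := ReflTransGen.trans h h'

theorem Cn.tail (h : Cn k A n n') (h' : Lk k A n' m) : Cn k A n m := ReflTransGen.tail h h'

theorem Cn.ng (h : Cn k A n n') : Cn k A (ng n) (ng n') :=
  h.lift _ fun n n' h => by simpa [Lk, MP_7285af_lc.ng] using h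

@[simp] theorem ng_ng (n : Nd V) : ng (ng n) = n := by simp [ng]

theorem Cn.zero (h : Cn k A n n') (z : ¬A n.1 n.2.1) : ¬A n'.1 n'.2.1 := by
  induction h with
  | refl => exact z
  | tail _ e _ => exact e.2.1

theorem e2 {x y m : V} (h : Adj A x y) (h1 : ¬A x m) (h2 : ¬A y m) : Cn k A (x, m, s) (y, m, s) :=
  .single ⟨h1, h2, .inl ⟨rfl, h, rfl⟩⟩

theorem e3 {x y u v : V} (h : A x v) (h' : A u y) (h1 : ¬A x y) (h2 : ¬A u v) :
    Cn k A (x, y, s) (u, v, !s) := .single ⟨h1, h2, .inr (.inl ⟨h, h', by simp⟩)⟩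

theorem Resp.cn (h : Resp k A χ) (c : Cn k A n n') (e : χ n.1 n.2.1 = n.2.2) :
    χ n'.1 n'.2.1 = n'.2.2 := by
  induction c with
  | refl => exact e
  | tail _ l ih => exact h _ _ l ih

theorem Resp.bal (h : Resp k A χ) : Bal k A := fun n c => by
  by_cases e : χ n.1 n.2.1 = n.2.2
  · simpa [ng, e] using h.cn c e
  · exact e (h.cn c.symm (Bool.eq_not.2 e))

theorem Resp.mono (h : Resp k A χ) {k' : ℕ} (hk : k ≤ k') : Resp k' A χ := fun n n' l =>
  h n n' ⟨l.1, l.2.1, l.2.2.imp_right (Or.imp_right (Or.imp (And.imp_left hk.trans)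
    (And.imp_left hk.trans)))⟩

theorem Rp.Ok.resp (h : ρ.Ok a b t A χ) (h2 : k ≤ 2 → a ≠ 3) (h1 : k ≤ 1 → b = 1) :
    Resp k A χ := by
  suffices H : ∀ {ρ : Rp V} {χ}, ρ.Ok a b t A χ → ∀ x y u v s, Lk k A (x, y, true) (u, v, s) →
      χ x y = true → χ u v = s by
    rintro ⟨x, y, _ | _⟩ ⟨u, v, s⟩ l e
    · simpa using H h.neg x y u v (!s) (by simpa [Lk] using l) (by simpa using e)
    · exact H h x y u v s l e
  rintro ρ χ h x y u v s ⟨n, n', l⟩ e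
  have z := h.zl x y n e
  simp only at n n' l
  by_contra c
  rcases l with ⟨rfl, l, rfl⟩ | ⟨l, l', e'⟩ | ⟨e', rfl, ⟨w, l, l'⟩, rfl⟩ | ⟨e', rfl, ⟨w, l, l'⟩, rfl⟩
  · have := h.zr u y n' (by simpa using c)
    rcases l with l | l <;> linarith [h.arc _ _ l |>.1, h.arc _ _ l |>.2, h.pq y, h.lp u, h.qr x]
  · linarith [h.zl u v n' (by cases s <;> simp_all), (h.arc _ _ l).2, (h.arc _ _ l').2]
  · linarith [h.zr x v n' (by simpa using c), h.pl (h2 e') x w y n e l, (h.arc _ _ l').1]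
  · linarith [h.zr u y n' (by simpa using c), h.pt (h1 e') y, h.pt (h1 e') w, (h.arc _ _ l).2,
      (h.arc _ _ l').1]

def wt (ι : V → ℕ) (A : V → V → Prop) (n : Nd V) : ℕ ×ₗ ℕ ×ₗ ℕ :=
  toLex (if A n.2.1 n.1 then (if n.2.2 then 1 else 2) else 0,
    toLex (if n.2.2 then (ι n.1, ι n.2.1) else (ι n.2.1, ι n.1)))

/-- the class of `n` is preferred to the opposite class -/
def Ch (k : ℕ) (ι : V → ℕ) (A : V → V → Prop) (n : Nd V) : Prop :=
  ∃ n', Cn k A n n' ∧ ∀ m, Cn k A (ng n) m → wt ι A n' < wt ι A m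

def can (k : ℕ) (ι : V → ℕ) (A : V → V → Prop) (x y : V) : Bool := decide (Ch k ι A (x, y, true))

theorem Ch.cn (h : Ch k ι A n) (c : Cn k A n n') : Ch k ι A n' :=
  let ⟨m, h1, h2⟩ := h; ⟨m, c.symm.trans h1, fun m' e => h2 m' (c.ng.trans e)⟩

theorem Ch.not (h : Ch k ι A n) (h' : Ch k ι A n') : ¬Cn k A n (ng n') := fun c =>
  let ⟨m, h1, h2⟩ := h.cn c
  let ⟨m', h3, h4⟩ := h'
  (h2 m' (by simpa using h3)).not_gt (h4 m h1)

variable (hι : Function.Injective ι) (r : ∀ v, A v v)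
include hι r

theorem ch_or (hb : Bal k A) (z : ¬A n.1 n.2.1) : Ch k ι A n ∨ Ch k ι A (ng n) := by
  have w := fun n => (wellFounded_lt.onFun (f := wt ι A)).has_min {m | Cn k A n m} ⟨n, .refl⟩
  obtain ⟨p, p1, p2⟩ := w n
  obtain ⟨q, q1, q2⟩ := w (ng n)
  rcases lt_trichotomy (wt ι A p) (wt ι A q) with e | e | e
  · exact .inl ⟨p, p1, fun m hm => e.trans_le (not_lt.1 (q2 m hm))⟩
  · refine absurd (p1.trans (.trans ?_ q1.symm)) (hb n)
    have z1 := p1.zero z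
    have z2 := q1.zero z
    obtain ⟨x, y, _ | _⟩ := p <;> obtain ⟨u, v, _ | _⟩ := q <;>
      simp only [wt, toLex_inj, Prod.mk.injEq, hι.eq_iff, if_true, Bool.false_eq_true,
        if_false] at e <;> obtain ⟨-, rfl, rfl⟩ := e
    exacts [.refl, e3 (r _) (r _) z1 z2, e3 (r _) (r _) z1 z2, .refl]
  · exact .inr ⟨q, q1, fun m hm => e.trans_le (not_lt.1 (p2 m (by simpa using hm)))⟩

theorem can_iff (hb : Bal k A) (z : ¬A n.1 n.2.1) : can k ι A n.1 n.2.1 = n.2.2 ↔ Ch k ι A n := by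
  obtain ⟨x, y, _ | _⟩ := n
  · simp only [can, decide_eq_false_iff_not]
    exact ⟨(ch_or hι r hb z).resolve_right, fun h h' => h.not h' .refl⟩
  · simp [can]

theorem can_resp (hb : Bal k A) : Resp k A (can k ι A) := fun _ _ l e =>
  (can_iff hι r hb l.2.1).2 (((can_iff hι r hb l.1).1 e).cn (.single l))

omit hι in
theorem tri {b : V} {α β γ : Nd V} (h1 : ¬Cn 3 A γ α) (h2 : ¬Cn 3 A γ β) (c : Cn 3 A γ n)
    (h : ¬Adj A γ.1 b ∧ ¬A b γ.2.1 ∧ Cn 3 A (γ.1, b, γ.2.2) (if γ.2.2 then α else β) ∧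
      Cn 3 A (b, γ.2.1, γ.2.2) (if γ.2.2 then β else α)) :
    ¬Adj A n.1 b ∧ ¬A b n.2.1 ∧ Cn 3 A (n.1, b, n.2.2) (if n.2.2 then α else β) ∧
      Cn 3 A (b, n.2.1, n.2.2) (if n.2.2 then β else α) := by
  induction c with
  | refl => exact h
  | @tail n n' c l ih =>
    obtain ⟨x, y, s⟩ := n
    obtain ⟨u, v, s'⟩ := n'
    obtain ⟨i1, i2, i3, i4⟩ := ih
    have k : ∀ s, ¬Cn 3 A γ (if s = true then α else β) ∧ ¬Cn 3 A γ (if s = true then β else α) :=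
      fun s => by cases s <;> simp [h1, h2]
    have c' := Cn.tail c l
    obtain ⟨z, z', ⟨rfl, l, rfl⟩ | ⟨l, l', e⟩ | l | l⟩ := l
    · have j : ¬Adj A u b := fun j => (k s).2 (c'.trans ((e2 j z' i2).trans i4))
      exact ⟨j, i2, (e2 l.symm (fun e => j (.inl e)) fun e => i1 (.inl e)).trans i3, i4⟩
    · obtain rfl : s' = !s := by cases s <;> simp_all
      have j : ¬A b v := fun j => (k s).2 (c'.trans ((e3 j l' i2 z').symm.trans i4))
      have j3 := (e3 l (r b) (fun e => i1 (.inl e)) j).symm.trans i3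
      have j1 : ¬Adj A u b := fun e => (k s).1 (c'.trans ((e2 e z' j).trans j3))
      have j2 := (e3 (r b) l' i2 fun e => j1 (.inl e)).symm.trans i4
      cases s <;> exact ⟨j1, j, j2, j3⟩
    · omega
    · omega

omit hι in
theorem opp {x y : V} (h : ¬Adj A x y) : Cn k A (x, y, s) (y, x, !s) :=
  e3 (r x) (r y) (fun e => h (.inl e)) fun e => h (.inr e)

omit hι in
theorem low_le {a b c : V} (ab : ¬Adj A a b) (bc : ¬Adj A b c) (ca : ¬Adj A c a)
    (h1 : Ch 3 ι A (a, b, true)) (h2 : Ch 3 ι A (b, c, true)) (h3 : Ch 3 ι A (c, a, true)) :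
    (∀ n, Cn 3 A (a, b, true) n → ¬Adj A n.1 c ∧ Cn 3 A (n.1, c, n.2.2)
      (if n.2.2 then (a, c, true) else (c, b, true))) ∧ ∃ x y, Cn 3 A (a, b, true) (x, y, true) ∧
      ∀ u v, ¬Adj A u v → Cn 3 A (a, b, false) (u, v, true) → ι x ≤ ι u := by
  refine ⟨fun n c => ?_, ?_⟩
  · have := tri r (fun e => h1.not h3 (e.trans (opp r fun e => ca e.symm)))
      (fun e => h1.not h2 (e.trans (opp r fun e => bc e.symm))) c
      ⟨fun e => ca e.symm, fun e => bc (.inr e), .refl, .refl⟩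
    exact ⟨this.1, this.2.2.1⟩
  · obtain ⟨⟨x, y, s⟩, c, h⟩ := h1
    have k : ∀ u v, ¬Adj A u v → Cn 3 A (a, b, false) (u, v, true) →
        ¬A y x ∧ (if s then ι x else ι y) ≤ ι u := fun u v n e => by
      have := h _ e
      by_cases j : A y x <;> cases s <;>
        simp [wt, Prod.Lex.toLex_lt_toLex, j, show ¬A v u from fun e => n (.inr e)] at this ⊢ <;> omega
    cases s
    · exact ⟨y, x, c.trans (e3 (r _) (r _) (c.zero fun e => ab (.inl e))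
        (k b a (fun e => ab e.symm) (opp r ab)).1), fun u v n e => (k u v n e).2⟩
    · exact ⟨x, y, c, fun u v n e => (k u v n e).2⟩

theorem no_cyc {a b c : V} (ab : ¬Adj A a b) (bc : ¬Adj A b c) (ca : ¬Adj A c a)
    (h1 : Ch 3 ι A (a, b, true)) (h2 : Ch 3 ι A (b, c, true)) (h3 : Ch 3 ι A (c, a, true)) :
    False := by
  obtain ⟨p1, x1, y1, c1, q1⟩ := low_le r ab bc ca h1 h2 h3
  obtain ⟨p2, x2, y2, c2, q2⟩ := low_le r bc ca ab h2 h3 h1
  obtain ⟨p3, x3, y3, c3, q3⟩ := low_le r ca ab bc h3 h1 h2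
  have d1 : Cn 3 A (c, a, false) _ := (opp r ca).trans (p1 _ c1).2.symm
  have d2 : Cn 3 A (a, b, false) _ := (opp r ab).trans (p2 _ c2).2.symm
  have d3 : Cn 3 A (b, c, false) _ := (opp r bc).trans (p3 _ c3).2.symm
  obtain rfl : x1 = x2 := hι (le_antisymm (q1 _ _ (p2 _ c2).1 d2)
    ((q2 _ _ (p3 _ c3).1 d3).trans (q3 _ _ (p1 _ c1).1 d1)))
  exact h2.not h3 ((opp r bc).trans ((p1 _ d2.ng).2.ng.symm.trans d1.symm))

theorem no_star {b c m : V} (bc : ¬Adj A b c) (mb : A m b) (mc : A m c) (bm : ¬A b m) (cm : ¬A c m)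
    (h1 : Ch 3 ι A (b, m, true)) (h2 : Ch 3 ι A (c, m, false)) (h3 : Ch 3 ι A (c, b, true)) :
    False := by
  have k : ∀ n, Cn 3 A (c, m, false) n → n.2 = (m, false) ∧ ¬Adj A n.1 b ∧
      Cn 3 A (n.1, b, true) (c, b, true) ∧ A m n.1 := fun n e => by
    induction e with
    | refl => exact ⟨rfl, fun e => bc e.symm, .refl, mc⟩
    | @tail n n' e l ih =>
      obtain ⟨y, _⟩ := n
      obtain ⟨u, v, s⟩ := n'
      obtain ⟨rfl, i1, i2, i3⟩ := ih
      have e' := Cn.tail e l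
      obtain ⟨z, z', ⟨rfl, l, rfl⟩ | ⟨l, l', j⟩ | l | l⟩ := l
      · have j : ¬Adj A u b := fun j => h2.not h1 (e'.trans (e2 j z' bm))
        have j' := (e2 l.symm (fun e => j (.inl e)) fun e => i1 (.inl e)).trans i2
        exact ⟨rfl, j, j', by_contra fun n => h2.not h3 (e'.trans ((e3 (r _) (r _) z' n).trans
          ((e2 (.inl mb) n fun e => j (.inr e)).trans ((opp r fun e => j e.symm).trans j'.ng))))⟩
      · obtain rfl : s = true := by simpa using j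
        have j1 : ¬A b v := fun j => h1.not h2 ((e3 j l' bm z').trans e'.ng.symm)
        have j2 := (e3 (s := false) l (r b) (fun e => i1 (.inl e)) j1).symm.trans i2.ng
        have j3 : ¬Adj A u b := fun j => h2.not h3 (e'.trans ((e2 j z' j1).trans j2))
        have j4 := e3 (k := 3) (s := true) (r b) l' bm fun e => j3 (.inl e)
        have j5 : ¬Adj A u y := fun j => h1.not h3
          (j4.trans ((e2 j (fun e => j3 (.inl e)) fun e => i1 (.inl e)).trans i2.ng))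
        exact (no_cyc hι r (fun e => j3 e.symm) j5 i1 (h1.cn (j4.trans (opp r j3)))
          (h2.cn (e.trans (e3 (r _) l' z fun e => j5 (.inl e)))) (h3.cn i2.symm)).elim
      · omega
      · omega
  obtain ⟨⟨x, _⟩, e, h⟩ := h2
  obtain ⟨rfl, -, -, j⟩ := k _ e
  simpa [wt, Prod.Lex.toLex_lt_toLex, ng, mc, show A m x from j] using h _ .refl

/-- the canonical colouring is transitive -/
theorem can_tr (hb : Bal 3 A) {b c m : V} (bm : ¬A b m) (cm : ¬A c m) (h1 : can 3 ι A b m = true)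
    (h2 : can 3 ι A c m = false) : ¬Adj A b c ∧ can 3 ι A b c = true := by
  have k1 := (can_iff (n := (b, m, true)) hι r hb bm).1 h1
  have k2 := (can_iff (n := (c, m, false)) hι r hb cm).1 h2
  have bc : ¬Adj A b c := fun e => k1.not k2 (e2 e bm cm)
  refine ⟨bc, by_contra fun e => ?_⟩
  have k3 := ((can_iff (n := (b, c, false)) hι r hb fun e => bc (.inl e)).1
    (by simpa using e)).cn (opp r bc)
  by_cases mb : A m b <;> by_cases mc : A m c
  · exact no_star hι r bc mb mc bm cm k1 k2 k3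
  · exact k2.not k3 ((e3 (r _) (r _) cm mc).trans
      ((e2 (.inl mb) mc fun e => bc (.inl e)).trans (opp r bc)))
  · exact k1.not k3 ((e3 (r _) (r _) bm mb).trans (e2 (.inl mc) mb fun e => bc (.inr e)))
  · exact no_cyc hι r (not_or.2 ⟨bm, mb⟩) (not_or.2 ⟨mc, cm⟩) (fun e => bc e.symm) k1
      (k2.cn (e3 (r _) (r _) cm mc)) k3

end Pool.Agent.Lib.MP_7285af_lc
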