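import Pool.Agent.Lib.MP_7285af_lc.LnkA

/-! Proper representations: all forcing classes but one are interiors of modules. -/

noncomputable section

namespace Pool.Agent.Lib.MP_7285af_lc

open Relation Classical

variable {V : Type} {a b t : ℕ} {A : V → V → Prop} {χ χ' : V → V → Bool} {ρ : Rp V}
  {x y u v z w m : V}

def Lu (A : V → V → Prop) (x y u v : V) : Prop := ∃ s, Cn 2 A (x, y, true) (u, v, s)

theorem Lu.of {s s' : Bool} (h : Cn 2 A (x, y, s) (u, v, s')) : Lu A x y u v := by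
  cases s
  exacts [⟨_, h.ng⟩, ⟨_, h⟩]

theorem Lu.ex (h : Lu A x y u v) (s : Bool) : ∃ s', Cn 2 A (x, y, s) (u, v, s') := by
  cases s
  exacts [h.elim fun _ h => ⟨_, h.ng⟩, h]

theorem Lu.symm (h : Lu A x y u v) : Lu A u v x y := h.elim fun _ h => .of h.symm

theorem Lu.trans (h : Lu A x y u v) (h' : Lu A u v z w) : Lu A x y z w :=
  h.elim fun s h => (h'.ex s).elim fun _ h' => .of (h.trans h')

theorem Lu.zero (h : Lu A x y u v) (n : ¬A x y) : ¬A u v := h.elim fun _ h => h.zero n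

theorem l2 (h : Adj A x y) (h1 : ¬A x m) (h2 : ¬A y m) : Lu A x m y m := ⟨_, e2 h h1 h2⟩

theorem l3 (h : A x v) (h' : A u y) (h1 : ¬A x y) (h2 : ¬A u v) : Lu A x y u v := ⟨_, e3 h h' h1 h2⟩

theorem l5 (h : A u y) (h' : A u v) (h1 : ¬A x y) (h2 : ¬A x v) : Lu A x y x v :=
  ⟨true, .single ⟨h1, h2, .inr (.inr (.inl ⟨le_rfl, rfl, ⟨u, h, h'⟩, rfl⟩))⟩⟩

theorem Lu.agree (h : Lu A x y u v) (r : Resp 2 A χ) (r' : Resp 2 A χ') (e : χ x y = χ' x y) :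
    χ u v = χ' u v := (h.ex (χ x y)).elim fun _ c => (r.cn c rfl).trans (r'.cn c e.symm).symm

/-- the out-neighbourhood of `z` is a module -/
def Md (A : V → V → Prop) (z : V) : Prop := (∃ x y, A z x ∧ A z y ∧ ¬A x y) ∧
  (∀ v t, A z v → A v t → A z t) ∧ ∀ s v, ¬A z s → A s v → A z v → ∀ m, A z m → A v m ∧ A m v

section
variable (r : ∀ v, A v v)
include r

theorem lu_in (h1 : A z x) (h2 : A z y) (h3 : A z u) (h4 : A z v) (n : ¬A x y) (n' : ¬A u v) :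
    Lu A x y u v := by
  have k : ∀ v, A z v → ¬A x v → ¬A u v → Lu A x v u v := fun v h n n' => by
    by_cases e : Adj A x u
    · exact l2 e n n'
    · obtain ⟨e, e'⟩ := not_or.1 e
      exact (l5 h h3 n e).trans ((l3 (r x) (r u) e e').trans (l5 h1 h e' n'))
  by_cases e : A x v
  · by_cases e' : A u y
    exacts [l3 e e' n n', (k y h2 n e').trans (l5 h2 h4 e' n')]
  · exact (l5 h2 h4 n e).trans (k v h4 e n')

theorem md_of (n : ¬A x y) (h : ∀ u v, Lu A x y u v → A z u ∧ A z v) : Md A z := by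
  obtain ⟨h1, h2⟩ := h x y ⟨_, .refl⟩
  have p : ∀ u v t, A z u → A z v → ¬A u v → ¬A z t → ¬A u t := fun u v t a b c d e =>
    d (h _ _ ((lu_in r h1 h2 a b n c).trans (l3 e b c d))).2
  have q : ∀ u v s, A z u → A z v → ¬A u v → ¬A z s → ¬A s v := fun u v s a b c d e =>
    d (h _ _ ((lu_in r h1 h2 a b n c).trans (l5 e (r s) c (p u v s a b c d)))).2
  refine ⟨⟨x, y, h1, h2, n⟩, fun v t a b => by_contra fun d => d (h _ _ (l5 (by_contra fun c =>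
    p v y t a h2 c d b) b n (p x y t h1 h2 n d))).2, fun s v d e a m b => ⟨by_contra fun c => d (h _ _
      ((lu_in r h1 h2 a b n c).trans (l2 (.inr e) c (q v m s a b c d)))).1,
    by_contra fun c => q m v s b a c d e⟩⟩

theorem cut_lemma (hc : Conn A) {B : V → Prop} {γ : V} (g : ¬B γ)
    (h1 : ∀ k i, B k → ¬B i → ¬A k i) (h2 : ∀ s k, ¬B s → B k → A s k → A γ k)
    (h3 : ∀ k l, B k → B l → A γ k → A γ l → Adj A k l) (bx : B x) (by' : B y) (n : ¬A x y)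
    (hk : ∀ k, B k → (∀ l, B l → Lu A k γ l γ) → ¬Lu A x y x γ)
    (h0 : ∀ z, B z → A γ z → ¬Lu A x y x γ → A x z) : ∃ z, ∀ u v, Lu A x y u v → A z u ∧ A z v := by
  obtain ⟨z, s, bz, bs, e⟩ := hc.cross bx g
  have gz := h2 s z bs bz (e.resolve_left (h1 z s bz bs))
  have c : ∀ v, (B v → Lu A z γ v γ) := fun v => by
    have := hc z v
    induction this with
    | refl => exact fun _ => ⟨_, .refl⟩
    | @tail u v _ e ih =>
      intro bv
      by_cases bu : B u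
      · exact (ih bu).trans (l2 e (h1 _ _ bu g) (h1 _ _ bv g))
      · exact l2 (h3 _ _ bz bv gz (h2 u v bu bv (e.resolve_right (h1 v u bv bu)))) (h1 _ _ bz g)
          (h1 _ _ bv g)
  have K : ∀ {u v k}, Lu A x y u v → B k → ¬Lu A u v k γ := fun e bk e' =>
    hk z bz c (e.trans (e'.trans ((c _ bk).symm.trans (c _ bx))))
  have K' : ∀ {u v k}, Lu A x y u v → B k → ¬A γ k → ¬Lu A u v γ k := fun e bk j e' =>
    K e bk (e'.trans (l3 (r _) (r _) j (h1 _ _ bk g)))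
  have fb : ∀ {u v}, Lu A x y u v → B u → B v → ¬A γ v := fun e bu bv j =>
    K e bu (l5 j (r _) (e.zero n) (h1 _ _ bu g))
  have fa : ∀ {u v}, Lu A x y u v → B u → A z v → A u z := fun e bu j => by_contra fun i =>
    K e bu ((l5 j (r _) (e.zero n) i).trans (l5 gz (r _) i (h1 _ _ bu g)))
  have fc : ∀ {u v}, Lu A x y u v → B u → B v → A u z → A z v := fun e bu bv j => by_contra fun i =>
    K' e bv (fb e bu bv) ((l2 (.inl j) (e.zero n) i).trans (l2 (.inr gz) i (fb e bu bv)))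
  have I : ∀ k, Cn 2 A (x, y, true) k → B k.1 ∧ B k.2.1 ∧ A k.1 z ∧ A z k.2.1 := fun k e => by
    induction e with
    | refl =>
      have := h0 z bz gz (hk z bz c)
      exact ⟨bx, by', this, fc ⟨_, .refl⟩ bx by' this⟩
    | @tail k k' e l ih =>
      obtain ⟨x1, y1, s1⟩ := k
      obtain ⟨x2, y2, s2⟩ := k'
      obtain ⟨b1, b2, i1, i2⟩ := ih
      have e1 : Lu A x y x1 y1 := ⟨_, e⟩
      have e2 : Lu A x y x2 y2 := ⟨_, Cn.tail e l⟩
      have j := fb e1 b1 b2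
      obtain ⟨n1, n2, ⟨rfl, l, -⟩ | ⟨l, l', -⟩ | ⟨-, rfl, ⟨s, l, l'⟩, -⟩ | l⟩ := l
      · have b3 : B x2 := by_contra fun b3 => K' e1 b2 j
          (l2 (.inr (h2 _ _ b3 b1 (l.resolve_left (h1 _ _ b1 b3)))) n1 j)
        exact ⟨b3, b2, fa e2 b3 i2, i2⟩
      · have b3 : B x2 := by_contra fun b3 => j (h2 _ _ b3 b2 l')
        have b4 : B y2 := by_contra fun b4 => h1 _ _ b1 b4 l
        have i3 : A x2 z := by_contra fun i =>
          K e2 b3 ((l5 l i1 n2 i).trans (l5 gz (r _) i (h1 _ _ b3 g)))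
        exact ⟨b3, b4, i3, fc e2 b3 b4 i3⟩
      · have b4 : B y2 := by_contra fun b4 => j (h2 s _ (fun bs => h1 _ _ bs b4 l') b2 l)
        exact ⟨b1, b4, i1, fc e2 b1 b4 i1⟩
      · omega
  refine ⟨z, fun u v e => ?_⟩
  obtain ⟨s, e'⟩ := id e
  obtain ⟨b1, b2, i1, i2⟩ := I (u, v, s) e'
  have j : ¬A γ u := fun j => K' e b2 (fb e b1 b2) (l2 (.inr j) (e.zero n) (fb e b1 b2))
  exact ⟨by_contra fun i => K' e b1 j ((l3 (r _) i2 (e.zero n) i).trans (l2 (.inr gz) i j)), i2⟩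

end

def Rp.le (ρ : Rp V) (x y : V) : Prop := ρ.L x ≤ ρ.L y ∧ ρ.R x ≤ ρ.R y

theorem Rp.le.trans (h : ρ.le x y) (h' : ρ.le y z) : ρ.le x z := ⟨h.1.trans h'.1, h.2.trans h'.2⟩

theorem Rp.Mono.total (h : ρ.Mono) (x y : V) : ρ.le x y ∨ ρ.le y x := by
  rcases lt_trichotomy (ρ.L x) (ρ.L y) with e | e | e
  · exact .inl ⟨e.le, h x y e⟩
  · exact (le_total (ρ.R x) (ρ.R y)).imp (⟨e.le, ·⟩) (⟨e.ge, ·⟩)
  · exact .inr ⟨e.le, h y x e⟩

theorem Rp.Mono.neg (h : ρ.Mono) : ρ.neg.Mono := fun x y e => neg_le_neg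
  ((h.total x y).elim (fun k => absurd (neg_lt_neg_iff.1 e) k.2.not_gt) fun k => k.1)

variable [Finite V]

theorem Rp.Mono.max (h : ρ.Mono) {B : V → Prop} (b : B x) : ∃ γ, B γ ∧ ∀ s, B s → ρ.le s γ := by
  obtain ⟨γ, hγ⟩ := @Finite.exists_max {v // B v} ℝ _ ⟨⟨x, b⟩⟩ _ fun v => ρ.L v + ρ.R v
  exact ⟨γ, γ.2, fun s bs => (h.total s γ).elim id fun k =>
    ⟨by linarith [hγ ⟨s, bs⟩, k.2], by linarith [hγ ⟨s, bs⟩, k.1]⟩⟩

theorem Rp.Mono.min (h : ρ.Mono) {B : V → Prop} (b : B x) : ∃ γ, B γ ∧ ∀ s, B s → ρ.le γ s :=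
  let ⟨γ, h1, h2⟩ := h.neg.max b
  ⟨γ, h1, fun s bs => ⟨neg_le_neg_iff.1 (h2 s bs).2, neg_le_neg_iff.1 (h2 s bs).1⟩⟩

section
variable (h : ρ.Ok a b t A χ) (mo : ρ.Mono) (hc : Conn A)
include h

omit [Finite V] in
theorem Rp.Ok.mid (h1 : ρ.le x y) (h2 : ρ.le y z) (e : A x m) (e' : A z m) : A y m :=
  (h.iff _ _).2 ⟨h2.1.trans (h.arc _ _ e').1, (h.arc _ _ e).2.trans h1.2⟩

include mo hc

theorem to_min {x0 x1 : V} (h0 : ∀ v, ρ.le x0 v) (h1 : ∀ v, ρ.le v x1) (e : ρ.R x < ρ.p y)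
    (nm : ¬∃ z, ∀ u v, Lu A x y u v → A z u ∧ A z v) : ∃ y', A x1 y' ∧ Lu A x y x0 y' := by
  have r := h.refl
  have rf : ∀ v, ρ.le v v := fun v => ⟨le_rfl, le_rfl⟩
  have n := (h.of_lt e).1
  have s1 : Lu A x y x0 y := by_contra fun c => nm (by
    let B := fun k => ∃ x', Lu A x y x' y ∧ ρ.R x' < ρ.p y ∧ ρ.le x' k
    have lo : ∀ i k, ¬B i → B k → ρ.le i k := fun i k bi ⟨x', a1, a2, a3⟩ =>
      (mo.total i k).resolve_right fun j => bi ⟨x', a1, a2, a3.trans j⟩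
    have nl : ∀ i x', ¬B i → Lu A x y x' y → ρ.R x' < ρ.p y → ρ.R i < ρ.p y ∧ ¬Lu A x y i y :=
      fun i x' bi a1 a2 => have := (lo i x' bi ⟨x', a1, a2, rf _⟩).2.trans_lt a2
        ⟨this, fun j => bi ⟨i, j, this, rf _⟩⟩
    have bx : B x := ⟨x, ⟨_, .refl⟩, e, rf _⟩
    obtain ⟨γ, g, hg⟩ := mo.max (B := fun k => ¬B k) (x := x0) fun ⟨x', a1, a2, a3⟩ => c (a1.trans
      (l2 (.inl (h.mid a3 (h0 _) (h.mid (h0 _) a3 (r _) (r _)) (r _) |> fun _ =>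
        h.mid (h0 _) a3 (r _) (r _))) (a1.zero n) (h.of_lt ((h0 x).2.trans_lt e)).1))
    have bx' : B y := ⟨x, ⟨_, .refl⟩, e, (mo.total x y).resolve_right fun j => by
      linarith [j.2, h.pq y, h.qr y]⟩
    obtain ⟨g1, g2⟩ := nl γ x g ⟨_, .refl⟩ e
    have h1 : ∀ k i, B k → ¬B i → ¬A k i := fun k i ⟨x', a1, a2, a3⟩ bi j =>
      (nl i x' bi a1 a2).2 (a1.trans (l2 (.inl (h.mid (lo i x' bi ⟨x', a1, a2, rf _⟩) a3 (r _) j))
        (a1.zero n) (h.of_lt (nl i x' bi a1 a2).1).1))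
    refine cut_lemma r hc g h1 (fun s k bs bk j => h.mid (hg s bs) (lo γ k g bk) j (r _))
      (fun k l bk bl j j' => (mo.total k l).imp (fun o => h.mid (lo γ k g bk) o j' (r _))
        fun o => h.mid (lo γ l g bl) o j (r _)) bx bx' n (fun k _ c j => g2 (j.trans
          ((c x bx).symm.trans ((c y bx').trans (l3 (r _) (r _) (h1 _ _ bx' g) (h.of_lt g1).1)))))
      fun z ⟨x', a1, a2, a3⟩ j _ => ?_
    rcases mo.total x z with o | o
    · exact h.mid (lo γ x g bx) o j (r _)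
    · have n' := (h.of_lt (o.2.trans_lt e)).1
      exact absurd (a1.trans ((l2 (.inl (h.mid (lo γ x' g ⟨x', a1, a2, rf _⟩) a3 j (r _)))
        (a1.zero n) n').trans (l2 (.inr j) n' (h.of_lt g1).1))) g2)
  by_contra c
  refine nm ?_
  have n0 := s1.zero n
  let B := fun k => ∃ j y', Lu A x0 y x0 y' ∧ A j y' ∧ ρ.le k j
  have lo : ∀ i k, ¬B i → B k → ρ.le k i := fun i k bi ⟨j, y', a1, a2, a3⟩ =>
    (mo.total k i).resolve_right fun o => bi ⟨j, y', a1, a2, o.trans a3⟩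
  obtain ⟨γ, g, hg⟩ := mo.min (B := fun k => ¬B k) (x := x1) fun ⟨j, y', a1, a2, a3⟩ =>
    c ⟨y', h.mid (h1 j) a3 a2 a2, s1.trans a1⟩
  have by' : B y := ⟨y, y, ⟨_, .refl⟩, r _, rf _⟩
  have b0 : B x0 := ⟨y, y, ⟨_, .refl⟩, r _, h0 _⟩
  have h1 : ∀ k i, B k → ¬B i → ¬A k i := fun k i ⟨j, y', a1, a2, a3⟩ bi e => by
    have o := lo i j bi ⟨j, y', a1, a2, rf _⟩
    have e' := h.mid a3 o e (r _)
    have n1 := a1.zero n0
    by_cases i0 : A x0 i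
    · refine bi ⟨i, y', a1, (h.iff _ _).2 ⟨?_, (h.arc _ _ a2).2.trans o.2⟩, rf _⟩
      have : ρ.R x0 < ρ.p y' := not_le.1 fun k => n1 ((h.iff _ _).2
        ⟨(h0 y').1.trans ((h.lp _).trans (h.pq _)), k⟩)
      linarith [(h.arc _ _ i0).2, h.lp i, h.pq y']
    · exact bi ⟨i, i, a1.trans (l5 a2 e' n1 i0), r _, rf _⟩
  obtain ⟨z, hz⟩ := cut_lemma r hc g h1 (fun s k bs bk j => h.mid (lo γ k g bk) (hg s bs) (r _) j)
    (fun k l bk bl j j' => (mo.total k l).symm.imp (fun o => h.mid o (lo γ k g bk) (r _) j')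
      fun o => h.mid o (lo γ l g bl) (r _) j) b0 by' n0 (fun _ _ _ j => g ⟨γ, γ, j, r _, rf _⟩)
    fun z ⟨j, y', a1, a2, a3⟩ e k => by_contra fun i => k (a1.trans ((l5 a2
      (h.mid a3 (lo γ j g ⟨j, y', a1, a2, rf _⟩) (r _) e) (a1.zero n0) i).trans
        (l5 e (r _) i (h1 _ _ b0 g))))
  exact ⟨z, fun u v e => hz u v (s1.symm.trans e)⟩

/-- non-arcs outside of the modules are linked -/
theorem main_lu (n : ¬A x y) (n' : ¬A u v) (k : ¬∃ z, Md A z ∧ A z x ∧ A z y)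
    (k' : ¬∃ z, Md A z ∧ A z u ∧ A z v) : Lu A x y u v := by
  obtain ⟨x0, -, h0⟩ := mo.min (B := fun _ => True) (x := x) trivial
  obtain ⟨x1, -, h1⟩ := mo.max (B := fun _ => True) (x := x) trivial
  have H : ∀ x y, ¬A x y → (¬∃ z, Md A z ∧ A z x ∧ A z y) →
      ∃ y', (A x1 y' ∧ Lu A x y x0 y') ∨ (A x0 y' ∧ Lu A x y x1 y') := fun x y n k => by
    have nm : ¬∃ z, ∀ u v, Lu A x y u v → A z u ∧ A z v := fun ⟨z, e⟩ =>
      k ⟨z, md_of h.refl n e, e x y ⟨_, .refl⟩⟩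
    cases c : χ x y
    · exact (to_min h.neg mo.neg hc (fun v => ⟨neg_le_neg (h1 v trivial).2,
        neg_le_neg (h1 v trivial).1⟩) (fun v => ⟨neg_le_neg (h0 v trivial).2,
        neg_le_neg (h0 v trivial).1⟩) (neg_lt_neg (h.zr x y n c)) nm).imp fun _ => .inr
    · exact (to_min h mo hc (h0 · trivial) (h1 · trivial) (h.zl x y n c) nm).imp fun _ => .inl
  obtain ⟨y1, ⟨a1, a2⟩ | ⟨a1, a2⟩⟩ := H x y n k <;> obtain ⟨y2, ⟨b1, b2⟩ | ⟨b1, b2⟩⟩ := H u v n' k' <;>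
    refine a2.trans (.trans ?_ b2.symm)
  exacts [l5 a1 b1 (a2.zero n) (b2.zero n'), l3 b1 a1 (a2.zero n) (b2.zero n'),
    l3 b1 a1 (a2.zero n) (b2.zero n'), l5 a1 b1 (a2.zero n) (b2.zero n')]

end

end Pool.Agent.Lib.MP_7285af_lc
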