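import Pool.Agent.Lib.MP_7285af_lc.Defs

/-! Totally bounded representations with a prescribed colouring of the non-arcs. -/

noncomputable section

namespace Pool.Agent.Lib.MP_7285af_lc

structure Rp (V : Type) where
  L : V → ℝ
  R : V → ℝ
  p : V → ℝ
  q : V → ℝ

variable {V W : Type} {a b t : ℕ} {A : V → V → Prop} {χ χ' : V → V → Bool} {ρ : Rp V}

/-- `χ x y` says that the interval of `x` is to the left of the core of `y` -/
structure Rp.Ok (ρ : Rp V) (a b t : ℕ) (A : V → V → Prop) (χ : V → V → Bool) : Prop where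
  lp : ∀ v, ρ.L v ≤ ρ.p v
  pq : ∀ v, ρ.p v ≤ ρ.q v
  qr : ∀ v, ρ.q v ≤ ρ.R v
  arc : ∀ x y, A x y → ρ.L x ≤ ρ.q y ∧ ρ.p y ≤ ρ.R x
  zl : ∀ x y, ¬A x y → χ x y = true → ρ.R x < ρ.p y
  zr : ∀ x y, ¬A x y → χ x y = false → ρ.q y < ρ.L x
  pl : a ≠ 3 → ∀ x y m, ¬A x m → χ x m = true → A y m → ρ.L x ≤ ρ.L y
  pr : a ≠ 3 → ∀ x y m, ¬A x m → χ x m = false → A y m → ρ.R y ≤ ρ.R x
  un : a = 1 → ∀ x y, ρ.R x - ρ.L x = ρ.R y - ρ.L y
  pt : b = 1 → ∀ v, ρ.p v = ρ.q v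
  tol : t = 1 → ∀ v, ρ.p v - ρ.L v = ρ.R v - ρ.q v

/-- strict inequalities -/
structure Rp.St (ρ : Rp V) (a b : ℕ) (A : V → V → Prop) (χ : V → V → Bool) : Prop where
  lp : ∀ v, ρ.L v < ρ.p v
  pq : b ≠ 1 → ∀ v, ρ.p v < ρ.q v
  qr : ∀ v, ρ.q v < ρ.R v
  arc : ∀ x y, A x y → ρ.L x < ρ.q y ∧ ρ.p y < ρ.R x
  pl : a ≠ 3 → ∀ x y m, ¬A x m → χ x m = true → A y m → ρ.L x < ρ.L y
  pr : a ≠ 3 → ∀ x y m, ¬A x m → χ x m = false → A y m → ρ.R y < ρ.R x

def Rep (a b t : ℕ) (A : V → V → Prop) (χ : V → V → Bool) : Prop := ∃ ρ : Rp V, ρ.Ok a b t A χ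

def Cls (a b t : ℕ) (A : V → V → Prop) : Prop := ∃ χ, Rep a b t A χ

/-- no interval lies in the interior of another one -/
def Rp.Mono (ρ : Rp V) : Prop := ∀ x y, ρ.L x < ρ.L y → ρ.R x ≤ ρ.R y

def Rp.neg (ρ : Rp V) : Rp V := ⟨fun v => -ρ.R v, fun v => -ρ.L v, fun v => -ρ.q v, fun v => -ρ.p v⟩

def Rp.comap (ρ : Rp V) (f : W → V) : Rp W := ⟨ρ.L ∘ f, ρ.R ∘ f, ρ.p ∘ f, ρ.q ∘ f⟩

theorem Rp.comap_surj {U : V → Prop} (σ : Rp {x // U x}) : ∃ ρ : Rp V, ρ.comap Subtype.val = σ :=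
  let e := fun f : {x // U x} → ℝ => Function.extend Subtype.val f 0
  have h := fun f => Function.extend_comp (Subtype.val_injective (p := U)) f (0 : V → ℝ)
  ⟨⟨e σ.L, e σ.R, e σ.p, e σ.q⟩, by simp only [Rp.comap, e, h]⟩

namespace Rp.Ok

variable (h : ρ.Ok a b t A χ)
include h

theorem neg : ρ.neg.Ok a b t A fun x y => !χ x y :=
  ⟨fun v => neg_le_neg (h.qr v), fun v => neg_le_neg (h.pq v), fun v => neg_le_neg (h.lp v),
    fun x y e => ⟨neg_le_neg (h.arc x y e).2, neg_le_neg (h.arc x y e).1⟩,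
    fun x y e c => neg_lt_neg (h.zr x y e (by simpa using c)),
    fun x y e c => neg_lt_neg (h.zl x y e (by simpa using c)),
    fun k x y m e c e' => neg_le_neg (h.pr k x y m e (by simpa using c) e'),
    fun k x y m e c e' => neg_le_neg (h.pl k x y m e (by simpa using c) e'),
    fun k x y => by have := h.un k x y; simp only [Rp.neg]; linarith,
    fun k v => congrArg Neg.neg (h.pt k v).symm,
    fun k v => by have := h.tol k v; simp only [Rp.neg]; linarith⟩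

theorem comap (f : W → V) :
    (ρ.comap f).Ok a b t (fun x y => A (f x) (f y)) fun x y => χ (f x) (f y) :=
  ⟨fun _ => h.lp _, fun _ => h.pq _, fun _ => h.qr _, fun _ _ => h.arc _ _, fun _ _ => h.zl _ _,
    fun _ _ => h.zr _ _, fun k _ _ _ => h.pl k _ _ _, fun k _ _ _ => h.pr k _ _ _,
    fun k _ _ => h.un k _ _, fun k _ => h.pt k _, fun k _ => h.tol k _⟩

theorem congr (e : ∀ x y, ¬A x y → χ' x y = χ x y) : ρ.Ok a b t A χ' :=
  { h with
    zl := fun x y n c => h.zl x y n (e x y n ▸ c)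
    zr := fun x y n c => h.zr x y n (e x y n ▸ c)
    pl := fun k x y m n c => h.pl k x y m n (e x m n ▸ c)
    pr := fun k x y m n c => h.pr k x y m n (e x m n ▸ c) }

theorem lr (v : V) : ρ.L v ≤ ρ.R v := (h.lp v).trans ((h.pq v).trans (h.qr v))

theorem iff (x y : V) : A x y ↔ ρ.L x ≤ ρ.q y ∧ ρ.p y ≤ ρ.R x :=
  ⟨h.arc x y, fun e => by
    by_contra n
    cases c : χ x y
    exacts [(h.zr x y n c).not_ge e.1, (h.zl x y n c).not_ge e.2]⟩

theorem refl (v : V) : A v v := (h.iff v v).2 ⟨(h.lp v).trans (h.pq v), (h.pq v).trans (h.qr v)⟩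

theorem of_lt {x y : V} (e : ρ.R x < ρ.p y) : ¬A x y ∧ χ x y = true := by
  have n : ¬A x y := fun n => (h.arc x y n).2.not_gt e
  refine ⟨n, by_contra fun c => ?_⟩
  linarith [h.zr x y n (by simpa using c), h.pq y, h.lr x]

theorem of_gt {x y : V} (e : ρ.q y < ρ.L x) : ¬A x y ∧ χ x y = false := by
  simpa using h.neg.of_lt (x := x) (y := y) (neg_lt_neg e)

/-- affine maps -/
theorem aff {s : ℝ} (s0 : 0 < s) (d : ℝ) : Rp.Ok ⟨fun v => s * ρ.L v + d, fun v => s * ρ.R v + d,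
    fun v => s * ρ.p v + d, fun v => s * ρ.q v + d⟩ a b t A χ := by
  have e : ∀ {x y : ℝ}, x ≤ y → s * x + d ≤ s * y + d := fun e => by nlinarith
  have e' : ∀ {x y : ℝ}, x < y → s * x + d < s * y + d := fun e => by nlinarith
  exact ⟨fun _ => e (h.lp _), fun _ => e (h.pq _), fun _ => e (h.qr _),
    fun x y k => ⟨e (h.arc x y k).1, e (h.arc x y k).2⟩, fun x y n c => e' (h.zl x y n c),
    fun x y n c => e' (h.zr x y n c), fun k x y m n c n' => e (h.pl k x y m n c n'),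
    fun k x y m n c n' => e (h.pr k x y m n c n'),
    fun k x y => by simp only; linear_combination s * h.un k x y,
    fun k v => by simp only; rw [h.pt k v], fun k v => by simp only; linear_combination s * h.tol k v⟩

end Rp.Ok

theorem Rep.neg (h : Rep a b t A χ) : Rep a b t A fun x y => !χ x y := let ⟨_, h⟩ := h; ⟨_, h.neg⟩

theorem Rep.congr (h : Rep a b t A χ) (e : ∀ x y, ¬A x y → χ' x y = χ x y) : Rep a b t A χ' :=
  let ⟨_, h⟩ := h; ⟨_, h.congr e⟩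

theorem Cls.comap (h : Cls a b t A) (f : W → V) : Cls a b t fun x y => A (f x) (f y) :=
  let ⟨_, _, h⟩ := h; ⟨_, _, h.comap f⟩

theorem ex_gap {ι : Type} [Finite ι] (f : ι → ℝ) : ∃ η > 0, ∀ i, 0 < f i → η ≤ f i := by
  by_cases h : ∃ i, 0 < f i
  · have : Nonempty {i // 0 < f i} := h.elim fun i hi => ⟨⟨i, hi⟩⟩
    obtain ⟨i, hi⟩ := Finite.exists_min fun i : {i // 0 < f i} => f i
    exact ⟨_, i.2, fun j hj => hi ⟨j, hj⟩⟩
  · exact ⟨1, one_pos, fun i hi => absurd ⟨i, hi⟩ h⟩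

theorem ex_bound {ι : Type} [Finite ι] (f : ι → ℝ) : ∃ K > 0, ∀ i, f i < K := by
  obtain ⟨K, hK⟩ := (Set.finite_range f).bddAbove
  exact ⟨|K| + 1, by positivity, fun i => by linarith [hK ⟨i, rfl⟩, le_abs_self K]⟩

variable [Finite V]

theorem Rp.Ok.strict (h : ρ.Ok a b t A χ) : ∃ ρ' : Rp V, ρ'.Ok a b t A χ ∧ ρ'.St a b A χ ∧
    (ρ.Mono → ∀ x y, ρ'.L x < ρ'.L y ↔ ρ'.R x < ρ'.R y) := by
  obtain ⟨K, K0, hK⟩ := ex_bound fun i : V × V => ρ.L i.1 + ρ.R i.1 - (ρ.L i.2 + ρ.R i.2)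
  obtain ⟨η, η0, hη⟩ := ex_gap fun i : V × V × Bool =>
    if i.2.2 then ρ.p i.2.1 - ρ.R i.1 else ρ.L i.1 - ρ.q i.2.1
  obtain ⟨ε, ε0, hε⟩ : ∃ ε > 0, ε * K * 4 = η := ⟨η / 4 / K, by positivity, by field_simp⟩
  obtain ⟨β, β0, β1, β2, β3⟩ : ∃ β : ℝ, 0 ≤ β ∧ β ≤ ε * K ∧ (b = 1 → β = 0) ∧ (b ≠ 1 → 0 < β) := by
    by_cases hb : b = 1
    · exact ⟨0, le_rfl, by positivity, fun _ => rfl, fun k => absurd hb k⟩
    · exact ⟨ε * K, by positivity, le_rfl, fun k => absurd k hb, fun _ => by positivity⟩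
  obtain ⟨c, hc⟩ : ∃ c : V → ℝ, ∀ v, c v = ε * (ρ.L v + ρ.R v) := ⟨_, fun _ => rfl⟩
  have c1 : ∀ x y, c x - c y < ε * K := fun x y => by
    rw [hc, hc, ← mul_sub]; exact mul_lt_mul_of_pos_left (hK (x, y)) ε0
  have c2 : ∀ x y, ρ.L x + ρ.R x < ρ.L y + ρ.R y → c x < c y := fun x y e => by
    rw [hc, hc]; exact mul_lt_mul_of_pos_left e ε0
  have e0 := mul_pos ε0 K0
  have s : Rp.St ⟨fun v => ρ.L v + c v - 2 * (ε * K), fun v => ρ.R v + c v + 2 * (ε * K),
      fun v => ρ.p v + c v - β, fun v => ρ.q v + c v + β⟩ a b A χ := by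
    refine ⟨fun v => ?_, fun k v => ?_, fun v => ?_, fun x y e => ⟨?_, ?_⟩,
      fun k x y m n e e' => ?_, fun k x y m n e e' => ?_⟩ <;> simp only
    · linarith [h.lp v]
    · linarith [h.pq v, β3 k]
    · linarith [h.qr v]
    · linarith [(h.arc x y e).1, c1 x y]
    · linarith [(h.arc x y e).2, c1 y x]
    · have := h.pl k x y m n e e'
      linarith [c2 x y (by linarith [h.zl x m n e, (h.arc y m e').2])]
    · have := h.pr k x y m n e e'
      linarith [c2 y x (by linarith [h.zr x m n e, (h.arc y m e').1])]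
  refine ⟨_, ⟨fun v => (s.lp v).le, fun v => ?_, fun v => (s.qr v).le,
    fun x y e => ⟨(s.arc x y e).1.le, (s.arc x y e).2.le⟩, fun x y n e => ?_, fun x y n e => ?_,
    fun k x y m n e e' => (s.pl k x y m n e e').le, fun k x y m n e e' => (s.pr k x y m n e e').le,
    fun k x y => ?_, fun k v => ?_, fun k v => ?_⟩, s, fun m x y => ?_⟩ <;> simp only
  · linarith [h.pq v]
  · have := hη (x, y, true) (sub_pos.2 (h.zl x y n e))
    simp only [if_true] at this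
    linarith [c1 x y]
  · have := hη (x, y, false) (sub_pos.2 (h.zr x y n e))
    simp only [Bool.false_eq_true, if_false] at this
    linarith [c1 y x]
  · linarith [h.un k x y]
  · linarith [h.pt k v, β2 k]
  · linarith [h.tol k v]
  · rcases lt_trichotomy (ρ.L x) (ρ.L y) with e | e | e
    · have := m x y e
      have := c2 x y (by linarith)
      exact iff_of_true (by linarith) (by linarith)
    · rcases lt_trichotomy (ρ.R x) (ρ.R y) with e' | e' | e'
      · have := c2 x y (by linarith)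
        exact iff_of_true (by linarith) (by linarith)
      · simp [hc, e, e']
      · have := c2 y x (by linarith)
        exact iff_of_false (by linarith) (by linarith)
    · have := m y x e
      have := c2 y x (by linarith)
      exact iff_of_false (by linarith) (by linarith)

/-- intervals with the same out-neighbours are made monotone -/
theorem Rp.Ok.mono (h : ρ.Ok a b t A χ) (ha : a ≠ 3) : ∃ ρ' : Rp V, ρ'.Ok a b t A χ ∧ ρ'.Mono := by
  by_cases h1 : a = 1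
  · exact ⟨ρ, h, fun x y e => by linarith [h.un h1 x y]⟩
  have := fun v => @Finite.exists_max {w // ∀ m, A v m ↔ A w m} ℝ _ ⟨⟨v, fun _ => Iff.rfl⟩⟩ _
    fun w => min (2 * ρ.R w - ρ.L v - ρ.R v) (ρ.L v + ρ.R v - 2 * ρ.L w)
  choose g hg using this
  obtain ⟨r, hr⟩ : ∃ r : V → ℝ, ∀ v, r v =
    min (2 * ρ.R (g v) - ρ.L v - ρ.R v) (ρ.L v + ρ.R v - 2 * ρ.L (g v)) := ⟨_, fun _ => rfl⟩
  have r1 : ∀ v, r v ≤ 2 * ρ.R (g v) - ρ.L v - ρ.R v := fun v => hr v ▸ min_le_left _ _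
  have r2 : ∀ v, r v ≤ ρ.L v + ρ.R v - 2 * ρ.L (g v) := fun v => hr v ▸ min_le_right _ _
  have r3 : ∀ v, ρ.R v - ρ.L v ≤ r v := fun v =>
    hr v ▸ (le_min (by linarith) (by linarith)).trans (hg v ⟨v, fun _ => Iff.rfl⟩)
  have c : ∀ x y, ¬A x y → χ (g x) y = χ x y := fun x y n => by
    have n' := mt ((g x).2 y).2 n
    have e := h.arc _ _ (((g x).2 x).1 (h.refl x))
    cases c : χ x y <;> cases c' : χ (g x) y <;> try rfl
    · linarith [h.zr _ _ n c, h.zl _ _ n' c', h.pq y, h.lp x]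
    · linarith [h.zl _ _ n c, h.zr _ _ n' c', h.pq y, h.qr x]
  have o : Rp.Ok ⟨fun v => (ρ.L v + ρ.R v - r v) / 2, fun v => (ρ.L v + ρ.R v + r v) / 2, ρ.p, ρ.q⟩
      a b t A χ := by
    refine ⟨fun v => ?_, h.pq, fun v => ?_, fun x y e => ⟨?_, ?_⟩, fun x y n e => ?_,
      fun x y n e => ?_, fun k x y m n e e' => ?_, fun k x y m n e e' => ?_,
      fun k => absurd k h1, h.pt, fun k v => ?_⟩ <;> simp only
    · linarith [h.lp v, r3 v]
    · linarith [h.qr v, r3 v]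
    · linarith [(h.arc x y e).1, r3 x]
    · linarith [(h.arc x y e).2, r3 x]
    · linarith [h.zl _ y (mt ((g x).2 y).2 n) (c x y n ▸ e), r1 x]
    · linarith [h.zr _ y (mt ((g x).2 y).2 n) (c x y n ▸ e), r2 x]
    · linarith [h.pl k x _ m n e (((g y).2 m).1 e'), r3 x, r2 y]
    · linarith [h.pr k x _ m n e (((g y).2 m).1 e'), r3 x, r1 y]
    · linarith [h.tol k v]
  refine ⟨_, o, fun x y e => ?_⟩
  by_cases k : ∀ m, A x m ↔ A y m
  · have a1 := hg x ⟨g y, fun m => (k m).trans ((g y).2 m)⟩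
    have a2 := hg y ⟨g x, fun m => (k m).symm.trans ((g x).2 m)⟩
    rw [← hr, min_le_iff] at a1 a2
    simp only at e a1 a2 ⊢
    rcases a1 with a1 | a1 <;> rcases a2 with a2 | a2 <;> linarith [r1 x, r2 x, r1 y, r2 y]
  · obtain ⟨m, k⟩ := not_forall.1 k
    by_cases n : A x m
    · have n' : ¬A y m := fun n' => k (iff_of_true n n')
      cases c : χ y m
      exacts [o.pr ha y x m n' c n, absurd (o.pl ha y x m n' c n) e.not_ge]
    · have n' : A y m := by_contra fun n' => k (iff_of_false n n')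
      cases c : χ x m
      · exact absurd ((o.arc y m n').1.trans_lt (o.zr x m n c)) e.not_gt
      · exact ((o.zl x m n c).trans_le (o.arc y m n').2).le

theorem inClass_iff {n : ℕ} (A : Fin n → Fin n → Bool) (ha : a = 1 ∨ a = 2 ∨ a = 3)
    (hb : b = 1 ∨ b = 2) : InClass a b t A ↔ Cls a b t fun x y => A x y = true := by
  classical
  constructor
  · rintro ⟨L, R, p, q, h1, h2, h3, h4, h5, h6, h7⟩
    have k : a ≠ 3 → ∀ x y, (R x < R y → L x ≤ L y) ∧ (L x < L y → R x ≤ R y) := fun k x y => by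
      rcases ha with ha | ha | ha
      · exact ⟨fun e => by linarith [h3 ha x y], fun e => by linarith [h3 ha x y]⟩
      · refine ⟨fun e => not_lt.1 fun e' => h4 ha x y ⟨Set.Icc_subset_Icc e'.le e.le, fun s => ?_⟩,
          fun e => not_lt.1 fun e' => h4 ha y x ⟨Set.Icc_subset_Icc e.le e'.le, fun s => ?_⟩⟩
        · exact (s ⟨le_rfl, (h1 y).1.1.trans (h1 y).1.2⟩).1.not_gt e'
        · exact (s ⟨le_rfl, (h1 x).1.1.trans (h1 x).1.2⟩).1.not_gt e
      · exact absurd ha k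
    have z : ∀ x y, ¬A x y = true → ¬R x < p y → q y < L x := fun x y n c =>
      not_le.1 fun e => n ((h2 x y).2 ⟨e, not_lt.1 c⟩)
    exact ⟨fun x y => decide (R x < p y), ⟨L, R, p, q⟩, fun v => (h1 v).1.1,
      fun v => hb.elim (fun e => (h5 e v).le) fun e => h6 e v, fun v => (h1 v).2.2,
      fun x y => (h2 x y).1, fun x y _ c => of_decide_eq_true c,
      fun x y n c => z x y n (of_decide_eq_false c),
      fun e x y m _ c e' => (k e x y).1 ((of_decide_eq_true c).trans_le ((h2 y m).1 e').2),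
      fun e x y m n c e' => (k e y x).2 (((h2 y m).1 e').1.trans_lt (z x m n (of_decide_eq_false c))),
      h3, h5, h7⟩
  · rintro ⟨χ, ρ, h⟩
    obtain ⟨ρ, h, m⟩ : ∃ ρ : Rp (Fin n), ρ.Ok a b t (fun x y => A x y = true) χ ∧
        (a = 2 → ∀ x y, ρ.L x < ρ.L y ↔ ρ.R x < ρ.R y) := by
      by_cases e : a = 2
      · obtain ⟨ρ, h, m⟩ := h.mono (by omega)
        obtain ⟨ρ, h, -, m'⟩ := h.strict
        exact ⟨ρ, h, fun _ => m' m⟩
      · exact ⟨ρ, h, fun k => absurd k e⟩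
    refine ⟨ρ.L, ρ.R, ρ.p, ρ.q, fun v => ⟨⟨h.lp v, (h.pq v).trans (h.qr v)⟩,
      (h.lp v).trans (h.pq v), h.qr v⟩, h.iff, h.un, fun e x y s => ?_, h.pt, fun _ => h.pq, h.tol⟩
    obtain ⟨s1, s2⟩ := (Set.Icc_subset_Icc_iff (h.lr x)).1 s.1
    exact s.2 (Set.Icc_subset_Icc (not_lt.1 fun k => ((m e y x).1 k).not_ge s2)
      (not_lt.1 fun k => ((m e x y).2 k).not_ge s1))

end Pool.Agent.Lib.MP_7285af_lc
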