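import Pool.Agent.Lib.MP_7285af_lc.RepA

/-! Unit lengths from proper representations; reduction to weak components. -/

noncomputable section

namespace Pool.Agent.Lib.MP_7285af_lc

open Relation

variable {V W : Type} {a b t : ℕ} {A : V → V → Prop} {χ χ' : V → V → Bool} {ρ : Rp V}

theorem ex_unit (s : Finset (ℝ × ℝ)) (h1 : ∀ i ∈ s, i.1 < i.2)
    (h2 : ∀ i ∈ s, ∀ j ∈ s, i.1 < j.1 ↔ i.2 < j.2) :
    ∃ φ : ℝ → ℝ, StrictMono φ ∧ ∀ i ∈ s, φ i.2 = φ i.1 + 1 := by
  classical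
  induction s using Finset.induction_on_max_value (Prod.snd : ℝ × ℝ → ℝ) with
  | empty => exact ⟨id, strictMono_id, by simp⟩
  | insert i s hi hs ih =>
    have m := Finset.mem_insert_self i s
    have m' := fun j (hj : j ∈ s) => Finset.mem_insert_of_mem (b := i) hj
    obtain ⟨φ, f1, f2⟩ := ih (fun j hj => h1 j (m' j hj)) fun j hj k hk => h2 j (m' j hj) k (m' k hk)
    have l : ∀ j ∈ s, j.2 < i.2 := fun j hj => (hs j hj).lt_of_ne fun e => hi (by
      have : j.1 = i.1 := le_antisymm (not_lt.1 fun k => ((h2 i m j (m' j hj)).1 k).ne' e)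
        (not_lt.1 fun k => ((h2 j (m' j hj) i m).1 k).ne e)
      rwa [← Prod.ext this e])
    obtain ⟨τ, t1, t2⟩ := (insert i.1 (s.image Prod.snd)).exists_max_image id (by simp)
    have t3 : i.1 ≤ τ := t2 _ (by simp)
    have t4 : ∀ j ∈ s, j.2 ≤ τ := fun j hj =>
      t2 _ (Finset.mem_insert_of_mem (Finset.mem_image_of_mem _ hj))
    have t5 : τ < i.2 ∧ φ τ < φ i.1 + 1 := by
      rcases Finset.mem_insert.1 t1 with rfl | t1
      · exact ⟨h1 i m, by linarith⟩
      · obtain ⟨j, hj, rfl⟩ := Finset.mem_image.1 t1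
        exact ⟨l j hj, by linarith [f2 j hj, f1 ((h2 j (m' j hj) i m).2 (l j hj))]⟩
    have d : 0 < i.2 - τ := sub_pos.2 t5.1
    have k : 0 < (φ i.1 + 1 - φ τ) / (i.2 - τ) := div_pos (sub_pos.2 t5.2) d
    refine ⟨fun x => if x ≤ τ then φ x else φ τ + (x - τ) * ((φ i.1 + 1 - φ τ) / (i.2 - τ)),
      fun x y e => ?_, fun j hj => ?_⟩
    · simp only
      split_ifs with c1 c2 c2
      · exact f1 e
      · nlinarith [f1.monotone c1, mul_pos (sub_pos.2 (not_le.1 c2)) k]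
      · linarith
      · nlinarith
    · rcases Finset.mem_insert.1 hj with rfl | hj
      · simp only [if_pos t3, if_neg t5.1.not_ge]
        field_simp
        ring
      · simp only [if_pos (t4 j hj), if_pos ((h1 j (m' j hj)).le.trans (t4 j hj)), f2 j hj]

def Adj (A : V → V → Prop) (x y : V) : Prop := A x y ∨ A y x

/-- weakly connected -/
def Conn (A : V → V → Prop) : Prop := ∀ x y, ReflTransGen (Adj A) x y

theorem Adj.symm {x y : V} (h : Adj A x y) : Adj A y x := Or.symm h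

theorem rtg_symm {r : V → V → Prop} (s : ∀ x y, r x y → r y x) {x y : V}
    (h : ReflTransGen r x y) : ReflTransGen r y x := by
  induction h with
  | refl => exact .refl
  | tail _ e ih => exact .head (s _ _ e) ih

theorem path_symm {x y : V} (h : ReflTransGen (Adj A) x y) : ReflTransGen (Adj A) y x :=
  rtg_symm (fun _ _ => Adj.symm) h

theorem conn_cmp (v : V) : Conn fun x y : {w // ReflTransGen (Adj A) v w} => A x y := by
  have k : ∀ w (h : ReflTransGen (Adj A) v w), ReflTransGen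
      (Adj fun x y : {w // ReflTransGen (Adj A) v w} => A x y) ⟨v, .refl⟩ ⟨w, h⟩ := fun w h => by
    induction h with
    | refl => exact .refl
    | tail _ e ih => exact ih.tail e
  exact fun x y => (path_symm (k x x.2)).trans (k y y.2)

theorem Conn.cross (h : Conn A) {U : V → Prop} {x y : V} (hx : U x) (hy : ¬U y) :
    ∃ u v, U u ∧ ¬U v ∧ Adj A u v := by
  induction h x y with
  | refl => exact absurd hx hy
  | @tail u v _ e ih =>
    by_cases c : U u
    exacts [⟨u, v, c, hy, e⟩, ih c]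

variable [Finite V]

theorem Rep.unit (h : Rep 2 b 2 A χ) : Rep 1 b 2 A χ := by
  obtain ⟨ρ, h⟩ := h
  obtain ⟨ρ, h, m⟩ := h.mono (by omega)
  obtain ⟨ρ, h, s, m'⟩ := h.strict
  obtain ⟨φ, f1, f2⟩ := ex_unit (Set.finite_range fun v => (ρ.L v, ρ.R v)).toFinset
    (by simpa using fun v => (s.lp v).trans_le ((h.pq v).trans (h.qr v))) (by simpa using m' m)
  have f := f1.monotone
  simp only [Set.Finite.mem_toFinset, Set.forall_mem_range] at f2
  exact ⟨⟨φ ∘ ρ.L, φ ∘ ρ.R, φ ∘ ρ.p, φ ∘ ρ.q⟩, fun v => f (h.lp v), fun v => f (h.pq v),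
    fun v => f (h.qr v), fun x y e => ⟨f (h.arc x y e).1, f (h.arc x y e).2⟩,
    fun x y n c => f1 (h.zl x y n c), fun x y n c => f1 (h.zr x y n c),
    fun _ x y m n c e => f (h.pl (by omega) x y m n c e),
    fun _ x y m n c e => f (h.pr (by omega) x y m n c e), fun _ x y => by simp [f2],
    fun k v => congrArg φ (h.pt k v), by omega⟩

theorem cls_of_cmp (h : ∀ v, Cls a b t fun x y : {w // ReflTransGen (Adj A) v w} => A x y) :
    Cls a b t A := by
  classical
  have k : ∀ v, ∃ (ρ : Rp V) (χ : V → V → Bool), (ρ.comap Subtype.val).Ok a b t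
      (fun x y : {w // ReflTransGen (Adj A) v w} => A x y) (fun x y => χ x y) ∧
      (a = 1 → ρ.R v - ρ.L v = 1) := fun v => by
    obtain ⟨χ, σ, h⟩ := h v
    obtain ⟨σ, h, s, -⟩ := h.strict
    have d := sub_pos.2 ((s.lp ⟨v, .refl⟩).trans_le ((h.pq _).trans (h.qr _)))
    obtain ⟨σ', h', e⟩ : ∃ σ' : Rp _, σ'.Ok a b t _ χ ∧ σ'.R ⟨v, .refl⟩ - σ'.L ⟨v, .refl⟩ = 1 :=
      ⟨_, h.aff (inv_pos.2 d) 0, by simp only; field_simp; ring⟩
    obtain ⟨ρ, rfl⟩ := Rp.comap_surj σ'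
    exact ⟨ρ, fun x y => if k : _ ∧ _ then χ ⟨x, k.1⟩ ⟨y, k.2⟩ else true,
      h'.congr fun x y _ => dif_pos ⟨x.2, y.2⟩, fun _ => e⟩
  choose ρ χ h1 h2 using k
  let s : Setoid V := ⟨ReflTransGen (Adj A), fun _ => .refl, path_symm, .trans⟩
  obtain ⟨r, r1, r2⟩ : ∃ r : V → V, (∀ v, ReflTransGen (Adj A) (r v) v) ∧
      ∀ x y, Adj A x y → r x = r y := ⟨fun v => (Quotient.mk s v).out, fun v => Quotient.mk_out (s := s) v,
    fun x y e => congrArg Quotient.out (Quotient.sound (ReflTransGen.single e))⟩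
  obtain ⟨ι, hι⟩ := Countable.exists_injective_nat V
  obtain ⟨K, K0, hK⟩ := ex_bound fun v => |(ρ (r v)).L v| + |(ρ (r v)).R v|
  have o := fun v => h1 (r v)
  have b1 : ∀ v, -K < (ρ (r v)).L v := fun v => by
    linarith [hK v, neg_abs_le ((ρ (r v)).L v), abs_nonneg ((ρ (r v)).R v)]
  have b2 : ∀ v, (ρ (r v)).R v < K := fun v => by
    linarith [hK v, le_abs_self ((ρ (r v)).R v), abs_nonneg ((ρ (r v)).L v)]
  have g : ∀ x y, ι (r x) < ι (r y) →
      (ρ (r x)).R x + 2 * K * ι (r x) < (ρ (r y)).L y + 2 * K * ι (r y) := fun x y e => by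
    have : (ι (r x) : ℝ) + 1 ≤ ι (r y) := by exact_mod_cast e
    nlinarith [b1 y, b2 x]
  have g' : ∀ x y, r x ≠ r y → ¬ι (r x) < ι (r y) → ι (r y) < ι (r x) := fun x y e n =>
    (not_lt.1 n).lt_of_ne fun k => e (hι k).symm
  have lp : ∀ v, (ρ (r v)).L v ≤ (ρ (r v)).p v := fun v => (o v).lp ⟨v, r1 v⟩
  have pq : ∀ v, (ρ (r v)).p v ≤ (ρ (r v)).q v := fun v => (o v).pq ⟨v, r1 v⟩
  have qr : ∀ v, (ρ (r v)).q v ≤ (ρ (r v)).R v := fun v => (o v).qr ⟨v, r1 v⟩
  refine ⟨fun x y => if r x = r y then χ (r x) x y else decide (ι (r x) < ι (r y)),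
    ⟨fun v => (ρ (r v)).L v + 2 * K * ι (r v), fun v => (ρ (r v)).R v + 2 * K * ι (r v),
      fun v => (ρ (r v)).p v + 2 * K * ι (r v), fun v => (ρ (r v)).q v + 2 * K * ι (r v)⟩,
    fun v => ?_, fun v => ?_, fun v => ?_, fun x y e => ?_, fun x y n c => ?_, fun x y n c => ?_,
    fun k x y m n c e => ?_, fun k x y m n c e => ?_, fun k x y => ?_, fun k v => ?_,
    fun k v => ?_⟩ <;> simp only at *
  · linarith [lp v]
  · linarith [pq v]
  · linarith [qr v]
  · have e' := r2 x y (.inl e)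
    simpa [← e', Rp.comap] using (o x).arc ⟨x, r1 x⟩ ⟨y, e' ▸ r1 y⟩ e
  · split_ifs at c with e'
    · simpa [← e', Rp.comap] using (o x).zl ⟨x, r1 x⟩ ⟨y, e' ▸ r1 y⟩ n c
    · linarith [g x y (of_decide_eq_true c), lp y]
  · split_ifs at c with e'
    · simpa [← e', Rp.comap] using (o x).zr ⟨x, r1 x⟩ ⟨y, e' ▸ r1 y⟩ n c
    · linarith [g y x (g' x y e' (of_decide_eq_false c)), qr y]
  · rw [← r2 y m (.inl e)] at c
    split_ifs at c with e'
    · simpa [← e', Rp.comap] using (o x).pl k ⟨x, r1 x⟩ ⟨y, e' ▸ r1 y⟩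
        ⟨m, (e'.trans (r2 y m (.inl e))) ▸ r1 m⟩ n c e
    · linarith [g x y (of_decide_eq_true c), lp x, pq x, qr x]
  · rw [← r2 y m (.inl e)] at c
    split_ifs at c with e'
    · simpa [← e', Rp.comap] using (o x).pr k ⟨x, r1 x⟩ ⟨y, e' ▸ r1 y⟩
        ⟨m, (e'.trans (r2 y m (.inl e))) ▸ r1 m⟩ n c e
    · linarith [g y x (g' x y e' (of_decide_eq_false c)), lp x, pq x, qr x]
  · have := fun v => (o v).un k ⟨v, r1 v⟩ ⟨r v, .refl⟩
    simp only [Rp.comap, Function.comp, h2 _ k] at this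
    linarith [this x, this y]
  · exact congrArg (· + _) ((o v).pt k ⟨v, r1 v⟩)
  · have := (o v).tol k ⟨v, r1 v⟩
    simp only [Rp.comap, Function.comp] at this
    linarith

end Pool.Agent.Lib.MP_7285af_lc
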