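import Pool.Agent.Lib.MP_7285af_lc.Flip

/-! Unit totally bounded tolerance digraphs: the modules in the middle can be flipped. -/

noncomputable section

namespace Pool.Agent.Lib.MP_7285af_lc

open Relation Classical

variable {V : Type} {A : V → V → Prop} {χ χ0 : V → V → Bool} {z : V}

theorem rep_unit {r : ℝ} {c s : V → ℝ} (h1 : ∀ v, 0 ≤ s v ∧ s v ≤ r)
    (h2 : ∀ x y, A x y → c x - c y ≤ r + s y ∧ c y - c x ≤ r + s y)
    (h3 : ∀ x y, ¬A x y → χ x y = true → c x + r + s y < c y)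
    (h4 : ∀ x y, ¬A x y → χ x y = false → c y + r + s y < c x) : Rep 1 2 1 A χ := by
  refine ⟨⟨fun v => c v - r, fun v => c v + r, fun v => c v - s v, fun v => c v + s v⟩,
    .of_mono (fun x y k => ?_) (fun v => ?_) (fun v => ?_) (fun v => ?_) (fun x y e => ⟨?_, ?_⟩)
    (fun x y n e => ?_) (fun x y n e => ?_) (fun _ x y => ?_) (by omega) fun _ v => ?_⟩ <;>
    simp only at *
  exacts [by linarith, by linarith [h1 v], by linarith [h1 v], by linarith [h1 v],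
    by linarith [h2 x y e], by linarith [h2 x y e], by linarith [h3 x y n e],
    by linarith [h4 x y n e], by ring, by ring]

variable [Finite V]

theorem Rep.flip1 (hc : Conn A) (h : Rep 1 2 1 A χ) (hm : Md A z)
    (hl : ∃ s, ¬A z s ∧ χ z s = false) (hr : ∃ s, ¬A z s ∧ χ z s = true) :
    Rep 1 2 1 A (fl A (· = z) χ) := by
  obtain ⟨ρ, h⟩ := h
  obtain ⟨ρ, h, st, -⟩ := h.strict
  obtain ⟨r, c, s, eL, eR, ep, eq⟩ : ∃ (r : ℝ) (c s : V → ℝ), (∀ v, ρ.L v = c v - r) ∧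
      (∀ v, ρ.R v = c v + r) ∧ (∀ v, ρ.p v = c v - s v) ∧ ∀ v, ρ.q v = c v + s v :=
    ⟨(ρ.R z - ρ.L z) / 2, fun v => (ρ.L v + ρ.R v) / 2, fun v => (ρ.q v - ρ.p v) / 2,
      fun v => by linarith [h.un rfl v z], fun v => by linarith [h.un rfl v z],
      fun v => by linarith [h.tol rfl v], fun v => by linarith [h.tol rfl v]⟩
  have s0 : ∀ v, 0 ≤ s v := fun v => by linarith [h.pq v, ep v, eq v]
  have s1 : ∀ v, s v < r := fun v => by linarith [st.lp v, ep v, eL v]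
  have ar : ∀ x y, A x y → c x - c y ≤ r + s y ∧ c y - c x ≤ r + s y := fun x y e =>
    ⟨by linarith [(h.arc x y e).1, eL x, eq y], by linarith [(h.arc x y e).2, eR x, ep y]⟩
  have zl : ∀ x y, ¬A x y → χ x y = true → c x + r + s y < c y := fun x y n e => by
    linarith [h.zl x y n e, eR x, ep y]
  have zr : ∀ x y, ¬A x y → χ x y = false → c y + r + s y < c x := fun x y n e => by
    linarith [h.zr x y n e, eL x, eq y]
  have r0 := (s0 z).trans_lt (s1 z)
  obtain ⟨x0, y0, d1, d2, d3⟩ := hm.1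
  obtain ⟨u1, a1, l1⟩ := ex_min c d1
  obtain ⟨u2, a2, l2⟩ := ex_max c d1
  have lf : ∀ x, ¬A z x → χ z x = false → ∀ m, A z m →
      c x + s x + r < c m ∧ (¬A x m → c x + r + s m < c m) := fun x n e m k =>
    (h.lf k n (hm.out k n) e).imp (fun j => by linarith [eq x, eL m])
      fun j i => by linarith [j i, eR x, ep m]
  have rt : ∀ x, ¬A z x → χ z x = true → ∀ m, A z m →
      c m + s x + r < c x ∧ (¬A x m → c m + r + s m < c x) := fun x n e m k =>
    (h.rt k n (hm.out k n) e).imp (fun j => by linarith [ep x, eR m])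
      fun j i => by linarith [j i, eL x, eq m]
  obtain ⟨w1, b1, b2⟩ := hl
  obtain ⟨w2, b5, b6⟩ := hr
  obtain ⟨w1, z1, b1, b2, b3, b4⟩ := b2 ▸ h.cross hc hm b1
  obtain ⟨w2, z2, b5, b6, b7, b8⟩ := b6 ▸ h.cross hc hm b5
  have mid : ∀ v, Nn A z v → c v - (c z1 + c z2) / 2 < r ∧ -r < c v - (c z1 + c z2) / 2 :=
    fun v k => by
      have := ar _ _ (hm.2.2 _ _ b1 b4 b3 v k.1).1
      have := ar _ _ (hm.2.2 _ _ b5 b8 b7 v k.1).1
      constructor <;> linarith [(rt _ b5 b6 v k.1).2 (k.2 _ b5), ar _ _ b8, s1 z2,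
        (lf _ b1 b2 v k.1).2 (k.2 _ b1), ar _ _ b4, s1 z1]
  have δ0 : c u1 + r < c u2 := by
    cases e : χ x0 y0
    exacts [by linarith [zr _ _ d3 e, l1 _ d2, l2 _ d1, s0 y0],
      by linarith [zl _ _ d3 e, l1 _ d1, l2 _ d2, s0 y0]]
  obtain ⟨η1, η10, g1⟩ := ex_gap fun v => c u1 - (c v + s v + r)
  obtain ⟨η2, η20, g2⟩ := ex_gap fun v => c v - (c u2 + s v + r)
  obtain ⟨η3, η30, g3⟩ := ex_gap fun v => r - s v
  obtain ⟨ε, ε0, e1, e2, e3⟩ : ∃ ε > 0, 2 * (ε * r) < η1 ∧ 2 * (ε * r) < η2 ∧ 2 * (ε * r) < η3 := by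
    have := lt_min η10 (lt_min η20 η30)
    refine ⟨min η1 (min η2 η3) / 3 / r, by positivity, ?_⟩
    rw [div_mul_cancel₀ _ r0.ne', ← lt_min_iff, ← lt_min_iff]
    linarith
  obtain ⟨u, σ, f1, f2, f3, f4⟩ : ∃ u σ : V → ℝ, (∀ v, Nn A z v → u v < ε * r ∧ -(ε * r) < u v) ∧
      (∀ v, 0 ≤ σ v ∧ σ v ≤ ε * r) ∧ (∀ x y v, c x - c y ≤ r + s v → u x - u y ≤ ε * r + σ v) ∧
      ∀ x y v, c x + r + s v < c y → u x + ε * r + σ v < u y :=
    ⟨fun v => ε * (c v - (c z1 + c z2) / 2), fun v => ε * s v,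
      fun v k => ⟨by nlinarith [mid v k], by nlinarith [mid v k]⟩,
      fun v => ⟨by nlinarith [s0 v], by nlinarith [s1 v]⟩, fun x y v k => by nlinarith,
      fun x y v k => by nlinarith⟩
  have e0 := mul_pos ε0 r0
  generalize ε * r = e at *
  have g3 := fun v => g3 v (sub_pos.2 (s1 v))
  obtain ⟨c', s', o⟩ : ∃ c' s' : V → ℝ, ∀ v,
      (¬A z v ∧ s' v = s v ∧ (χ z v = false ∧ c' v = c v ∨
        χ z v = true ∧ c' v = c v - (c u2 - c u1 - r))) ∨
      (Nn A z v ∧ s' v = σ v ∧ (0 ≤ u v ∧ c' v = c u1 - u v ∨ u v < 0 ∧ c' v = c u1 + r - u v - e)) ∨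
      (A z v ∧ ¬Nn A z v ∧ c' v - s' v = min (c v - s v) (c u1) ∧
        c' v + s' v = max (c v + s v - (c u2 - c u1 - r)) (c u1 + r)) := by
    refine ⟨fun v => if A z v then if Nn A z v then if 0 ≤ u v then c u1 - u v else
      c u1 + r - u v - e else (max (c v + s v - (c u2 - c u1 - r)) (c u1 + r) +
        min (c v - s v) (c u1)) / 2 else if χ z v then c v - (c u2 - c u1 - r) else c v,
      fun v => if A z v then if Nn A z v then σ v else (max (c v + s v - (c u2 - c u1 - r))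
        (c u1 + r) - min (c v - s v) (c u1)) / 2 else s v, fun v => ?_⟩
    by_cases k : A z v
    · by_cases k' : Nn A z v
      · refine .inr (.inl ⟨k', by simp [k, k'], (le_or_gt 0 (u v)).imp (fun j => ⟨j, ?_⟩)
          fun j => ⟨j, ?_⟩⟩) <;> simp [k, k', j]
      · refine .inr (.inr ⟨k, k', ?_, ?_⟩) <;> simp only [k, k', if_true, if_false] <;> ring
    · refine .inl ⟨k, by simp [k], ?_⟩
      cases j : χ z v <;> simp [k, j]
  have oo : ∀ v, ¬A z v → s' v = s v ∧ (c v + s v + r + 2 * e < c u1 ∧ c' v = c v ∨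
      c u2 + s v + r + 2 * e < c v ∧ c' v = c v - (c u2 - c u1 - r)) := fun v n => by
    rcases o v with ⟨-, k, k'⟩ | ⟨k, -⟩ | ⟨k, -⟩
    · exact ⟨k, k'.imp (fun j => ⟨by linarith [g1 v (sub_pos.2 (lf v n j.1 _ a1).1)], j.2⟩)
        fun j => ⟨by linarith [g2 v (sub_pos.2 (rt v n j.1 _ a2).1)], j.2⟩⟩
    exacts [absurd k.1 n, absurd k n]
  have oi : ∀ v, A z v → (Nn A z v ∧ s' v = σ v ∧
      (0 ≤ u v ∧ c' v = c u1 - u v ∨ u v < 0 ∧ c' v = c u1 + r - u v - e)) ∨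
      (¬Nn A z v ∧ c' v - s' v = min (c v - s v) (c u1) ∧
        c' v + s' v = max (c v + s v - (c u2 - c u1 - r)) (c u1 + r)) := fun v k =>
    ((o v).resolve_left fun j => j.1 k).imp_right And.right
  have ob : ∀ v, A z v → 0 ≤ s' v ∧ s' v ≤ r ∧ c u1 - e ≤ c' v ∧ c' v ≤ c u1 + r ∧
      (¬Nn A z v → c u1 ≤ c' v ∧ c' v ≤ c u1 + r - e) := fun v k => by
    have := g3 v
    have := s0 v
    rcases oi v k with ⟨j, j1, j2⟩ | ⟨j, j1, j2⟩
    · obtain ⟨i1, i2⟩ := f1 v j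
      obtain ⟨i3, i4⟩ := f2 v
      rcases j2 with ⟨j2, j3⟩ | ⟨j2, j3⟩ <;>
        exact ⟨by linarith, by linarith, by linarith, by linarith, fun i => absurd j i⟩
    · have := l1 v k
      have := l2 v k
      rcases min_cases (c v - s v) (c u1) with ⟨i1, i2⟩ | ⟨i1, i2⟩ <;>
        rcases max_cases (c v + s v - (c u2 - c u1 - r)) (c u1 + r) with ⟨i3, i4⟩ | ⟨i3, i4⟩ <;>
        exact ⟨by linarith, by linarith, by linarith, by linarith, fun _ => ⟨by linarith, by linarith⟩⟩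
  have er : e ≤ r := by linarith [g3 z, s0 z]
  refine rep_unit (r := r) (c := c') (s := s') (fun v => ?_) (fun x y k => ?_) (fun x y n k => ?_)
    fun x y n k => ?_
  · by_cases k : A z v
    exacts [⟨(ob v k).1, (ob v k).2.1⟩, (oo v k).1 ▸ ⟨s0 v, (s1 v).le⟩]
  · obtain ⟨k1, k2⟩ := ar x y k
    by_cases ex : A z x
    · have ey := hm.2.1 x y ex k
      obtain ⟨-, -, i1, i2, i3⟩ := ob x ex
      obtain ⟨i0, -, i4, i5, i6⟩ := ob y ey
      rcases oi x ex with ⟨j, -, j2⟩ | ⟨j, -⟩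
      · rcases oi y ey with ⟨j', j3, j4⟩ | ⟨j', -⟩
        · have := f1 x j
          have := f1 y j'
          have := f3 x y y k1
          have := f3 y x y k2
          rcases j2 with j2 | j2 <;> rcases j4 with j4 | j4 <;> constructor <;> linarith
        · constructor <;> linarith [i6 j']
      · constructor <;> linarith [i3 j]
    · obtain ⟨i1, i2⟩ := oo x ex
      by_cases ey : A z y
      · rcases oi y ey with ⟨j, -⟩ | ⟨j, j1, j2⟩
        · exact absurd k (j.2 x ex)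
        · have := min_le_left (c y - s y) (c u1)
          have := le_max_left (c y + s y - (c u2 - c u1 - r)) (c u1 + r)
          obtain ⟨i0, -, i4, i5, -⟩ := ob y ey
          rcases i2 with i2 | i2 <;> constructor <;> linarith [s0 x]
      · obtain ⟨i3, i4⟩ := oo y ey
        rcases i2 with i2 | i2 <;> rcases i4 with i4 | i4 <;> constructor <;> linarith [s0 x, s0 y]
  · by_cases ex : A z x <;> by_cases ey : A z y
    · have k := f4 _ _ _ (zr x y n (by simpa [fl_in ex ey] using k))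
      obtain ⟨j, j'⟩ := hm.nn ex ey n
      obtain ⟨-, -, j2⟩ := (oi x ex).resolve_right fun i => i.1 j
      obtain ⟨-, j3, j4⟩ := (oi y ey).resolve_right fun i => i.1 j'
      rcases j2 with j2 | j2 <;> rcases j4 with j4 | j4 <;> linarith [f1 x j, f1 y j', f2 y]
    all_goals have k := zl x y n ((fl_out (by tauto)).symm.trans k)
    · obtain ⟨i3, i4 | i4⟩ := oo y ey <;> linarith [(ob x ex).2.2.2.1, l1 x ex, s0 y]
    · obtain ⟨-, i2 | i2⟩ := oo x ex
      · rcases oi y ey with ⟨j, j1, -⟩ | ⟨j, j1, -⟩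
        · linarith [(ob y ey).2.2.1, f2 y, s0 x]
        · linarith [lt_min (show c x + r < c y - s y by linarith)
            (show c x + r < c u1 by linarith [s0 x])]
      · linarith [l2 y ey, s0 x, s0 y]
    · obtain ⟨-, i2 | i2⟩ := oo x ex <;> obtain ⟨i3, i4 | i4⟩ := oo y ey <;> linarith [s0 x, s0 y]
  · by_cases ex : A z x <;> by_cases ey : A z y
    · have k := f4 _ _ _ (zl x y n (by simpa [fl_in ex ey] using k))
      obtain ⟨j, j'⟩ := hm.nn ex ey n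
      obtain ⟨-, -, j2⟩ := (oi x ex).resolve_right fun i => i.1 j
      obtain ⟨-, j3, j4⟩ := (oi y ey).resolve_right fun i => i.1 j'
      rcases j2 with j2 | j2 <;> rcases j4 with j4 | j4 <;> linarith [f1 x j, f1 y j', f2 y]
    all_goals have k := zr x y n ((fl_out (by tauto)).symm.trans k)
    · obtain ⟨i3, i4 | i4⟩ := oo y ey <;> linarith [(ob x ex).2.2.1, l2 x ex, s0 y]
    · obtain ⟨-, i2 | i2⟩ := oo x ex
      · linarith [l1 y ey, s0 x, s0 y]
      · rcases oi y ey with ⟨j, j1, -⟩ | ⟨j, -, j1⟩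
        · linarith [(ob y ey).2.2.2.1, f2 y, s0 x]
        · linarith [max_lt (show c y + s y - (c u2 - c u1 - r) < c' x - r by linarith)
            (show c u1 + r < c' x - r by linarith [s0 x])]
    · obtain ⟨-, i2 | i2⟩ := oo x ex <;> obtain ⟨i3, i4 | i4⟩ := oo y ey <;> linarith [s0 x, s0 y]

theorem Cls.unit (hc : Conn A) (r0 : Resp 2 A χ0) (h : Cls 1 2 1 A) :
    Rep 1 2 1 A χ0 ∨ ∃ z1 z2, Rep 1 2 1 A (fl A (fun z => z = z1 ∨ z = z2) χ0) := by
  obtain ⟨χ, ⟨ρ, h⟩, ag, k⟩ := fix_all (fun z => ∀ b, ∃ s, ¬A z s ∧ χ0 z s = b) hc (by omega) r0 h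
    fun χ z h ag d g => by
      have r := h.elim fun _ h => h.refl z
      have := fun b => (g b).imp fun s k => And.intro k.1 ((ag.out d.1 r k.1).1.trans k.2)
      exact h.flip1 hc d.1 (this _) (this _)
  have r := h.refl
  have e := fun F h1 h2 => h.congr (eq_fl (F := F) r (h.resp (by omega) (by omega)) r0 ag h1 h2)
  by_cases c : ∃ z, Dis A χ χ0 z
  swap
  · exact .inl ⟨ρ, (e (fun _ => False) (by simp) fun z d => absurd ⟨z, d⟩ c).congr
      fun x y _ => by simp [fl]⟩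
  obtain ⟨z1, d1⟩ := c
  by_cases c : ∃ z, Dis A χ χ0 z ∧ ¬A z1 z
  swap
  · exact .inr ⟨z1, z1, ρ, e _ (by simpa using d1) fun z d =>
      ⟨z1, .inl rfl, by_contra fun n => c ⟨z, d, n⟩⟩⟩
  obtain ⟨z2, d2, c⟩ := c
  refine .inr ⟨z1, z2, ρ, e _ (by simp [d1, d2]) fun z d => by_contra fun n => ?_⟩
  have o : ∀ z z', Dis A χ χ0 z → Dis A χ χ0 z' → ¬A z z' → ∃ b, (∃ s, ¬A z s ∧ χ0 z s = b) ∧
      ∃ s, ¬A z' s ∧ χ0 z' s = !b := fun z z' d d' n =>
    have n' : ¬A z' z := fun n' => n (d.1.sub d'.1 (r z) n' (r z'))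
    ⟨_, ⟨z', n, rfl⟩, z, n', r0.cn (opp (x := z) r (not_or.2 ⟨n, n'⟩)) rfl⟩
  obtain ⟨b1, o1, o1'⟩ := o _ _ d1 d2 c
  obtain ⟨b2, o2, o2'⟩ := o _ _ d1 d fun j => n ⟨z1, .inl rfl, j⟩
  obtain ⟨b3, o3, o3'⟩ := o _ _ d2 d fun j => n ⟨z2, .inr rfl, j⟩
  have K : ∀ z, Dis A χ χ0 z → ∀ b b', (∃ s, ¬A z s ∧ χ0 z s = b) →
      (∃ s, ¬A z s ∧ χ0 z s = b') → b = b' := fun z d b b' j j' => by_contra fun i =>
    k z d fun c => by
      by_cases e : c = b
      exacts [e ▸ j, (show c = b' by revert i e; cases b <;> cases b' <;> simp) ▸ j']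
  simpa [K _ d2 _ _ o3 o1', K _ d1 _ _ o2 o1] using K _ d _ _ o2' o3'

end Pool.Agent.Lib.MP_7285af_lc
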